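import Pool.Agent.H901.GM.Sys
import Pool.Agent.H900.PN.Rf

/-! # The Pfister form with the additional slot is anisotropic over the residue field -/

set_option autoImplicit false
set_option linter.unusedSectionVars false
set_option linter.unusedVariables false

namespace Pool.Agent.H901.GM

open MvPolynomial FF Module Pool.Agent.H900.PN Pool.Agent.H900.LF

noncomputable section

namespace ANRAux

section poly

variable {s : ℕ} {μ k : Type} [Finite μ] [Field k] [CharZero k] (i1 i2 : Fin s)

/-- a substitution -/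
theorem pp_sub {ι σ : Type} [Finite σ] [Fintype ι] [DecidableEq ι] (v : σ) (f : MvPolynomial σ k)
    {Y : MvPolynomial σ k} {a : ι → MvPolynomial σ k} {A : Finset ι} (h0 : X v - f ≠ 0)
    (hf : sub v f f = f) (h : PP (sub v f Y) (fun i => sub v f (a i)) A) : PP Y a A := by
  classical
  intro Z
  refine an_step (sub v f).toRingHom (X v - f) h0 ?_ (fun p hp => sub_ker _ _ _ hp) _ _ _ ∅
    (fun i => by rw [if_neg (Set.notMem_empty i)]) ?_ ?_
  · show sub v f (X v - f) = 0
    rw [map_sub, Pool.Agent.H900.LF.sub_self, hf, _root_.sub_self]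
  · rw [Set.sdiff_empty]
    refine (h Z).congr fun p _ => ?_
    show _ = sub v f _
    rw [map_mul, map_prod]
    congr 1
    split_ifs
    · rfl
    · rw [map_one]
  · rw [Set.inter_empty]
    intro r hr _
    funext i
    exact hr i (Set.notMem_empty i)

/-- the variable slots -/
theorem pp_vars : ∀ W : Finset (Fin s), i1 ∉ W →
    PP (X (Sum.inl i1) : MvPolynomial (Sg s 4 μ) k) (fun i => X (Sum.inl i)) W := by
  classical
  intro W
  induction W using Finset.induction_on with
  | empty => exact fun _ => pp_base _ _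
  | insert j W hj ih =>
    intro hW
    have h01 : i1 ≠ j := fun h => hW (h ▸ Finset.mem_insert_self _ _)
    have hW' : i1 ∉ W := fun h => hW (Finset.mem_insert_of_mem h)
    refine pstep (sub (Sum.inl j) (0 : MvPolynomial (Sg s 4 μ) k)).toRingHom
      (π := X (Sum.inl j)) (g := 1) (X_ne_zero _) (Pool.Agent.H900.LF.sub_self _ 0) (fun p hp => ?_) hj
      (mul_one _).symm ?_ ?_
    · have h1 := sub_ker (Sum.inl j) 0 p hp
      rwa [sub_zero] at h1
    · rw [map_one]
      exact one_ne_zero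
    · have hfix : (sub (Sum.inl j) (0 : MvPolynomial (Sg s 4 μ) k)).toRingHom (X (Sum.inl i1)) =
          X (Sum.inl i1) := sub_ne (by simpa using h01) _
      rw [hfix]
      refine (ih hW').congr fun i hi => ?_
      have hii : i ≠ j := fun h => hj (h ▸ hi)
      exact (sub_ne (by simpa using hii) _).symm

/-- the variables -/
abbrev xq (q : Fin 4) : MvPolynomial (Sg s 4 μ) k := X (Sum.inr (Sum.inl q))

/-- the denominator -/
def AP : MvPolynomial (Sg s 4 μ) k := xq 0 ^ 2 + X (Sum.inl i1) * xq 3 ^ 2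

/-- the numerator -/
def BP : MvPolynomial (Sg s 4 μ) k :=
  (xq 1 + (1 + X (Sum.inl i1)) * xq 3) ^ 2 + X (Sum.inl i1) * (xq 2 ^ 2 + xq 2 * xq 3) +
    X (Sum.inl i2) * ((xq 0 * xq 3 - xq 1 * xq 2) ^ 2 + X (Sum.inl i1))

/-- the slots -/
def sl (P : MvPolynomial (Sg s 4 μ) k) (i : Fin s) : MvPolynomial (Sg s 4 μ) k :=
  if i = i1 then P else X (Sum.inl i)

theorem sl_sub (v : Sg s 4 μ) (hv : ∀ i, v ≠ Sum.inl i) (f P : MvPolynomial (Sg s 4 μ) k)
    (i : Fin s) : sub v f (sl i1 P i) = sl i1 (sub v f P) i := by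
  unfold sl
  split_ifs
  · rfl
  · exact sub_ne (Ne.symm (hv i)) _

theorem one_sub (v : Sg s 4 μ) (f : MvPolynomial (Sg s 4 μ) k) : sub v f 1 = 1 := map_one _

theorem pp_all (h12 : i1 ≠ i2) :
    PP (X (Sum.inl i1) : MvPolynomial (Sg s 4 μ) k) (sl i1 (-(AP i1 * BP i1 i2))) Finset.univ := by
  classical
  set Y : MvPolynomial (Sg s 4 μ) k := X (Sum.inl i1) with hY
  set Z : MvPolynomial (Sg s 4 μ) k := X (Sum.inl i2) with hZ
  have hYs : ∀ (q : Fin 4) f, sub (Sum.inr (Sum.inl q)) f Y = Y := fun q f => sub_ne (by simp) _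
  have hZs : ∀ (q : Fin 4) f, sub (Sum.inr (Sum.inl q)) f Z = Z := fun q f => sub_ne (by simp) _
  have hss : ∀ (q : Fin 4) (f : MvPolynomial (Sg s 4 μ) k), sub (Sum.inr (Sum.inl q)) f (xq q) = f :=
    fun q f => Pool.Agent.H900.LF.sub_self _ _
  have hsn : ∀ (q q' : Fin 4) (f : MvPolynomial (Sg s 4 μ) k), q' ≠ q →
      sub (Sum.inr (Sum.inl q)) f (xq q') = xq q' := fun q q' f h => sub_ne (by simpa using h) _
  have hv : ∀ (q : Fin 4) (i : Fin s), (Sum.inr (Sum.inl q) : Sg s 4 μ) ≠ Sum.inl i := by simp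
  have hne : ∀ (q : Fin 4) (f : MvPolynomial (Sg s 4 μ) k),
      eval (fun v : Sg s 4 μ => if v = Sum.inr (Sum.inl q) then (1 : k) else 0) f = 0 →
      xq q - f ≠ 0 := by
    intro q f hf h
    have h3 := congrArg (eval (fun v : Sg s 4 μ => if v = Sum.inr (Sum.inl q) then (1 : k)
        else 0)) h
    rw [map_sub, hf, eval_X, if_pos rfl, map_zero, sub_zero] at h3
    exact one_ne_zero h3
  -- first substitution
  refine pp_sub (Sum.inr (Sum.inl 1)) (-(1 + Y) * xq 3) (hne _ _ ?_) ?_ ?_
  · simp [hY]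
  · rw [map_mul, map_neg, map_add, map_one, hYs, hsn 1 3 _ (by decide)]
  rw [hYs]
  simp only [sl_sub i1 _ (hv 1)]
  -- second substitution
  refine pp_sub (Sum.inr (Sum.inl 0)) (-(1 + Y) * xq 2) (hne _ _ ?_) ?_ ?_
  · simp [hY]
  · rw [map_mul, map_neg, map_add, map_one, hYs, hsn 0 2 _ (by decide)]
  rw [hYs]
  simp only [sl_sub i1 _ (hv 0)]
  -- third substitution
  refine pp_sub (Sum.inr (Sum.inl 2)) 1 ?_ (map_one _) ?_
  · intro h
    have h3 := congrArg (eval (fun v : Sg s 4 μ => (0 : k))) h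
    rw [map_sub, map_one, eval_X, map_zero, zero_sub] at h3
    exact one_ne_zero (neg_eq_zero.1 h3)
  rw [hYs]
  simp only [sl_sub i1 _ (hv 2)]
  have hP : sub (Sum.inr (Sum.inl 2)) 1 (sub (Sum.inr (Sum.inl 0)) (-(1 + Y) * xq 2)
      (sub (Sum.inr (Sum.inl 1)) (-(1 + Y) * xq 3) (-(AP i1 * BP i1 i2)))) =
      (xq 3 - (-1 - Z)) * (-(((1 + Y) ^ 2 + Y * xq 3 ^ 2) * Y)) := by
    unfold AP BP
    rw [← hY, ← hZ]
    simp only [map_neg, map_mul, map_add, map_sub, map_pow, map_one, hYs, hZs, hss,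
      hsn 1 0 _ (by decide), hsn 1 2 _ (by decide), hsn 1 3 _ (by decide),
      hsn 0 2 _ (by decide), hsn 0 3 _ (by decide), hsn 2 3 _ (by decide)]
    ring
  rw [hP]
  -- the slot
  have h4 : (Finset.univ : Finset (Fin s)) = insert i1 (Finset.univ.erase i1) :=
    (Finset.insert_erase (Finset.mem_univ _)).symm
  rw [h4]
  have hfix : sub (Sum.inr (Sum.inl 3)) (-1 - Z) (-1 - Z) = (-1 - Z : MvPolynomial (Sg s 4 μ) k) := by
    rw [map_sub, map_neg, map_one, hZs]
  refine pstep (sub (Sum.inr (Sum.inl 3)) (-1 - Z)).toRingHom (π := xq 3 - (-1 - Z))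
    (g := -(((1 + Y) ^ 2 + Y * xq 3 ^ 2) * Y)) ?_ ?_ (fun p hp => sub_ker _ _ _ hp)
    (Finset.notMem_erase _ _) (if_pos rfl) ?_ ?_
  · intro h
    have h3 := congrArg (eval (fun v : Sg s 4 μ => (0 : k))) h
    simp only [hZ, map_sub, map_neg, map_one, eval_X, map_zero] at h3
    norm_num at h3
  · show sub _ _ (xq 3 - (-1 - Z)) = 0
    rw [map_sub, hss, hfix, _root_.sub_self]
  · show sub _ _ (-(((1 + Y) ^ 2 + Y * xq 3 ^ 2) * Y)) ≠ 0
    rw [map_neg, map_mul, map_add, map_pow, map_add, map_one, map_mul, map_pow, hYs, hss]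
    intro h
    have h3 := congrArg (eval (fun v : Sg s 4 μ => (1 : k))) h
    simp only [hY, hZ, map_sub, map_neg, map_one, map_add, map_mul, map_pow, eval_X,
      map_zero] at h3
    norm_num at h3
  · show PP (sub _ _ Y) (fun i => sub _ _ (sl i1 _ i)) _
    rw [hYs]
    refine (pp_vars i1 _ (Finset.notMem_erase _ _)).congr fun i hi => ?_
    rw [sl_sub i1 _ (hv 3)]
    exact (if_neg (Finset.ne_of_mem_erase hi)).symm

theorem AP_ne : (AP i1 : MvPolynomial (Sg s 4 μ) k) ≠ 0 := by
  intro h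
  have h3 := congrArg (eval (fun v : Sg s 4 μ => (1 : k))) h
  unfold AP at h3
  simp only [map_add, map_mul, map_pow, eval_X, map_zero] at h3
  norm_num at h3

end poly

section field

variable {Ω κ μ : Type} [Field Ω] [CharZero Ω] [Field κ] [Algebra Ω κ] [Finite μ] {s : ℕ}
  {i1 i2 : Fin s} {t : Fin s → κ} {y : κ} {x : Fin 4 → κ} {R : μ → κ}

theorem aeval_AP : aeval (uV i1 t y x R) (AP i1 : MvPolynomial (Sg s 4 μ) Ω) =
    x 0 ^ 2 + y * x 3 ^ 2 := by
  unfold AP
  rw [map_add, map_mul, map_pow, map_pow, aeval_X, aeval_X, aeval_X]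
  have h1 : uV i1 t y x R (Sum.inl i1) = y := if_pos rfl
  rw [h1]
  rfl

theorem aeval_BP (h12 : i1 ≠ i2) :
    aeval (uV i1 t y x R) (BP i1 i2 : MvPolynomial (Sg s 4 μ) Ω) =
    ((x 1 + (1 + y) * x 3) ^ 2 + y * (x 2 ^ 2 + x 2 * x 3)) +
      t i2 * ((x 0 * x 3 - x 1 * x 2) ^ 2 + y) := by
  unfold BP
  have h1 : uV i1 t y x R (Sum.inl i1) = y := if_pos rfl
  have h2 : uV i1 t y x R (Sum.inl i2) = t i2 := if_neg (Ne.symm h12)
  have h3 : ∀ q : Fin 4, uV i1 t y x R (Sum.inr (Sum.inl q)) = x q := fun q => rfl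
  simp only [map_add, map_mul, map_pow, map_sub, map_one, aeval_X, h1, h2, h3]

end field

end ANRAux

open ANRAux

theorem anr : S_ANR := by
  intro Ω κ μ _ _ _ _ _ s i1 i2 t y x R h12 hVi hrel hodd
  classical
  have hfin : Fintype (Sg s 4 μ) := Fintype.ofFinite _
  set V := uV i1 t y x R with hV
  set FV := IntermediateField.adjoin Ω (Set.range V) with hFV
  have hfd : FiniteDimensional FV κ := FiniteDimensional.of_finrank_pos hodd.pos
  have hVm : ∀ w, V w ∈ FV := fun w => IntermediateField.subset_adjoin _ _ ⟨w, rfl⟩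
  have hinj := (algebraicIndependent_iff_injective_aeval).1 hVi
  -- the denominator
  have hA : x 0 ^ 2 + y * x 3 ^ 2 ≠ 0 := by
    rw [← ANRAux.aeval_AP (Ω := Ω) (R := R) (i1 := i1) (t := t)]
    intro h0
    exact ANRAux.AP_ne (k := Ω) i1 ((algebraicIndependent_iff.1 hVi) _ h0)
  set a := x 0 ^ 2 + y * x 3 ^ 2 with ha
  set b := ((x 1 + (1 + y) * x 3) ^ 2 + y * (x 2 ^ 2 + x 2 * x 3)) +
      t i2 * ((x 0 * x 3 - x 1 * x 2) ^ 2 + y) with hb
  have hr : b + t i1 * a = 0 := by
    rw [← hrel]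
    unfold rel
    rw [ha, hb]
    ring
  refine ⟨hA, ?_, ?_⟩
  · -- independence of `t`
    set W : Sg s 4 μ → κ := Sum.elim t (Sum.elim (fun j => if j = 1 then y else x j) R) with hW
    set FW := IntermediateField.adjoin Ω (Set.range W) with hFW
    have hWm : ∀ w, W w ∈ FW := fun w => IntermediateField.subset_adjoin _ _ ⟨w, rfl⟩
    have ht : ∀ i, t i ∈ FW := fun i => hWm (Sum.inl i)
    have hy : y ∈ FW := by
      have h1 := hWm (Sum.inr (Sum.inl 1))
      have h2 : W (Sum.inr (Sum.inl 1)) = y := rfl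
      rwa [h2] at h1
    have hx : ∀ j, j ≠ 1 → x j ∈ FW := by
      intro j hj
      have h1 := hWm (Sum.inr (Sum.inl j))
      have h2 : W (Sum.inr (Sum.inl j)) = x j := if_neg hj
      rwa [h2] at h1
    have hR : ∀ j, R j ∈ FW := fun j => hWm (Sum.inr (Sum.inr j))
    have h0 := hx 0 (by decide)
    have h2 := hx 2 (by decide)
    have h3 := hx 3 (by decide)
    have hc2 : 1 + t i2 * x 2 ^ 2 ≠ 0 := by
      have e1 : aeval V (1 + X (Sum.inl i2) * X (Sum.inr (Sum.inl 2)) ^ 2 :
          MvPolynomial (Sg s 4 μ) Ω) = 1 + t i2 * x 2 ^ 2 := by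
        rw [map_add, map_one, map_mul, map_pow, aeval_X, aeval_X]
        have h2 : V (Sum.inl i2) = t i2 := if_neg (Ne.symm h12)
        rw [h2]
        rfl
      rw [← e1]
      intro h
      have h4 := (algebraicIndependent_iff.1 hVi) _ h
      have h5 := congrArg (eval (fun v : Sg s 4 μ => (0 : Ω))) h4
      simp only [map_add, map_one, map_mul, map_pow, eval_X, map_zero] at h5
      norm_num at h5
    have hone : (1 : κ) ∈ FW := one_mem _
    set c2 : FW := ⟨1 + t i2 * x 2 ^ 2, add_mem hone (mul_mem (ht i2) (pow_mem h2 2))⟩ with hc2d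
    set c1 : FW := ⟨(1 + y) * x 3 + (1 + y) * x 3 - (t i2 * (x 0 * x 3) * x 2 +
      t i2 * (x 0 * x 3) * x 2), sub_mem (add_mem (mul_mem (add_mem hone hy) h3)
      (mul_mem (add_mem hone hy) h3)) (add_mem (mul_mem (mul_mem (ht i2) (mul_mem h0 h3)) h2)
      (mul_mem (mul_mem (ht i2) (mul_mem h0 h3)) h2))⟩ with hc1d
    set c0 : FW := ⟨(((1 + y) * x 3) ^ 2 + y * (x 2 ^ 2 + x 2 * x 3)) +
      t i1 * (x 0 ^ 2 + y * x 3 ^ 2) + t i2 * ((x 0 * x 3) ^ 2 + y),
      add_mem (add_mem (add_mem (pow_mem (mul_mem (add_mem hone hy) h3) 2)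
        (mul_mem hy (add_mem (pow_mem h2 2) (mul_mem h2 h3))))
        (mul_mem (ht i1) (add_mem (pow_mem h0 2) (mul_mem hy (pow_mem h3 2)))))
        (mul_mem (ht i2) (add_mem (pow_mem (mul_mem h0 h3) 2) hy))⟩ with hc0d
    have hx1 : IsAlgebraic FW (x 1) := by
      refine ⟨Polynomial.C c2 * Polynomial.X ^ 2 + Polynomial.C c1 * Polynomial.X +
        Polynomial.C c0, ?_, ?_⟩
      · intro h
        have h4 := congrArg (fun P => Polynomial.coeff P 2) h
        simp only [Polynomial.coeff_add, Polynomial.coeff_C_mul, Polynomial.coeff_X_pow,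
          Polynomial.coeff_X, Polynomial.coeff_C, Polynomial.coeff_zero] at h4
        norm_num at h4
        exact hc2 (congrArg Subtype.val h4)
      · rw [map_add, map_add, map_mul, map_mul, map_pow, Polynomial.aeval_X, Polynomial.aeval_C,
          Polynomial.aeval_C, Polynomial.aeval_C]
        show (1 + t i2 * x 2 ^ 2) * x 1 ^ 2 + ((1 + y) * x 3 + (1 + y) * x 3 -
          (t i2 * (x 0 * x 3) * x 2 + t i2 * (x 0 * x 3) * x 2)) * x 1 +
          ((((1 + y) * x 3) ^ 2 + y * (x 2 ^ 2 + x 2 * x 3)) +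
          t i1 * (x 0 ^ 2 + y * x 3 ^ 2) + t i2 * ((x 0 * x 3) ^ 2 + y)) = 0
        rw [← hrel]
        unfold rel
        ring
    have hle : FV ≤ FW ⊔ IntermediateField.adjoin Ω {x 1} := by
      rw [hFV, IntermediateField.adjoin_le_iff]
      have hl : FW ≤ FW ⊔ IntermediateField.adjoin Ω {x 1} := le_sup_left
      rintro _ ⟨w, rfl⟩
      rcases w with i | j | l
      · by_cases hi : i = i1
        · have h4 : V (Sum.inl i) = y := if_pos hi
          rw [h4]
          exact hl hy
        · have h4 : V (Sum.inl i) = t i := if_neg hi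
          rw [h4]
          exact hl (ht i)
      · by_cases hj : j = 1
        · rw [hj]
          exact (le_sup_right : IntermediateField.adjoin Ω {x 1} ≤ _)
            (IntermediateField.mem_adjoin_simple_self Ω (x 1))
        · exact hl (hx j hj)
      · exact hl (hR l)
    have hWi : AlgebraicIndependent Ω W := by
      refine Pool.Agent.X328.FD.indep_count (y := V) (fun z => ?_) hVi le_rfl
      refine Pool.Agent.X328.FD.alg_trans le_sup_left (Pool.Agent.X328.FD.alg_sup ?_)
        (Pool.Agent.X328.FD.alg_mono hle (Algebra.IsAlgebraic.isAlgebraic z))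
      intro z hz
      rw [Set.mem_singleton_iff] at hz
      rw [hz]
      exact hx1
    exact hWi.comp Sum.inl Sum.inl_injective
  · intro u v huv
    have hpm : ∀ P : MvPolynomial (Sg s 4 μ) Ω, aeval V P ∈ FV := by
      intro P
      rw [aeval_def, eval₂_eq]
      exact sum_mem fun α _ => mul_mem (FV.algebraMap_mem _)
        (prod_mem fun i _ => pow_mem (hVm i) _)
    set ψ : MvPolynomial (Sg s 4 μ) Ω →ₐ[Ω] κ := aeval V with hψ
    have hadj : IntermediateField.adjoin Ω (Set.range ψ) = FV := by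
      apply le_antisymm
      · rw [IntermediateField.adjoin_le_iff]
        rintro _ ⟨P, rfl⟩
        exact hpm P
      · rw [hFV, IntermediateField.adjoin_le_iff]
        rintro _ ⟨i, rfl⟩
        have h1 : V i = ψ (X i) := (aeval_X _ _).symm
        rw [h1]
        exact IntermediateField.subset_adjoin _ _ ⟨X i, rfl⟩
    set aP : Fin s → MvPolynomial (Sg s 4 μ) Ω := sl i1 (-(AP i1 * BP i1 i2)) with haP
    have hψa : ∀ i, ψ (aP i) = t i * (if i = i1 then a ^ 2 else 1) := by
      intro i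
      by_cases hii : i = i1
      · have h1 : aP i = -(AP i1 * BP i1 i2) := if_pos hii
        rw [h1, if_pos hii, map_neg, map_mul, hψ, hV, ANRAux.aeval_AP, ANRAux.aeval_BP h12, hii, ← ha, ← hb]
        linear_combination (-a) * hr
      · have h1 : aP i = X (Sum.inl i) := if_neg hii
        rw [h1, if_neg hii, hψ, aeval_X, mul_one]
        exact if_neg hii
    have hψp : ∀ S : Finset (Fin s), ψ (∏ i ∈ S, aP i) =
        (∏ i ∈ S, t i) * (if i1 ∈ S then a ^ 2 else 1) := by
      intro S
      rw [map_prod, Finset.prod_congr rfl fun i _ => hψa i, Finset.prod_mul_distrib]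
      congr 1
      rw [Finset.prod_ite_eq']
    let cP : Bool × Finset (Fin s) → MvPolynomial (Sg s 4 μ) Ω := fun p =>
      (if p.1 = true then X (Sum.inl i1) else 1) * ∏ i ∈ p.2, aP i
    let z : Bool × Finset (Fin s) → κ := fun p =>
      (if p.1 = true then v p.2 else u p.2) / (if i1 ∈ p.2 then a else 1)
    have hterm : ∀ p, ψ (cP p) * z p ^ 2 = (if p.1 = true then y else 1) *
        ((∏ i ∈ p.2, t i) * (if p.1 = true then v p.2 else u p.2) ^ 2) := by
      rintro ⟨b, S⟩
      have h1 : ψ (cP (b, S)) = (if b = true then y else 1) *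
          ((∏ i ∈ S, t i) * (if i1 ∈ S then a ^ 2 else 1)) := by
        show ψ ((if b = true then X (Sum.inl i1) else 1) * ∏ i ∈ S, aP i) = _
        rw [map_mul, hψp]
        congr 1
        split_ifs
        · rw [hψ, aeval_X]
          exact if_pos rfl
        · rw [map_one]
      rw [h1]
      show _ * ((if b = true then v S else u S) / (if i1 ∈ S then a else 1)) ^ 2 =
        (if b = true then y else 1) * ((∏ i ∈ S, t i) * (if b = true then v S else u S) ^ 2)
      by_cases hS : i1 ∈ S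
      · rw [if_pos hS, if_pos hS]
        field_simp
      · rw [if_neg hS, if_neg hS]
        ring
    by_contra hcon
    have hz : z ≠ 0 := by
      intro hz
      apply hcon
      constructor
      · funext S
        have h1 := congrFun hz (false, S)
        have h2 : (u S) / (if i1 ∈ S then a else 1) = 0 := h1
        rcases div_eq_zero_iff.1 h2 with h3 | h3
        · exact h3
        · split_ifs at h3
          · exact absurd h3 hA
          · exact absurd h3 one_ne_zero
      · funext S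
        have h1 := congrFun hz (true, S)
        have h2 : (v S) / (if i1 ∈ S then a else 1) = 0 := h1
        rcases div_eq_zero_iff.1 h2 with h3 | h3
        · exact h3
        · split_ifs at h3
          · exact absurd h3 hA
          · exact absurd h3 one_ne_zero
    obtain ⟨r, ⟨p0, hp0⟩, hr2⟩ := odd_diag ψ (by rw [hadj]; exact hodd) cP z hz (by
      rw [Finset.sum_congr rfl fun p _ => hterm p, Fintype.sum_prod_type, Fintype.sum_bool]
      simp only [if_true, Bool.false_eq_true, if_false, one_mul]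
      rw [← Finset.mul_sum]
      unfold pf at huv
      linear_combination huv)
    have h4 := (algebraicIndependent_iff.1 hVi) _ hr2
    have h5 := ANRAux.pp_all (μ := μ) (k := Ω) i1 i2 h12 ∅ r (fun p hp => ?_) ?_
    · rw [h5, Pi.zero_apply, map_zero] at hp0
      exact hp0 rfl
    · exfalso
      apply hp
      show p.2 \ Finset.univ = ∅
      rw [Finset.sdiff_eq_empty_iff_subset]
      exact Finset.subset_univ _
    · simp only [Finset.inter_univ]
      exact h4

end

end Pool.Agent.H901.GM
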