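import Pool.Agent.H901.GM.Sys
import Pool.Graph.R_pool_sql_team_seeded_1e53cb71.Helper93K9.PAR.Base

/-! # Independent complex numbers -/

set_option autoImplicit false
set_option linter.unusedSectionVars false
set_option linter.unusedVariables false

namespace Pool.Agent.H901.GM

open MvPolynomial Module FF

noncomputable section

open scoped IntermediateField.algebraAdjoinAdjoin in
theorem bas : S_BAS := by
  classical
  intro J _ j0 v v0 hind
  set c : ℂ := v j0 - algebraMap ℚ ℂ (v0 j0) with hc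
  obtain ⟨g, hg⟩ : ∃ g : J → ℂ,
    g = fun p => if p = j0 then c else (v p - algebraMap ℚ ℂ (v0 p)) / c :=
    ⟨_, rfl⟩
  have hg0 : g j0 = c := by rw [hg]; exact if_pos rfl
  have hgs : ∀ p : J, p ≠ j0 → g p = (v p - algebraMap ℚ ℂ (v0 p)) / c := by
    intro β hβ
    rw [hg]
    exact if_neg hβ
  have hc0 : c ≠ 0 := by
    intro h
    have h1 : v j0 = algebraMap ℚ ℂ (v0 j0) := by
      rw [hc, sub_eq_zero] at h
      exact h
    refine hind.transcendental j0 ?_
    rw [h1]
    exact isAlgebraic_algebraMap _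
  have hgi : AlgebraicIndependent ℚ g := by
    refine Pool.Agent.Helper93K9.PAR.indep_div _ g v0 j0 hind ?_ ?_
    · rw [hg0, hc]
      show v j0 = ((v0 j0 : ℚ) : ℂ) + (v j0 - algebraMap ℚ ℂ (v0 j0))
      rw [eq_ratCast]
      ring
    · intro p hp
      rw [hg0, hgs p hp, mul_div_cancel₀ _ hc0, eq_ratCast]
      ring
  obtain ⟨B, hgB, hB⟩ := exists_isTranscendenceBasis_superset (R := ℚ) (s := Set.range g)
    hgi.coe_range
  have hcB : c ∈ B := hgB ⟨_, hg0⟩
  set B' : Set ℂ := B \ {c} with hB'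
  set K0 := IntermediateField.adjoin ℚ B' with hK0
  have hB'K : B' ⊆ K0 := IntermediateField.subset_adjoin ℚ B'
  obtain ⟨Ω, hΩ⟩ : ∃ Ω : IntermediateField ℚ ℂ, Ω = (algebraicClosure K0 ℂ).restrictScalars ℚ :=
    ⟨_, rfl⟩
  have hcK0 : Transcendental K0 c := by
    have h1 := hB.1.transcendental_adjoin (s := {b : B | b.1 ≠ c}) (i := ⟨c, hcB⟩) (by simp)
    have h2 : ((↑) : B → ℂ) '' {b : B | b.1 ≠ c} = B' := by
      ext z
      simp only [Set.mem_image, Set.mem_ofPred_eq, Subtype.exists, exists_and_right,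
        exists_eq_right, hB', Set.mem_sdiff, Set.mem_singleton_iff]
      constructor
      · rintro ⟨h1, h2⟩
        exact ⟨h1, h2⟩
      · rintro ⟨h1, h2⟩
        exact ⟨h1, h2⟩
    rw [h2] at h1
    intro h3
    exact h1 ((IsFractionRing.isAlgebraic_iff (Algebra.adjoin ℚ B') K0 ℂ).2 h3)
  have hcΩ : Transcendental Ω c := by
    rw [hΩ]
    exact hcK0.algebraicClosure
  have hΩc : IsAlgClosed Ω := by
    rw [hΩ]
    exact (algebraicClosure.isAlgClosure (F := K0) (E := ℂ)).isAlgClosed
  have hB'Ω : B' ⊆ Ω := by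
    intro z hz
    rw [hΩ]
    show z ∈ algebraicClosure K0 ℂ
    exact (algebraicClosure K0 ℂ).algebraMap_mem ⟨z, hB'K hz⟩
  have hw : ∀ j, ∃ w : Ω, v j = algebraMap ℚ ℂ (v0 j) + c * algebraMap Ω ℂ w := by
    intro j
    by_cases hj : j = j0
    · refine ⟨1, ?_⟩
      rw [map_one, hj, hc]
      ring
    · have h5 : g j ∈ B' := by
        refine ⟨hgB ⟨_, rfl⟩, ?_⟩
        intro h
        have h6 : g j = g j0 := by rw [hg0]; exact h
        exact hj (hgi.injective h6)
      refine ⟨⟨g j, hB'Ω h5⟩, ?_⟩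
      show v j = algebraMap ℚ ℂ (v0 j) + c * g j
      rw [hgs j hj, mul_div_cancel₀ _ hc0]
      ring
  choose w hw using hw
  refine ⟨Ω, c, w, hΩc, hcΩ, ?_, hw⟩
  have h1 := hB.isAlgebraic_field
  have hle : IntermediateField.adjoin ℚ (Set.range ((↑) : B → ℂ)) ≤
      (IntermediateField.adjoin Ω {c}).restrictScalars ℚ := by
    rw [IntermediateField.adjoin_le_iff]
    rintro _ ⟨b, rfl⟩
    by_cases hb : b.1 = c
    · rw [hb]
      exact IntermediateField.mem_adjoin_simple_self Ω c
    · exact (IntermediateField.adjoin Ω {c}).algebraMap_mem ⟨b.1, hB'Ω ⟨b.2, hb⟩⟩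
  let L := IntermediateField.adjoin ℚ (Set.range ((↑) : B → ℂ))
  let _ : Algebra L (IntermediateField.adjoin Ω {c}) :=
    ((IntermediateField.inclusion hle).toRingHom : L →+*
      (IntermediateField.adjoin Ω {c}).restrictScalars ℚ).toAlgebra
  have : IsScalarTower L (IntermediateField.adjoin Ω {c}) ℂ :=
    IsScalarTower.of_algebraMap_eq fun x => rfl
  exact Algebra.IsAlgebraic.tower_top (K := L) (IntermediateField.adjoin Ω {c})

/-- the tower -/
theorem bat_alg (k0 : IntermediateField ℚ ℂ) {B V : Set ℂ} (hB : B \ V ⊆ k0)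
    (h : ∀ z : ℂ, IsAlgebraic (IntermediateField.adjoin ℚ B) z) :
    Algebra.IsAlgebraic (IntermediateField.adjoin k0 V) ℂ := by
  classical
  have hle : IntermediateField.adjoin ℚ B ≤
      (IntermediateField.adjoin k0 V).restrictScalars ℚ := by
    rw [IntermediateField.adjoin_le_iff]
    intro b hb
    rw [SetLike.mem_coe, IntermediateField.mem_restrictScalars]
    by_cases hbV : b ∈ V
    · exact IntermediateField.subset_adjoin k0 V hbV
    · exact (IntermediateField.adjoin k0 V).algebraMap_mem ⟨b, hB ⟨hb, hbV⟩⟩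
  refine ⟨fun z => ?_⟩
  exact Pool.Agent.X328.FD.alg_mono hle (h z)

theorem bat : S_BAT := by
  classical
  intro J _ v hind
  obtain ⟨B, hgB, hB⟩ := exists_isTranscendenceBasis_superset (R := ℚ) (s := Set.range v)
    hind.coe_range
  obtain ⟨B', hB'⟩ : ∃ B' : Set ℂ, B' = B \ Set.range v := ⟨_, rfl⟩
  refine ⟨IntermediateField.adjoin ℚ B', ?_, ?_⟩
  · have h1 : AlgebraicIndependent ℚ (Sum.elim v ((↑) : B' → ℂ)) := by
      have hinj : Function.Injective (Sum.elim v ((↑) : B' → ℂ)) := by
        rintro (a | a) (b | b) hab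
        · exact congrArg Sum.inl (hind.injective hab)
        · exfalso
          have h2 : v a = b.1 := hab
          have h3 : (b : ℂ) ∈ B \ Set.range v := hB' ▸ b.2
          exact h3.2 ⟨a, h2⟩
        · exfalso
          have h2 : a.1 = v b := hab
          have h3 : (a : ℂ) ∈ B \ Set.range v := hB' ▸ a.2
          exact h3.2 ⟨b, h2.symm⟩
        · exact congrArg Sum.inr (Subtype.ext hab)
      have hran : Set.range (Sum.elim v ((↑) : B' → ℂ)) ⊆ B := by
        rintro _ ⟨a | a, rfl⟩
        · exact hgB ⟨a, rfl⟩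
        · have h3 : (a : ℂ) ∈ B \ Set.range v := hB' ▸ a.2
          exact h3.1
      have h2 : AlgebraicIndependent ℚ ((↑) : Set.range (Sum.elim v ((↑) : B' → ℂ)) → ℂ) :=
        hB.1.mono hran
      exact (algebraicIndependent_subtype_range hinj).1 h2
    have h2 := Pool.Agent.X328.FD.indep_over h1
    rwa [Subtype.range_coe] at h2
  · have h1 := hB.isAlgebraic_field
    rw [Subtype.range_coe] at h1
    refine bat_alg (B := B) _ ?_ fun z => Algebra.IsAlgebraic.isAlgebraic z
    rw [← hB']
    exact IntermediateField.subset_adjoin ℚ B'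

end

end Pool.Agent.H901.GM
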