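import Pool.Agent.H901.GM.Sys

/-! # Gushel–Mukai fourfolds: elementary properties of the definitions -/

set_option autoImplicit false
set_option linter.unusedSectionVars false
set_option linter.unusedVariables false

namespace Pool.Agent.H901.GM

open MvPolynomial FF Module Pool.Agent.H900.PN Pool.Agent.Helper93K9.PAR

noncomputable section

theorem plu_map {A B : Type} [CommRing A] [CommRing B] (f : A →+* B) {z : Fin 10 → A}
    (h : Plu z) : Plu fun i => f (z i) := by
  obtain ⟨h1, h2, h3, h4, h5⟩ := h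
  refine ⟨?_, ?_, ?_, ?_, ?_⟩
  · rw [← f.map_zero, ← h1]; simp only [map_add, map_sub, map_mul]
  · rw [← f.map_zero, ← h2]; simp only [map_add, map_sub, map_mul]
  · rw [← f.map_zero, ← h3]; simp only [map_add, map_sub, map_mul]
  · rw [← f.map_zero, ← h4]; simp only [map_add, map_sub, map_mul]
  · rw [← f.map_zero, ← h5]; simp only [map_add, map_sub, map_mul]

theorem plu_of_inj {A B : Type} [CommRing A] [CommRing B] (f : A →+* B)
    (hf : Function.Injective f) {z : Fin 10 → A} (h : Plu fun i => f (z i)) : Plu z := by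
  obtain ⟨h1, h2, h3, h4, h5⟩ := h
  refine ⟨?_, ?_, ?_, ?_, ?_⟩
  · apply hf; rw [map_zero, ← h1]; simp only [map_add, map_sub, map_mul]
  · apply hf; rw [map_zero, ← h2]; simp only [map_add, map_sub, map_mul]
  · apply hf; rw [map_zero, ← h3]; simp only [map_add, map_sub, map_mul]
  · apply hf; rw [map_zero, ← h4]; simp only [map_add, map_sub, map_mul]
  · apply hf; rw [map_zero, ← h5]; simp only [map_add, map_sub, map_mul]

theorem plu_smul {A : Type} [CommRing A] {z : Fin 10 → A} (h : Plu z) (a : A) :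
    Plu fun i => a * z i := by
  obtain ⟨h1, h2, h3, h4, h5⟩ := h
  refine ⟨?_, ?_, ?_, ?_, ?_⟩
  · linear_combination a ^ 2 * h1
  · linear_combination a ^ 2 * h2
  · linear_combination a ^ 2 * h3
  · linear_combination a ^ 2 * h4
  · linear_combination a ^ 2 * h5

theorem spq_map {A B : Type} [CommRing A] [CommRing B] (f : A →+* B) (t1 t2 : A)
    (z : Fin 10 → A) : f (spq t1 t2 z) = spq (f t1) (f t2) fun i => f (z i) := by
  unfold spq
  simp only [map_add, map_mul, map_pow]

theorem spq_smul {A : Type} [CommRing A] (t1 t2 : A) (z : Fin 10 → A) (a : A) :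
    spq t1 t2 (fun i => a * z i) = a ^ 2 * spq t1 t2 z := by
  unfold spq
  ring

theorem Ph_hom {ι k : Type} [CommRing k] (i1 i2 : ι) (τ : Finset ι) :
    (Ph k i1 i2 τ).IsHomogeneous 2 := by
  classical
  have hX : ∀ a : Fin 10, (X a : MvPolynomial _ k).IsHomogeneous 1 :=
    fun a => isHomogeneous_X k a
  have h2 : ∀ {p : MvPolynomial (Fin 10) k}, p.IsHomogeneous 1 → (p ^ 2).IsHomogeneous 2 :=
    fun hp => by simpa using hp.pow 2
  have h11 : ∀ a b : Fin 10, (X a * X b : MvPolynomial _ k).IsHomogeneous 2 :=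
    fun a b => (hX a).mul (hX b)
  unfold Ph
  refine IsHomogeneous.add (IsHomogeneous.add ?_ ?_) ?_
  · split_ifs
    · exact IsHomogeneous.add (IsHomogeneous.add (h2 (((hX _).add (hX _)).add (hX _))) (h11 _ _))
        (h11 _ _)
    · exact isHomogeneous_zero _ _ _
  · split_ifs
    · exact (h2 (hX _)).add (h11 _ _)
    · exact isHomogeneous_zero _ _ _
  · split_ifs
    · exact (h2 (hX _)).add (h11 _ _)
    · exact isHomogeneous_zero _ _ _

theorem Ph_map {ι k k' : Type} [CommRing k] [CommRing k'] (f : k →+* k')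
    (i1 i2 : ι) (τ : Finset ι) : map f (Ph k i1 i2 τ) = Ph k' i1 i2 τ := by
  classical
  unfold Ph
  rw [map_add, map_add]
  congr 1
  · congr 1
    · split_ifs
      · simp only [map_add, map_mul, map_pow, map_X]
      · rw [map_zero]
    · split_ifs
      · simp only [map_add, map_mul, map_pow, map_X]
      · rw [map_zero]
  · split_ifs
    · simp only [map_add, map_mul, map_pow, map_X]
    · rw [map_zero]

theorem fv_smul2 {ι k A : Type} [CommRing k] [CommRing A] [Algebra k A] {r : ℕ}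
    {T : Finset (Finset ι)} (t : ι → A) {F : Finset ι → MvPolynomial (Fin r) k}
    (hF : ∀ τ ∈ T, (F τ).IsHomogeneous 2) (c : A) (y : Fin r → A) :
    fv T t F (fun i => c * y i) = c ^ 2 * fv T t F y := by
  unfold fv
  rw [Finset.mul_sum]
  refine Finset.sum_congr rfl fun τ hτ => ?_
  rw [hom_smul (hF τ hτ)]
  ring

theorem fv_spq {ι k A : Type} [CommRing k] [CommRing A] [Algebra k A] {i1 i2 : ι}
    (h12 : i1 ≠ i2) {T : Finset (Finset ι)} (hT0 : ∅ ∈ T) (hT1 : {i1} ∈ T) (hT2 : {i2} ∈ T)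
    (t : ι → A) (z : Fin 10 → A) : fv T t (Ph k i1 i2) z = spq (t i1) (t i2) z := by
  classical
  have h1 : ∀ τ : Finset ι, (∏ i ∈ τ, t i) * aeval z (Ph k i1 i2 τ) =
      (if τ = ∅ then (z 9 + z 2 + z 5) ^ 2 + z 1 * z 4 + z 1 * z 5 else 0) +
      (if τ = {i1} then t i1 * (z 8 ^ 2 + z 2 * z 5) else 0) +
      (if τ = {i2} then t i2 * (z 7 ^ 2 + z 3 * z 6) else 0) := by
    intro τ
    unfold Ph
    rw [map_add, map_add, mul_add, mul_add]
    congr 1
    · congr 1
      · split_ifs with h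
        · rw [h, Finset.prod_empty, one_mul]
          simp only [map_add, map_mul, map_pow, aeval_X]
        · rw [map_zero, mul_zero]
      · split_ifs with h
        · rw [h, Finset.prod_singleton]
          simp only [map_add, map_mul, map_pow, aeval_X]
        · rw [map_zero, mul_zero]
    · split_ifs with h
      · rw [h, Finset.prod_singleton]
        simp only [map_add, map_mul, map_pow, aeval_X]
      · rw [map_zero, mul_zero]
  unfold fv
  rw [Finset.sum_congr rfl fun τ _ => h1 τ, Finset.sum_add_distrib, Finset.sum_add_distrib,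
    Finset.sum_ite_eq' T, Finset.sum_ite_eq' T, Finset.sum_ite_eq' T, if_pos hT0, if_pos hT1,
    if_pos hT2]
  rfl

theorem sol_smul {ι k A : Type} [CommRing k] [CommRing A] [Algebra k A] {i1 i2 : ι}
    {T : Finset (Finset ι)} {t : ι → A} {H : MvPolynomial (Fin 10) k}
    {G : Finset ι → MvPolynomial (Fin 10) k} (hH : H.IsHomogeneous 1)
    (hG : ∀ τ ∈ T, (G τ).IsHomogeneous 2) {c : A} {z : Fin 10 → A}
    (h : Sol i1 i2 T t H G c z) (a : A) : Sol i1 i2 T t H G c fun i => a * z i := by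
  obtain ⟨h1, h2, h3⟩ := h
  refine ⟨plu_smul h1 a, ?_, ?_⟩
  · rw [hom_smul hH]
    linear_combination a * h2
  · rw [fv_smul2 t (fun τ _ => Ph_hom i1 i2 τ), fv_smul2 t hG]
    linear_combination a ^ 2 * h3

theorem cl_smul {ι κ : Type} [Fintype ι] [Field κ] {t : ι → κ} {a : κ} (ha : a ≠ 0)
    (z : Fin 10 → κ) : Cl t (fun i => a * z i) ↔ Cl t z := by
  have h : ∀ p q : Fin 10, Vl t (a * z p * (a * z q)) ↔ Vl t (z p * z q) := by
    intro p q
    have e1 : a * z p * (a * z q) = z p * z q * a ^ 2 := by ring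
    rw [e1]
    exact vl_mul_iff (vl_square _) (pow_ne_zero 2 ha)
  unfold Cl
  rw [h, h, h]

section trz

variable {Ω E ι : Type} [Field Ω] [Field E] [Algebra Ω E] [Fintype ι] (w : Place Ω E)
  {t : ι → E} {ϖ : E}

theorem trz_smul (h0 : ϖ ≠ 0) (h1 : w.ord ϖ = 1) {p : Fin 10 → E} {m : ℤ} (h : Nrm w p m)
    {a : E} (ha : a ≠ 0) : Trz w ϖ t (fun i => a * p i) (m + w.ord a) ↔ Trz w ϖ t p m := by
  have hu : a * ϖ ^ (-w.ord a) ≠ 0 := mul_ne_zero ha (zpow_ne_zero _ h0)
  have hu1 : w.ord (a * ϖ ^ (-w.ord a)) = 0 := by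
    rw [w.ord_mul ha (zpow_ne_zero _ h0), w.ord_zpow, h1]
    ring
  have hur : w.Reg (a * ϖ ^ (-w.ord a)) := Or.inr hu1.ge
  have hε : w.red (a * ϖ ^ (-w.ord a)) ≠ 0 := w.red_ne_zero hu hu1
  have key : ∀ i, w.red (a * p i * ϖ ^ (-(m + w.ord a))) =
      w.red (a * ϖ ^ (-w.ord a)) * w.red (p i * ϖ ^ (-m)) := by
    intro i
    rw [← w.red_mul hur (reg_lv w h0 h1 (h.1 i))]
    congr 1
    rw [neg_add, zpow_add₀ h0]
    ring
  unfold Trz
  rw [funext key]
  exact cl_smul hε _

theorem reg_quot {x u v : E} (hu : w.Reg u) (hv : w.Reg v) (hru : w.red u ≠ 0)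
    (h : x * u = v) : w.Reg x ∧ w.red x * w.red u = w.red v := by
  have hu0 : u ≠ 0 := by
    rintro rfl
    exact hru w.red_zero
  have hu1 : w.ord u = 0 := by
    by_contra h1
    apply hru
    rw [w.red_eq_zero_iff hu]
    have := (w.reg_iff hu0).1 hu
    right
    omega
  have hx : w.Reg x := by
    by_cases hx0 : x = 0
    · exact Or.inl hx0
    · right
      have hv0 : v ≠ 0 := by
        rw [← h]
        exact mul_ne_zero hx0 hu0
      have h1 := w.ord_mul hx0 hu0
      rw [h, hu1, add_zero] at h1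
      rw [← h1]
      exact (w.reg_iff hv0).1 hv
  refine ⟨hx, ?_⟩
  rw [← w.red_mul hx hu, h]

theorem red_plu {z : Fin 10 → E} (hz : ∀ i, w.Reg (z i)) (h : Plu z) :
    Plu fun i => w.red (z i) := by
  have h1 : Plu (fun i => (⟨z i, hz i⟩ : w.O)) := by
    apply plu_of_inj (SubringClass.subtype w.O) Subtype.val_injective
    exact h
  have h2 := plu_map w.resHom h1
  have h3 : (fun i => w.red (z i)) = fun i => w.resHom (⟨z i, hz i⟩ : w.O) := by
    funext i
    exact w.red_of_reg (hz i)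
  rw [h3]
  exact h2

theorem red_sol {i1 i2 : ι} (h12 : i1 ≠ i2) {T : Finset (Finset ι)} (hT0 : ∅ ∈ T)
    (hT1 : {i1} ∈ T) (hT2 : {i2} ∈ T) (ht : ∀ i, w.Reg (t i)) {H : MvPolynomial (Fin 10) Ω}
    {G : Finset ι → MvPolynomial (Fin 10) Ω} {c : E} (hcr : w.Reg c) (hc0 : w.red c = 0)
    {z : Fin 10 → E} (hz : ∀ i, w.Reg (z i)) (h : Sol i1 i2 T t H G c z) :
    SP (w.red (t i1)) (w.red (t i2)) fun i => w.red (z i) := by
  obtain ⟨h1, h2, h3⟩ := h
  refine ⟨red_plu w hz h1, ?_, ?_⟩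
  · obtain ⟨e1, -⟩ := LwL.red_aeval w z H hz
    have e2 := w.red_add (hz 0) (w.reg_mul hcr e1)
    rw [h2, w.red_zero, w.red_mul hcr e1, hc0, zero_mul, add_zero] at e2
    exact e2.symm
  · obtain ⟨e2, e3⟩ := red_fv w T ht (Ph Ω i1 i2) hz
    obtain ⟨e4, e5⟩ := red_fv w T ht G hz
    have e6 := w.red_add e2 (w.reg_mul hcr e4)
    rw [h3, w.red_zero, w.red_mul hcr e4, hc0, zero_mul, add_zero, e3,
      fv_spq h12 hT0 hT1 hT2] at e6
    exact e6.symm

end trz

/-- the chart `z25 = 1` of the special fourfold -/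
theorem rel_of_SP {A : Type} [CommRing A] {t1 t2 : A} {z : Fin 10 → A} (h : SP t1 t2 z)
    (h6 : z 6 = 1) : rel t1 t2 (z 3) ![z 8, z 9, z 4, z 5] = 0 := by
  obtain ⟨⟨h1, h2, h3, h4, h5⟩, h0, hq⟩ := h
  rw [h0, h6] at h2 h3
  rw [h6] at h5
  have e1 : z 1 = z 3 * z 4 := by linear_combination -h2
  have e2 : z 2 = z 3 * z 5 := by linear_combination -h3
  have e7 : z 7 = z 5 * z 8 - z 4 * z 9 := by linear_combination h5
  rw [← hq]
  unfold rel spq
  simp only [Matrix.cons_val_zero, Matrix.cons_val_one, Matrix.cons_val]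
  rw [e1, e2, e7, h6]
  ring

/-- the value of a linear form -/
theorem lin_ev {k A : Type} [Field k] [CommRing A] [Algebra k A] {r : ℕ}
    {l : MvPolynomial (Fin r) k} (hl : l.IsHomogeneous 1) :
    ∃ c : Fin r → k, ∀ y : Fin r → A, aeval y l = ∑ i, algebraMap k A (c i) * y i := by
  have h1 : l ∈ homogeneousSubmodule (Fin r) k 1 := (mem_homogeneousSubmodule 1 l).2 hl
  rw [homogeneousSubmodule_one_eq_span_X, Submodule.mem_span_range_iff_exists_fun] at h1
  obtain ⟨c, hc⟩ := h1
  refine ⟨c, fun y => ?_⟩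
  rw [← hc, map_sum]
  refine Finset.sum_congr rfl fun i _ => ?_
  rw [map_smul, aeval_X, Algebra.smul_def]

section split

variable {ι k A : Type} [DecidableEq ι] [CommRing k] [CommRing A] [Algebra k A] {r : ℕ}

/-- the part of the family without `i1` -/
def fvB (T : Finset (Finset ι)) (i1 : ι) (t : ι → A) (F : Finset ι → MvPolynomial (Fin r) k)
    (y : Fin r → A) : A :=
  ∑ τ ∈ T.filter fun τ => i1 ∉ τ, (∏ i ∈ τ, t i) * aeval y (F τ)

/-- the derivative of the family in the direction `i1` -/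
def fvA (T : Finset (Finset ι)) (i1 : ι) (t : ι → A) (F : Finset ι → MvPolynomial (Fin r) k)
    (y : Fin r → A) : A :=
  ∑ τ ∈ T.filter fun τ => i1 ∈ τ, (∏ i ∈ τ.erase i1, t i) * aeval y (F τ)

theorem fv_split (T : Finset (Finset ι)) (i1 : ι) (t : ι → A)
    (F : Finset ι → MvPolynomial (Fin r) k) (y : Fin r → A) :
    fv T t F y = fvB T i1 t F y + t i1 * fvA T i1 t F y := by
  unfold fv fvB fvA
  rw [← Finset.sum_filter_add_sum_filter_not T fun τ => i1 ∈ τ, add_comm, Finset.mul_sum]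
  congr 1
  refine Finset.sum_congr rfl fun τ hτ => ?_
  rw [← Finset.mul_prod_erase _ _ (Finset.mem_filter.1 hτ).2]
  ring

end split

end

end Pool.Agent.H901.GM
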