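import Pool.Agent.H901.GM.Sys
import Pool.Agent.H900.PN.Cv

/-! # The class is constant along rational curves on the special fourfold (helper997) -/

set_option autoImplicit false
set_option linter.all false

namespace Pool.Agent.H901.GM

open Pool.Agent.H900.PN

namespace CRVAux

noncomputable section

/-- the ternary subform -/
def R3 {A : Type} [CommRing A] (τ1 τ2 : A) (v : Fin 3 → A) : A :=
  v 0 ^ 2 + τ1 * v 1 ^ 2 + τ2 * v 2 ^ 2

theorem R3_smul {A : Type} [CommRing A] (τ1 τ2 c : A) (v : Fin 3 → A) :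
    R3 τ1 τ2 (fun q => c * v q) = c ^ 2 * R3 τ1 τ2 v := by
  unfold R3
  ring

theorem R3_map {A B : Type} [CommRing A] [CommRing B] (f : A →+* B) (τ1 τ2 : A) (v : Fin 3 → A) :
    f (R3 τ1 τ2 v) = R3 (f τ1) (f τ2) (fun q => f (v q)) := by
  unfold R3
  simp only [map_add, map_mul, map_pow]

open Classical in
theorem pf3 {ι A : Type} [Fintype ι] [CommRing A] (t : ι → A) {i1 i2 : ι} (h : i1 ≠ i2)
    (v : Fin 3 → A) :
    pf t (fun S => if S = ∅ then v 0 else if S = {i1} then v 1 else if S = {i2} then v 2 else 0) =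
      R3 (t i1) (t i2) v := by
  have n1 : ({i1} : Finset ι) ≠ ∅ := Finset.singleton_ne_empty _
  have n2 : ({i2} : Finset ι) ≠ ∅ := Finset.singleton_ne_empty _
  have n3 : ({i2} : Finset ι) ≠ {i1} := fun hh => h (Finset.singleton_injective hh).symm
  have e : ∀ S : Finset ι, (∏ i ∈ S, t i) * (if S = ∅ then v 0 else if S = {i1} then v 1 else
      if S = {i2} then v 2 else 0) ^ 2 =
      (if S = ∅ then v 0 ^ 2 else 0) + (if S = {i1} then t i1 * v 1 ^ 2 else 0) +
        (if S = {i2} then t i2 * v 2 ^ 2 else 0) := by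
    intro S
    by_cases h0 : S = ∅
    · subst h0
      rw [if_pos rfl, if_pos rfl, if_neg n1.symm, if_neg n2.symm, Finset.prod_empty]
      ring
    · by_cases h1 : S = {i1}
      · subst h1
        rw [if_neg h0, if_pos rfl, if_neg h0, if_pos rfl, if_neg n3.symm, Finset.prod_singleton]
        ring
      · by_cases h2 : S = {i2}
        · subst h2
          rw [if_neg h0, if_neg h1, if_pos rfl, if_neg h0, if_neg h1, if_pos rfl,
            Finset.prod_singleton]
          ring
        · rw [if_neg h0, if_neg h1, if_neg h2, if_neg h0, if_neg h1, if_neg h2]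
          ring
  unfold pf
  rw [Finset.sum_congr rfl (fun S _ => e S), Finset.sum_add_distrib, Finset.sum_add_distrib,
    Finset.sum_ite_eq' Finset.univ (∅ : Finset ι) (fun _ => v 0 ^ 2),
    Finset.sum_ite_eq' Finset.univ ({i1} : Finset ι) (fun _ => t i1 * v 1 ^ 2),
    Finset.sum_ite_eq' Finset.univ ({i2} : Finset ι) (fun _ => t i2 * v 2 ^ 2),
    if_pos (Finset.mem_univ _), if_pos (Finset.mem_univ _), if_pos (Finset.mem_univ _)]
  rfl

theorem vl_R3 {ι A : Type} [Fintype ι] [CommRing A] (t : ι → A) {i1 i2 : ι} (h : i1 ≠ i2)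
    (v : Fin 3 → A) : Vl t (R3 (t i1) (t i2) v) := ⟨_, (pf3 t h v).symm⟩

theorem ani_R3 {ι A : Type} [Fintype ι] [CommRing A] {t : ι → A} (hA : Ani t) {i1 i2 : ι}
    (h : i1 ≠ i2) {v : Fin 3 → A} (hv : R3 (t i1) (t i2) v = 0) : v = 0 := by
  classical
  rw [← pf3 t h v] at hv
  have h1 := hA _ hv
  have n1 : ({i1} : Finset ι) ≠ ∅ := Finset.singleton_ne_empty _
  have n2 : ({i2} : Finset ι) ≠ ∅ := Finset.singleton_ne_empty _
  have n3 : ({i2} : Finset ι) ≠ {i1} := fun hh => h (Finset.singleton_injective hh).symm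
  have a0 := congrFun h1 ∅
  have a1 := congrFun h1 {i1}
  have a2 := congrFun h1 {i2}
  simp only [if_true, Pi.zero_apply] at a0
  simp only [if_neg n1, if_true, Pi.zero_apply] at a1
  simp only [if_neg n2, if_neg n3, if_true, Pi.zero_apply] at a2
  funext q
  fin_cases q
  · exact a0
  · exact a1
  · exact a2

section loc

variable {R k : Type} [CommRing R] [IsDomain R] [WfDvdMonoid R] [Field k] {red : R →+* k} {π : R}
variable {ι : Type} [Fintype ι] {t : ι → R}

/-- the order of the sum -/
theorem sum_ord (hker : ∀ y, red y = 0 ↔ π ∣ y) {l u : R} {i j : ℕ} (hl : red l ≠ 0)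
    (hu : red u ≠ 0) (hij : i ≠ j) :
    ∃ (n : ℕ) (c : R), π ^ i * l + π ^ j * u = π ^ n * c ∧ red c ≠ 0 ∧ 2 * n < i + j := by
  have hπr : red π = 0 := (hker π).2 dvd_rfl
  rcases lt_or_gt_of_ne hij with h | h
  · obtain ⟨d, rfl⟩ := Nat.exists_eq_add_of_lt h
    refine ⟨i, l + π * (π ^ d * u), by ring, ?_, by omega⟩
    rw [map_add, map_mul, hπr, zero_mul, add_zero]
    exact hl
  · obtain ⟨d, rfl⟩ := Nat.exists_eq_add_of_lt h
    refine ⟨j, u + π * (π ^ d * l), by ring, ?_, by omega⟩
    rw [map_add, map_mul, hπr, zero_mul, add_zero]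
    exact hu

/-- **the local lemma** -/
theorem local_lemma (hπ0 : π ≠ 0) (hker : ∀ y, red y = 0 ↔ π ∣ y)
    (hA : Ani fun i => red (t i)) {e : k} (he : e ^ 2 = -1) {i1 i2 : ι} (h12 : i1 ≠ i2)
    {lam mu l u : R} {i j : ℕ} (h0 : lam = π ^ i * l) (hl : red l ≠ 0) (h1 : mu = π ^ j * u)
    (hu : red u ≠ 0) (hij : i ≠ j) {w m : Fin 3 → R} (hw : (fun q => red (w q)) ≠ 0)
    (hwm : w 0 * m 0 + w 1 * m 1 + w 2 * m 2 = (lam + mu) * (w 0 * w 1))
    (hR : R3 (t i1) (t i2) m + lam * mu * (R3 (t i1) (t i2) w + w 0 * w 1) = 0) :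
    Even (i + j) ∧ Vl (fun i => red (t i)) (red l * red u) := by
  have hne : ∀ z : R, red z ≠ 0 → z ≠ 0 := by
    rintro z hz rfl
    exact hz (map_zero _)
  have hπr : red π = 0 := (hker π).2 dvd_rfl
  have hlam : lam ≠ 0 := by
    rw [h0]
    exact mul_ne_zero (pow_ne_zero _ hπ0) (hne _ hl)
  have hmu : mu ≠ 0 := by
    rw [h1]
    exact mul_ne_zero (pow_ne_zero _ hπ0) (hne _ hu)
  obtain ⟨n, c, hn, hc, hn2⟩ := sum_ord hker hl hu hij
  rw [← h0, ← h1] at hn
  have hRw : R3 (red (t i1)) (red (t i2)) (fun q => red (w q)) ≠ 0 := fun h =>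
    hw (ani_R3 (t := fun i => red (t i)) hA h12 h)
  have hS : red (w 0 * w 1) = 0 → red (R3 (t i1) (t i2) w + w 0 * w 1) =
      R3 (red (t i1)) (red (t i2)) (fun q => red (w q)) := by
    intro h
    rw [map_add, h, add_zero, R3_map]
  have hm0 : m ≠ 0 := by
    rintro rfl
    have e1 : (lam + mu) * (w 0 * w 1) = 0 := by
      rw [← hwm]
      simp
    have e2 : w 0 * w 1 = 0 := by
      refine (mul_eq_zero.1 e1).resolve_left ?_
      rw [hn]
      exact mul_ne_zero (pow_ne_zero _ hπ0) (hne _ hc)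
    have e3 : R3 (t i1) (t i2) (0 : Fin 3 → R) = 0 := by
      unfold R3
      simp
    rw [e3, zero_add] at hR
    have e4 := (mul_eq_zero.1 hR).resolve_left (mul_ne_zero hlam hmu)
    have e5 := hS (by rw [e2, map_zero])
    rw [e4, map_zero] at e5
    exact hRw e5.symm
  obtain ⟨a, m', hm', hm'0⟩ := vdiv hπ0 hker m hm0
  have hRm : R3 (red (t i1)) (red (t i2)) (fun q => red (m' q)) ≠ 0 := fun h =>
    hm'0 (ani_R3 (t := fun i => red (t i)) hA h12 h)
  have hRm' : red (-R3 (t i1) (t i2) m') ≠ 0 := by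
    rw [map_neg, R3_map]
    exact neg_ne_zero.2 hRm
  have e1 : π ^ (2 * a) * (-R3 (t i1) (t i2) m') =
      π ^ (i + j) * (l * u * (R3 (t i1) (t i2) w + w 0 * w 1)) := by
    have e2 : R3 (t i1) (t i2) m = (π ^ a) ^ 2 * R3 (t i1) (t i2) m' := by
      rw [← R3_smul, ← funext hm']
    rw [e2, h0, h1] at hR
    linear_combination (-1 : R) * hR
  have e2 : i + j ≤ 2 * a := exp_le hπ0 hker e1 hRm'
  have hna : n < a := by omega
  obtain ⟨d, rfl⟩ := Nat.exists_eq_add_of_lt hna
  have e3 : π ^ n * (c * (w 0 * w 1)) =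
      π ^ n * (π * (π ^ d * (w 0 * m' 0 + w 1 * m' 1 + w 2 * m' 2))) := by
    rw [hn, hm' 0, hm' 1, hm' 2] at hwm
    linear_combination (-1 : R) * hwm
  have e4 := mul_left_cancel₀ (pow_ne_zero _ hπ0) e3
  have e5 : red (w 0 * w 1) = 0 := by
    have := congrArg red e4
    rw [map_mul, map_mul red π, hπr, zero_mul] at this
    exact (mul_eq_zero.1 this).resolve_left hc
  have e6 := hS e5
  obtain ⟨e7, e8⟩ := exp_uniq hπ0 hker e1 hRm' (by
    rw [map_mul, map_mul, e6]
    exact mul_ne_zero (mul_ne_zero hl hu) hRw)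
  refine ⟨⟨n + d + 1, by omega⟩, ?_⟩
  have e9 := congrArg red e8
  rw [map_mul, map_mul, e6, map_neg, R3_map] at e9
  refine vl_of_mul (vl_R3 (fun i => red (t i)) h12 (fun q => red (w q))) hRw ?_
  rw [← e9]
  exact vl_neg he (vl_R3 (fun i => red (t i)) h12 _)

end loc

/-- the first vector -/
def va {A : Type} (z : Fin 10 → A) : Fin 3 → A := ![z 1, z 2, z 3]

/-- the second vector -/
def vb {A : Type} (z : Fin 10 → A) : Fin 3 → A := ![z 4, z 5, z 6]

/-- the third vector -/
def vm {A : Type} [CommRing A] (z : Fin 10 → A) : Fin 3 → A := ![z 9 + z 2 + z 5, -z 8, z 7]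

theorem cl_iff {ι A : Type} [Fintype ι] [CommRing A] (t : ι → A) (z : Fin 10 → A) :
    Cl t z ↔ ∀ q, Vl t (va z q * vb z q) := by
  constructor
  · rintro ⟨h1, h2, h3⟩ q
    fin_cases q
    · exact h1
    · exact h2
    · exact h3
  · intro h
    exact ⟨h 0, h 1, h 2⟩

theorem SP_map {A B : Type} [CommRing A] [CommRing B] (f : A →+* B) {t1 t2 : A} {z : Fin 10 → A}
    (h : SP t1 t2 z) : SP (f t1) (f t2) (fun i => f (z i)) := by
  obtain ⟨⟨p1, p2, p3, p4, p5⟩, h0, h2⟩ := h
  refine ⟨⟨?_, ?_, ?_, ?_, ?_⟩, ?_, ?_⟩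
  · simpa only [map_sub, map_add, map_mul, map_zero] using congrArg f p1
  · simpa only [map_sub, map_add, map_mul, map_zero] using congrArg f p2
  · simpa only [map_sub, map_add, map_mul, map_zero] using congrArg f p3
  · simpa only [map_sub, map_add, map_mul, map_zero] using congrArg f p4
  · simpa only [map_sub, map_add, map_mul, map_zero] using congrArg f p5
  · show f (z 0) = 0
    rw [h0, map_zero]
  · have := congrArg f h2
    unfold spq at this ⊢
    simpa only [map_sub, map_add, map_mul, map_zero, map_pow] using this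

theorem SP_inj {A B : Type} [CommRing A] [CommRing B] (f : A →+* B) (hf : Function.Injective f)
    {t1 t2 : A} {z : Fin 10 → A} (h : SP (f t1) (f t2) (fun i => f (z i))) : SP t1 t2 z := by
  obtain ⟨⟨p1, p2, p3, p4, p5⟩, h0, h2⟩ := h
  refine ⟨⟨?_, ?_, ?_, ?_, ?_⟩, ?_, ?_⟩
  · apply hf
    simpa only [map_sub, map_add, map_mul, map_zero] using p1
  · apply hf
    simpa only [map_sub, map_add, map_mul, map_zero] using p2
  · apply hf
    simpa only [map_sub, map_add, map_mul, map_zero] using p3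
  · apply hf
    simpa only [map_sub, map_add, map_mul, map_zero] using p4
  · apply hf
    simpa only [map_sub, map_add, map_mul, map_zero] using p5
  · apply hf
    rw [map_zero]
    exact h0
  · apply hf
    unfold spq at h2 ⊢
    simpa only [map_sub, map_add, map_mul, map_zero, map_pow] using h2

theorem SP_smul {A : Type} [CommRing A] (c : A) {t1 t2 : A} {z : Fin 10 → A}
    (h : SP t1 t2 z) : SP t1 t2 (fun i => c * z i) := by
  obtain ⟨⟨p1, p2, p3, p4, p5⟩, h0, h2⟩ := h
  refine ⟨⟨?_, ?_, ?_, ?_, ?_⟩, ?_, ?_⟩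
  · linear_combination (c ^ 2) * p1
  · linear_combination (c ^ 2) * p2
  · linear_combination (c ^ 2) * p3
  · linear_combination (c ^ 2) * p4
  · linear_combination (c ^ 2) * p5
  · show c * z 0 = 0
    rw [h0, mul_zero]
  · unfold spq at h2 ⊢
    linear_combination (c ^ 2) * h2

section dec

variable {A : Type} [CommRing A] [IsDomain A] [IsPrincipalIdealRing A]

/-- two proportional vectors -/
theorem dec {a b : Fin 3 → A} (hab : ∀ i j, a i * b j = a j * b i) (ha : a ≠ 0) (hb : b ≠ 0) :
    ∃ (w cc : Fin 3 → A) (lam mu : A), lam ≠ 0 ∧ mu ≠ 0 ∧ (∀ i, a i = lam * w i) ∧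
      (∀ i, b i = mu * w i) ∧ ∑ i, cc i * w i = 1 := by
  obtain ⟨lam, hlam⟩ := (IsPrincipalIdealRing.principal (Ideal.span (Set.range a))).principal
  have h1 : ∀ i, lam ∣ a i := by
    intro i
    have : a i ∈ Ideal.span (Set.range a) := Ideal.subset_span ⟨i, rfl⟩
    rw [hlam] at this
    exact Ideal.mem_span_singleton.1 this
  choose w hw using h1
  have h2 : lam ∈ Ideal.span (Set.range a) := by
    rw [hlam]
    exact Ideal.mem_span_singleton_self lam
  obtain ⟨cc, hcc⟩ := Ideal.mem_span_range_iff_exists_fun.1 h2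
  have hl0 : lam ≠ 0 := by
    rintro rfl
    apply ha
    funext i
    rw [hw i, zero_mul]
    rfl
  have hc1 : ∑ i, cc i * w i = 1 := by
    apply mul_left_cancel₀ hl0
    rw [mul_one, Finset.mul_sum]
    rw [← hcc]
    refine Finset.sum_congr rfl fun i _ => ?_
    rw [hcc, hw i]
    ring
  have hbw : ∀ i j, w i * b j = w j * b i := by
    intro i j
    apply mul_left_cancel₀ hl0
    have := hab i j
    rw [hw i, hw j] at this
    linear_combination this
  have hbm : ∀ j, b j = (∑ i, cc i * b i) * w j := by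
    intro j
    calc b j = (∑ i, cc i * w i) * b j := by rw [hc1, one_mul]
      _ = ∑ i, cc i * (w i * b j) := by
          rw [Finset.sum_mul]
          exact Finset.sum_congr rfl fun i _ => by ring
      _ = ∑ i, cc i * (w j * b i) := Finset.sum_congr rfl fun i _ => by rw [hbw i j]
      _ = (∑ i, cc i * b i) * w j := by
          rw [Finset.sum_mul]
          exact Finset.sum_congr rfl fun i _ => by ring
  refine ⟨w, cc, lam, ∑ i, cc i * b i, hl0, ?_, hw, hbm, hc1⟩
  intro h0
  apply hb
  funext j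
  rw [hbm j, h0, zero_mul]
  rfl

/-- the decomposition of a solution -/
theorem dec_SP {t1 t2 : A} {z : Fin 10 → A} (hz : SP t1 t2 z) {q : Fin 3}
    (hq : va z q * vb z q ≠ 0) :
    ∃ (w cc : Fin 3 → A) (lam mu : A), lam ≠ 0 ∧ mu ≠ 0 ∧ (∀ i, va z i = lam * w i) ∧
      (∀ i, vb z i = mu * w i) ∧ ∑ i, cc i * w i = 1 ∧
      w 0 * vm z 0 + w 1 * vm z 1 + w 2 * vm z 2 = (lam + mu) * (w 0 * w 1) ∧
      R3 t1 t2 (vm z) + lam * mu * (R3 t1 t2 w + w 0 * w 1) = 0 := by
  obtain ⟨⟨p1, p2, p3, p4, p5⟩, h0, h2⟩ := hz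
  rw [h0] at p1 p2 p3
  have hab : ∀ i j, va z i * vb z j = va z j * vb z i := by
    intro i j
    fin_cases i <;> fin_cases j
    · rfl
    · show z 1 * z 5 = z 2 * z 4
      linear_combination (-1 : A) * p1
    · show z 1 * z 6 = z 3 * z 4
      linear_combination (-1 : A) * p2
    · show z 2 * z 4 = z 1 * z 5
      linear_combination p1
    · rfl
    · show z 2 * z 6 = z 3 * z 5
      linear_combination (-1 : A) * p3
    · show z 3 * z 4 = z 1 * z 6
      linear_combination p2
    · show z 3 * z 5 = z 2 * z 6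
      linear_combination p3
    · rfl
  obtain ⟨w, cc, lam, mu, hl, hm, hw1, hw2, hc⟩ := dec hab (by
    intro h
    apply hq
    rw [h, Pi.zero_apply, zero_mul]) (by
    intro h
    apply hq
    rw [h, Pi.zero_apply, mul_zero])
  refine ⟨w, cc, lam, mu, hl, hm, hw1, hw2, hc, ?_, ?_⟩
  · have a0 : z 1 = lam * w 0 := hw1 0
    have a1 : z 2 = lam * w 1 := hw1 1
    have a2 : z 3 = lam * w 2 := hw1 2
    have b1 : z 5 = mu * w 1 := hw2 1
    have e1 : w 0 * z 9 - w 1 * z 8 + w 2 * z 7 = 0 := by
      rw [a0, a1, a2] at p4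
      have : lam * (w 0 * z 9 - w 1 * z 8 + w 2 * z 7) = 0 := by linear_combination p4
      exact (mul_eq_zero.1 this).resolve_left hl
    show w 0 * (z 9 + z 2 + z 5) + w 1 * (-z 8) + w 2 * z 7 = _
    rw [a1, b1]
    linear_combination e1
  · have a0 : z 1 = lam * w 0 := hw1 0
    have a1 : z 2 = lam * w 1 := hw1 1
    have a2 : z 3 = lam * w 2 := hw1 2
    have b0 : z 4 = mu * w 0 := hw2 0
    have b1 : z 5 = mu * w 1 := hw2 1
    have b2 : z 6 = mu * w 2 := hw2 2
    unfold spq at h2
    show ((z 9 + z 2 + z 5) ^ 2 + t1 * (-z 8) ^ 2 + t2 * z 7 ^ 2) +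
      lam * mu * ((w 0 ^ 2 + t1 * w 1 ^ 2 + t2 * w 2 ^ 2) + w 0 * w 1) = 0
    have e1 : z 1 * z 4 = lam * mu * w 0 ^ 2 := by rw [a0, b0]; ring
    have e2 : z 1 * z 5 = lam * mu * (w 0 * w 1) := by rw [a0, b1]; ring
    have e3 : z 2 * z 5 = lam * mu * w 1 ^ 2 := by rw [a1, b1]; ring
    have e4 : z 3 * z 6 = lam * mu * w 2 ^ 2 := by rw [a2, b2]; ring
    rw [e1, e2, e3, e4] at h2
    linear_combination h2

end dec

section cv

open Polynomial

variable {κ ι : Type} [Field κ] [Fintype ι] {t : ι → κ}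

theorem ev_of {e : κ} (he : e ^ 2 = -1) {i1 i2 : ι} (h12 : i1 ≠ i2) {lam mu : κ[X]}
    {w cc m : Fin 3 → κ[X]} (h0 : lam ≠ 0) (h1 : mu ≠ 0) (hc : ∑ i, cc i * w i = 1)
    (hwm : w 0 * m 0 + w 1 * m 1 + w 2 * m 2 = (lam + mu) * (w 0 * w 1))
    (hR : R3 (C (t i1)) (C (t i2)) m + lam * mu * (R3 (C (t i1)) (C (t i2)) w + w 0 * w 1) = 0) :
    Ev t (lam * mu) := by
  intro π n y hπ hiso hY hy
  have : Fact (Irreducible π) := ⟨hπ⟩
  have hker : ∀ y, AdjoinRoot.mk π y = 0 ↔ π ∣ y := fun y => AdjoinRoot.mk_eq_zero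
  have hA' : Ani (fun i => AdjoinRoot.mk π (ct t i)) := by
    intro v hv
    obtain ⟨u, hu⟩ : ∃ u : Finset ι → κ[X], ∀ S, AdjoinRoot.mk π (u S) = v S :=
      ⟨fun S => (AdjoinRoot.mk_surjective (v S)).choose,
        fun S => (AdjoinRoot.mk_surjective (v S)).choose_spec⟩
    rw [← funext hu, ← pf_map (AdjoinRoot.mk π), hker] at hv
    funext S
    rw [← hu S, Pi.zero_apply, hker]
    by_contra hS
    exact hiso ⟨u, hv, S, hS⟩
  have he' : (AdjoinRoot.mk π (C e)) ^ 2 = -1 := by
    rw [← map_pow, ← map_pow, he, map_neg, map_neg, map_one, map_one]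
  obtain ⟨a, l, ha, hl⟩ := exists_div hπ h0
  obtain ⟨b, u, hb, hu⟩ := exists_div hπ h1
  have hl' : AdjoinRoot.mk π l ≠ 0 := fun h => hl ((hker _).1 h)
  have hu' : AdjoinRoot.mk π u ≠ 0 := fun h => hu ((hker _).1 h)
  have hy' : AdjoinRoot.mk π y ≠ 0 := fun h => hy ((hker _).1 h)
  have e1 : π ^ n * y = π ^ (a + b) * (l * u) := by
    rw [← hY, ha, hb]
    ring
  obtain ⟨e2, -⟩ := exp_uniq hπ.ne_zero hker e1 hy' (by
    rw [map_mul]
    exact mul_ne_zero hl' hu')
  rw [e2]
  by_cases hab : a = b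
  · exact ⟨a, by rw [hab]⟩
  · refine (local_lemma (t := ct t) hπ.ne_zero hker hA' he' h12 ha hl' hb hu' hab ?_ hwm hR).1
    intro hw
    have h3 := congrArg (AdjoinRoot.mk π) hc
    rw [map_sum, map_one] at h3
    have h4 : ∀ i ∈ (Finset.univ : Finset (Fin 3)), AdjoinRoot.mk π (cc i * w i) = 0 := by
      intro i _
      rw [map_mul, show AdjoinRoot.mk π (w i) = 0 from congrFun hw i, mul_zero]
    rw [Finset.sum_eq_zero h4] at h3
    exact zero_ne_one h3

/-- the end of the curve at `0` -/
theorem end1 (hA : Ani t) {e : κ} (he : e ^ 2 = -1) {i1 i2 : ι} (h12 : i1 ≠ i2)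
    {z : Fin 10 → κ[X]} (hz : SP (C (t i1)) (C (t i2)) z) {q : Fin 3}
    (hq : va z q * vb z q ≠ 0) {al : ℕ} (ha : ∀ i l, l < al → (z i).coeff l = 0)
    (ha0 : (fun i => (z i).coeff al) ≠ 0) :
    Cl t (fun i => (z i).coeff al) ↔ Vl t (va z q * vb z q).trailingCoeff := by
  have hct : (fun i => constantCoeff (ct t i)) = t := by
    funext i
    simp
  have hA' : Ani (fun i => constantCoeff (ct t i)) := by
    rw [hct]
    exact hA
  have hVl : ∀ v, Vl (fun i => constantCoeff (ct t i)) v ↔ Vl t v := by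
    intro v
    rw [hct]
  have hC : ∀ i, constantCoeff (C (t i)) = t i := congrFun hct
  obtain ⟨w, cc, lam, mu, h0, h1, hw1, hw2, hc, hwm, hR⟩ := dec_SP hz hq
  obtain ⟨i, l, hi, hl⟩ := exists_div irreducible_X h0
  obtain ⟨j, u, hj, hu⟩ := exists_div irreducible_X h1
  have hl' : constantCoeff l ≠ 0 := fun h => hl ((ker_X _).1 h)
  have hu' : constantCoeff u ≠ 0 := fun h => hu ((ker_X _).1 h)
  -- reduction to `lam * mu`
  have htc : (lam * mu).trailingCoeff = constantCoeff l * constantCoeff u := by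
    rw [← map_mul]
    refine tc_of (a := i + j) ?_ ?_
    · rw [hi, hj]
      ring
    · rw [map_mul]
      exact mul_ne_zero hl' hu'
  have hwq : w q ≠ 0 := by
    intro h
    apply hq
    rw [hw1 q, h, mul_zero, zero_mul]
  have hred : Vl t (va z q * vb z q).trailingCoeff ↔
      Vl t (constantCoeff l * constantCoeff u) := by
    have e1 : va z q * vb z q = (lam * mu) * (w q * w q) := by
      rw [hw1 q, hw2 q]
      ring
    rw [e1, trailingCoeff_mul, trailingCoeff_mul (w q), htc, ← sq]
    exact vl_mul_iff (vl_square _) (pow_ne_zero 2 (trailingCoeff_nonzero_iff_nonzero.2 hwq))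
  rw [hred, cl_iff]
  -- division by `X ^ al`
  have h2 : ∀ i, ∃ z', z i = X ^ al * z' := fun i => X_pow_dvd_iff.2 fun l hl => ha i l hl
  choose z' hz' using h2
  have h3 : ∀ i, (z i).coeff al = constantCoeff (z' i) := by
    intro i
    have h4 := coeff_X_pow_mul (z' i) al 0
    rw [zero_add] at h4
    rw [hz' i, h4]
    rfl
  have hva : ∀ q, va z q = X ^ al * va z' q := by
    intro q
    fin_cases q
    · exact hz' 1
    · exact hz' 2
    · exact hz' 3
  have hvb : ∀ q, vb z q = X ^ al * vb z' q := by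
    intro q
    fin_cases q
    · exact hz' 4
    · exact hz' 5
    · exact hz' 6
  have hvm : ∀ q, vm z q = X ^ al * vm z' q := by
    intro q
    fin_cases q
    · show z 9 + z 2 + z 5 = X ^ al * (z' 9 + z' 2 + z' 5)
      rw [hz' 9, hz' 2, hz' 5]
      ring
    · show -z 8 = X ^ al * (-z' 8)
      rw [hz' 8]
      ring
    · exact hz' 7
  have hca : ∀ q, va (fun i => (z i).coeff al) q = constantCoeff (va z' q) := by
    intro q
    fin_cases q
    · exact h3 1
    · exact h3 2
    · exact h3 3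
  have hcb : ∀ q, vb (fun i => (z i).coeff al) q = constantCoeff (vb z' q) := by
    intro q
    fin_cases q
    · exact h3 4
    · exact h3 5
    · exact h3 6
  -- `w` does not vanish at `0`
  have hw0 : (fun q => constantCoeff (w q)) ≠ 0 := by
    intro hw
    have h3 := congrArg constantCoeff hc
    rw [map_sum, map_one] at h3
    have h4 : ∀ i ∈ (Finset.univ : Finset (Fin 3)), constantCoeff (cc i * w i) = 0 := by
      intro i _
      rw [map_mul, show constantCoeff (w i) = 0 from congrFun hw i, mul_zero]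
    rw [Finset.sum_eq_zero h4] at h3
    exact zero_ne_one h3
  obtain ⟨q0, hq0⟩ := Function.ne_iff.1 hw0
  have hq0' : constantCoeff (w q0) ≠ 0 := hq0
  have ea : ∀ q, X ^ i * (l * w q) = X ^ al * va z' q := by
    intro q
    rw [← hva, hw1 q, hi]
    ring
  have eb : ∀ q, X ^ j * (u * w q) = X ^ al * vb z' q := by
    intro q
    rw [← hvb, hw2 q, hj]
    ring
  have hia : al ≤ i := exp_le X_ne_zero ker_X (ea q0) (by
    rw [map_mul]
    exact mul_ne_zero hl' hq0')
  have hja : al ≤ j := exp_le X_ne_zero ker_X (eb q0) (by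
    rw [map_mul]
    exact mul_ne_zero hu' hq0')
  have hXr : constantCoeff (X : κ[X]) = 0 := (ker_X _).2 dvd_rfl
  have hza : al < i → ∀ q, constantCoeff (va z' q) = 0 := by
    intro h q
    obtain ⟨d, rfl⟩ := Nat.exists_eq_add_of_lt h
    have e1 : X ^ al * (X * (X ^ d * (l * w q))) = X ^ al * va z' q := by
      rw [← ea q]
      ring
    have e2 := mul_left_cancel₀ (pow_ne_zero _ X_ne_zero) e1
    rw [← e2, map_mul, hXr, zero_mul]
  have hzb : al < j → ∀ q, constantCoeff (vb z' q) = 0 := by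
    intro h q
    obtain ⟨d, rfl⟩ := Nat.exists_eq_add_of_lt h
    have e1 : X ^ al * (X * (X ^ d * (u * w q))) = X ^ al * vb z' q := by
      rw [← eb q]
      ring
    have e2 := mul_left_cancel₀ (pow_ne_zero _ X_ne_zero) e1
    rw [← e2, map_mul, hXr, zero_mul]
  by_cases hij : i = al ∧ j = al
  · obtain ⟨rfl, h5⟩ := hij
    rw [h5] at eb
    have fa : ∀ q, constantCoeff (va z' q) = constantCoeff l * constantCoeff (w q) := fun q => by
      rw [← mul_left_cancel₀ (pow_ne_zero _ X_ne_zero) (ea q), map_mul]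
    have fb : ∀ q, constantCoeff (vb z' q) = constantCoeff u * constantCoeff (w q) := fun q => by
      rw [← mul_left_cancel₀ (pow_ne_zero _ X_ne_zero) (eb q), map_mul]
    have fab : ∀ q, va (fun k => (z k).coeff i) q * vb (fun k => (z k).coeff i) q =
        constantCoeff (w q) ^ 2 * (constantCoeff l * constantCoeff u) := by
      intro q
      rw [hca, hcb, fa, fb]
      ring
    constructor
    · intro h
      have h5 := h q0
      rw [fab q0, mul_comm] at h5
      exact vl_of_mul (vl_square _) (pow_ne_zero 2 hq0') h5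
    · intro h q
      rw [fab q]
      exact vl_sq h _
  · have hzero : ∀ q, va (fun k => (z k).coeff al) q * vb (fun k => (z k).coeff al) q = 0 := by
      intro q
      rw [hca, hcb]
      rcases lt_or_eq_of_le hia with h5 | h5
      · rw [hza h5 q, zero_mul]
      · rcases lt_or_eq_of_le hja with h6 | h6
        · rw [hzb h6 q, mul_zero]
        · exact absurd ⟨h5.symm, h6.symm⟩ hij
    constructor
    · intro _
      by_cases hne : i = j
      · -- impossible
        exfalso
        subst hne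
        have hlt : al < i := by
          rcases lt_or_eq_of_le hia with h5 | h5
          · exact h5
          · exact absurd ⟨h5.symm, h5.symm⟩ hij
        have g1 := hza hlt
        have g2 := hzb hlt
        obtain ⟨d, rfl⟩ := Nat.exists_eq_add_of_lt hlt
        have e1 : R3 (C (t i1)) (C (t i2)) (vm z) =
            (X ^ al) ^ 2 * R3 (C (t i1)) (C (t i2)) (vm z') := by
          rw [← R3_smul, ← funext hvm]
        have e2 : (X ^ al) ^ 2 * (R3 (C (t i1)) (C (t i2)) (vm z') +
            X * (X * (X ^ d) ^ 2 * (l * u * (R3 (C (t i1)) (C (t i2)) w + w 0 * w 1)))) = 0 := by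
          rw [e1, hi, hj] at hR
          linear_combination hR
        have e3 := (mul_eq_zero.1 e2).resolve_left (pow_ne_zero _ (pow_ne_zero _ X_ne_zero))
        have e4 := congrArg constantCoeff e3
        rw [map_add, map_mul, hXr, zero_mul, add_zero, map_zero, R3_map, hC, hC] at e4
        have e5 := ani_R3 hA h12 e4
        have f0 : constantCoeff (z' 9 + z' 2 + z' 5) = 0 := congrFun e5 0
        have f1 : constantCoeff (-z' 8) = 0 := congrFun e5 1
        have f2 : constantCoeff (z' 7) = 0 := congrFun e5 2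
        have a0 : constantCoeff (z' 1) = 0 := g1 0
        have a1 : constantCoeff (z' 2) = 0 := g1 1
        have a2 : constantCoeff (z' 3) = 0 := g1 2
        have b0 : constantCoeff (z' 4) = 0 := g2 0
        have b1 : constantCoeff (z' 5) = 0 := g2 1
        have b2 : constantCoeff (z' 6) = 0 := g2 2
        rw [map_add, map_add, a1, b1, add_zero, add_zero] at f0
        rw [map_neg, neg_eq_zero] at f1
        have c0 : constantCoeff (z' 0) = 0 := by
          have := hz' 0
          rw [hz.2.1] at this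
          rw [(mul_eq_zero.1 this.symm).resolve_left (pow_ne_zero _ X_ne_zero), map_zero]
        apply ha0
        funext k
        rw [h3 k]
        fin_cases k
        · exact c0
        · exact a0
        · exact a1
        · exact a2
        · exact b0
        · exact b1
        · exact b2
        · exact f2
        · exact f1
        · exact f0
      · rw [← hVl]
        exact (local_lemma (t := ct t) X_ne_zero ker_X hA' he h12 hi hl' hj hu' hne hw0 hwm hR).2
    · intro _ q
      rw [hzero q]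
      exact vl_zero

theorem SP_reflect {z : Fin 10 → κ[X]} {t1 t2 : κ} (hz : SP (C t1) (C t2) z) {b : ℕ}
    (hb : ∀ i, (z i).natDegree ≤ b) : SP (C t1) (C t2) (fun i => reflect b (z i)) := by
  apply SP_inj (algebraMap κ[X] (FractionRing κ[X])) (IsFractionRing.injective κ[X] _)
  rw [funext fun i => reflect_frac b (z i) (hb i)]
  have h1 := SP_smul ((algebraMap κ[X] (FractionRing κ[X]) X) ^ b)
    (SP_map (eval₂RingHom ((algebraMap κ[X] (FractionRing κ[X])).comp C)
        (algebraMap κ[X] (FractionRing κ[X]) X)⁻¹) hz)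
  have h2 : ∀ c : κ, eval₂RingHom ((algebraMap κ[X] (FractionRing κ[X])).comp C)
        (algebraMap κ[X] (FractionRing κ[X]) X)⁻¹ (C c) =
      algebraMap κ[X] (FractionRing κ[X]) (C c) := by
    intro c
    simp
  rw [h2, h2] at h1
  exact h1

end cv

end

end CRVAux

open CRVAux Polynomial in
theorem crv : S_CRV := by
  intro κ ι _ _ t i1 i2 h12 hA e he z hz a b ha ha0 hb hb0
  by_cases hq : ∃ q : Fin 3, va z q * vb z q ≠ 0
  · obtain ⟨q, hq⟩ := hq
    have hdeg : ∀ i, (z i).natDegree ≤ b := fun i =>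
      natDegree_le_iff_coeff_eq_zero.2 fun l hl => hb i l hl
    rw [end1 hA he h12 hz hq ha ha0]
    have hr0 : ∀ f : κ[X], f ≠ 0 → reflect b f ≠ 0 := by
      intro f hf h
      exact hf ((reflect_eq_zero_iff).1 h)
    have hva : ∀ q, va (fun i => reflect b (z i)) q = reflect b (va z q) := by
      intro q
      fin_cases q <;> rfl
    have hvb : ∀ q, vb (fun i => reflect b (z i)) q = reflect b (vb z q) := by
      intro q
      fin_cases q <;> rfl
    have hda : (va z q).natDegree ≤ b := by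
      fin_cases q
      · exact hdeg 1
      · exact hdeg 2
      · exact hdeg 3
    have hdb : (vb z q).natDegree ≤ b := by
      fin_cases q
      · exact hdeg 4
      · exact hdeg 5
      · exact hdeg 6
    have hqa : va z q ≠ 0 := left_ne_zero_of_mul hq
    have hqb : vb z q ≠ 0 := right_ne_zero_of_mul hq
    have h2 := end1 hA he h12 (SP_reflect hz hdeg) (q := q) (by
      rw [hva, hvb]
      exact mul_ne_zero (hr0 _ hqa) (hr0 _ hqb))
      (al := 0) (fun i l hl => absurd hl (Nat.not_lt_zero l)) (by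
      intro h
      apply hb0
      funext i
      have h3 := congrFun h i
      simp only [coeff_reflect, revAt_le (Nat.zero_le b), Nat.sub_zero] at h3
      exact h3)
    simp only [coeff_reflect, revAt_le (Nat.zero_le b), Nat.sub_zero] at h2
    rw [h2, hva, hvb, trailingCoeff_mul, trailingCoeff_mul, trail_reflect hda, trail_reflect hdb]
    -- the norm principle
    obtain ⟨w, cc, lam, mu, h0, h1, hw1, hw2, hc, hwm, hR⟩ := dec_SP hz hq
    have h3 := norm_principle hA _ (lam * mu) (mul_ne_zero h0 h1) le_rfl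
      (ev_of he h12 h0 h1 hc hwm hR)
    have hwq : w q ≠ 0 := by
      intro h
      apply hq
      rw [hw1 q, h, mul_zero, zero_mul]
    rw [hw1 q, hw2 q, trailingCoeff_mul, trailingCoeff_mul, leadingCoeff_mul, leadingCoeff_mul]
    rw [leadingCoeff_mul, trailingCoeff_mul] at h3
    have hl0 := leadingCoeff_ne_zero.2 h0
    have hl1 := leadingCoeff_ne_zero.2 h1
    have ht0 := trailingCoeff_nonzero_iff_nonzero.2 h0
    have ht1 := trailingCoeff_nonzero_iff_nonzero.2 h1
    have hlw := leadingCoeff_ne_zero.2 hwq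
    have htw := trailingCoeff_nonzero_iff_nonzero.2 hwq
    have e1 : lam.trailingCoeff * (w q).trailingCoeff * (mu.trailingCoeff * (w q).trailingCoeff) =
        (lam.trailingCoeff * mu.trailingCoeff) * (w q).trailingCoeff ^ 2 := by ring
    have e2 : lam.leadingCoeff * (w q).leadingCoeff * (mu.leadingCoeff * (w q).leadingCoeff) =
        (lam.leadingCoeff * mu.leadingCoeff) * (w q).leadingCoeff ^ 2 := by ring
    rw [e1, e2, vl_mul_iff (vl_square _) (pow_ne_zero 2 htw),
      vl_mul_iff (vl_square _) (pow_ne_zero 2 hlw)]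
    constructor
    · intro h
      exact vl_of_mul h (mul_ne_zero ht0 ht1) h3
    · intro h
      refine vl_of_mul h (mul_ne_zero hl0 hl1) ?_
      rw [mul_comm]
      exact h3
  · push Not at hq
    have key : ∀ n : ℕ, Cl t (fun i => (z i).coeff n) := by
      intro n
      rw [cl_iff]
      intro q
      have hca : va (fun i => (z i).coeff n) q = (va z q).coeff n := by
        fin_cases q <;> rfl
      have hcb : vb (fun i => (z i).coeff n) q = (vb z q).coeff n := by
        fin_cases q <;> rfl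
      rw [hca, hcb]
      rcases mul_eq_zero.1 (hq q) with h | h
      · rw [h, coeff_zero, zero_mul]
        exact vl_zero
      · rw [h, coeff_zero, mul_zero]
        exact vl_zero
    exact ⟨fun _ => key b, fun _ => key a⟩

end Pool.Agent.H901.GM
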