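import Pool.Agent.H901.GM.Bas0

/-! # Gushel–Mukai fourfolds: the theorem over function fields -/

set_option autoImplicit false
set_option linter.unusedSectionVars false
set_option linter.unusedVariables false

namespace Pool.Agent.H901.GM

open FF Module Pool.Agent.Helper93K9.PAR Pool.Agent.H900.PN

noncomputable section

/-- the independent family -/
def UG {E : Type} [Field E] {s m : ℕ} (i1 : Fin s) (t : Fin s → E) (g : Fin 10 → E)
    (R : Fin m → E) : Fin (s + (4 + m)) → E :=
  uV i1 t (g 3 / g 6) (x4 g) R ∘ eqv s 4 m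

section core

variable {Ω K E : Type} [Field Ω] [IsAlgClosed Ω] [CharZero Ω] [Field K] [Field E] [Algebra Ω K]
    [Algebra K E] [Algebra Ω E] [IsScalarTower Ω K E] [IsFF Ω K]

theorem nz_aux {κ μ : Type} [Field κ] [Algebra Ω κ] {s : ℕ} {i1 : Fin s} {t : Fin s → κ} {y : κ}
    {x : Fin 4 → κ} {R : μ → κ} (hi : AlgebraicIndependent Ω (uV i1 t y x R)) :
    x 0 ^ 2 + y * x 3 ^ 2 ≠ 0 := by
  intro h
  let P : MvPolynomial (Fin s ⊕ (Fin 4 ⊕ μ)) Ω := MvPolynomial.X (Sum.inr (Sum.inl 0)) ^ 2 +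
    MvPolynomial.X (Sum.inl i1) * MvPolynomial.X (Sum.inr (Sum.inl 3)) ^ 2
  have h1 : MvPolynomial.aeval (uV i1 t y x R) P = 0 := by
    rw [← h]
    simp only [P, map_add, map_mul, map_pow, MvPolynomial.aeval_X]
    unfold uV
    simp only [Sum.elim_inr, Sum.elim_inl, if_true]
  have h2 := (algebraicIndependent_iff.1 hi) _ h1
  have h3 := congrArg (MvPolynomial.eval fun _ => (1 : Ω)) h2
  simp only [P, map_add, map_mul, map_pow, MvPolynomial.eval_X, map_zero] at h3
  norm_num at h3

/-- **The theorem over function fields.** -/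
theorem core (hN : S_NWT) (hA : S_ANR) {s m : ℕ} {i1 i2 : Fin s} (h12 : i1 ≠ i2)
    {T : Finset (Finset (Fin s))} (hT0 : ∅ ∈ T) (hT1 : {i1} ∈ T) (hT2 : {i2} ∈ T)
    {H : MvPolynomial (Fin 10) Ω} (hH : H.IsHomogeneous 1)
    {G : Finset (Fin s) → MvPolynomial (Fin 10) Ω}
    (hG : ∀ τ ∈ T, (G τ).IsHomogeneous 2) {c : K} (hc : Transcendental Ω c) (t : Fin s → E)
    (g : Fin 10 → E) (R : Fin m → E)
    (hg : Sol i1 i2 T t H G (algebraMap K E c) g) (hg0 : g 6 ≠ 0)
    (hi : AlgebraicIndependent K (UG i1 t g R)) (hodd : Odd (finrank (Kc K (UG i1 t g R)) E))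
    (l : Fin 10 → E)
    (hl : ∀ i j, ¬ AlgebraicIndependent K (Fin.cons (l i / l j) t : Fin (s + 1) → E)) :
    ¬ Relation.ReflTransGen (Lkp (Sol i1 i2 T (fun i => Polynomial.C (t i)) H G
        (Polynomial.C (algebraMap K E c)))) g l := by
  classical
  intro hch
  obtain ⟨SPl, hSP, -, hSP3⟩ := FF.zeros (k := Ω) (K := K) hc
  have hfd : FiniteDimensional (IntermediateField.adjoin Ω {c}) K := IsFF.finite hc
  have hpos : 0 < finrank (IntermediateField.adjoin Ω {c}) K := finrank_pos
  have hne : SPl.Nonempty := by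
    rw [Finset.nonempty_iff_ne_empty]
    rintro rfl
    rw [Finset.sum_empty] at hSP3
    omega
  obtain ⟨P, hP⟩ := hne
  have hPc : 0 < P.ord c := (hSP P).1 hP
  obtain ⟨ϖ, h0, h1⟩ := P.surj
  have hc0 : c ≠ 0 := by
    rintro rfl
    rw [P.ord_zero] at hPc
    exact lt_irrefl _ hPc
  have hfin : FiniteDimensional (Kc K (UG i1 t g R)) E := by
    apply FiniteDimensional.of_finrank_pos
    obtain ⟨d, hd⟩ := hodd
    omega
  obtain ⟨S, hS, hsum⟩ := Pool.Agent.R845.E3.gfi Ω K E _ P ϖ (UG i1 t g R) h0 h1 hi hfin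
  obtain ⟨w, hwS, hwodd⟩ : ∃ w ∈ S, Odd (finrank (Subfield.closure
      ({c : w.RF | ∃ a : K, P.Reg a ∧ w.red (algebraMap K E a) = c} ∪
          Set.range fun j => w.red (UG i1 t g R j))) w.RF) := by
    by_contra hcon
    push Not at hcon
    have h2 := Finset.even_sum (s := S) (fun w : Place Ω E => (w.ord (algebraMap K E ϖ)).toNat *
        finrank (Subfield.closure ({c : w.RF | ∃ a : K, P.Reg a ∧ w.red (algebraMap K E a) = c} ∪
          Set.range fun j => w.red (UG i1 t g R j))) w.RF) fun w hw =>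
      (Nat.not_odd_iff_even.1 (hcon w hw)).mul_left _
    rw [hsum] at h2
    exact (Nat.not_even_iff_odd.2 hodd) h2
  obtain ⟨hwr, hww, hUr, hUg⟩ := (hS w).1 hwS
  have hwc : 0 < w.ord (algebraMap K E c) := ResL.ord_pos P w h0 h1 hwr hww hc0 hPc
  obtain ⟨r1, r2⟩ := res Ω K E P w ϖ h0 h1 hwr hww
  have hind := (r2 _ (UG i1 t g R) hUr).1.2 hUg
  rw [r1] at hwodd
  have hcr : w.Reg (algebraMap K E c) := Or.inr hwc.le
  have hcz : w.red (algebraMap K E c) = 0 := (w.red_eq_zero_iff hcr).2 (Or.inr hwc)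
  -- regularity
  have hUe : ∀ v, UG i1 t g R ((eqv s 4 m).symm v) = uV i1 t (g 3 / g 6) (x4 g) R v := by
    intro v
    unfold UG
    rw [Function.comp_apply, Equiv.apply_symm_apply]
  have hur : ∀ v, w.Reg (uV i1 t (g 3 / g 6) (x4 g) R v) := fun v => by
    rw [← hUe]
    exact hUr _
  have ht' : ∀ i, i ≠ i1 → w.Reg (t i) := by
    intro i hi
    have := hur (Sum.inl i)
    unfold uV at this
    rwa [Sum.elim_inl, if_neg hi] at this
  have hz3 : w.Reg (g 3 / g 6) := by
    have := hur (Sum.inl i1)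
    unfold uV at this
    rwa [Sum.elim_inl, if_pos rfl] at this
  have hx : ∀ q, w.Reg (x4 g q) := fun q => hur (Sum.inr (Sum.inl q))
  have hz8 : w.Reg (g 8 / g 6) := hx 0
  have hz9 : w.Reg (g 9 / g 6) := hx 1
  have hz4 : w.Reg (g 4 / g 6) := hx 2
  have hz5 : w.Reg (g 5 / g 6) := hx 3
  -- the solution in the chart
  obtain ⟨z, hz⟩ : ∃ z : Fin 10 → E, z = fun i => g i / g 6 := ⟨_, rfl⟩
  have hzg : ∀ i, z i = g i / g 6 := fun i => by rw [hz]
  have hz6 : z 6 = 1 := by rw [hzg, div_self hg0]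
  have hgz : g = fun i => g 6 * z i := by
    funext i
    rw [hzg, mul_div_cancel₀ _ hg0]
  have hsol : Sol i1 i2 T t H G (algebraMap K E c) z := by
    have h2 := sol_smul hH hG hg (g 6)⁻¹
    have h3 : (fun i => (g 6)⁻¹ * g i) = z := by
      funext i
      rw [hzg, div_eq_inv_mul]
    rwa [h3] at h2
  obtain ⟨⟨p1, p2, p3, p4, p5⟩, hlin, hquad⟩ := hsol
  rw [hz6] at p2 p3 p5
  have e1 : z 1 = z 0 * z 8 + z 3 * z 4 := by linear_combination -p2
  have e2 : z 2 = z 0 * z 9 + z 3 * z 5 := by linear_combination -p3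
  have e7 : z 7 = z 5 * z 8 - z 4 * z 9 := by linear_combination p5
  have r3 : w.Reg (z 3) := by rw [hzg]; exact hz3
  have r4 : w.Reg (z 4) := by rw [hzg]; exact hz4
  have r5 : w.Reg (z 5) := by rw [hzg]; exact hz5
  have r6 : w.Reg (z 6) := by rw [hz6]; exact w.reg_one
  have r8 : w.Reg (z 8) := by rw [hzg]; exact hz8
  have r9 : w.Reg (z 9) := by rw [hzg]; exact hz9
  have r7 : w.Reg (z 7) := by
    rw [e7, sub_eq_add_neg]
    exact w.reg_add (w.reg_mul r5 r8) (w.reg_neg (w.reg_mul r4 r9))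
  -- the coordinate `z 0`
  obtain ⟨a, ha⟩ := lin_ev (A := E) hH
  have hra : ∀ i, w.Reg (algebraMap Ω E (a i)) := fun i => w.reg_const _
  have r0 : w.Reg (z 0) := by
    refine (reg_quot w (x := z 0)
      (u := 1 + algebraMap K E c * (algebraMap Ω E (a 0) + (algebraMap Ω E (a 1) * z 8 +
        algebraMap Ω E (a 2) * z 9)))
      (v := algebraMap K E c * (-(algebraMap Ω E (a 1) * (z 3 * z 4) +
        algebraMap Ω E (a 2) * (z 3 * z 5) + algebraMap Ω E (a 3) * z 3 +
        algebraMap Ω E (a 4) * z 4 + algebraMap Ω E (a 5) * z 5 + algebraMap Ω E (a 6) * 1 +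
        algebraMap Ω E (a 7) * z 7 + algebraMap Ω E (a 8) * z 8 +
        algebraMap Ω E (a 9) * z 9))) ?_ ?_ ?_ ?_).1
    · exact w.reg_add w.reg_one (w.reg_mul hcr (w.reg_add (hra 0) (w.reg_add
        (w.reg_mul (hra 1) r8) (w.reg_mul (hra 2) r9))))
    · refine w.reg_mul hcr (w.reg_neg ?_)
      exact w.reg_add (w.reg_add (w.reg_add (w.reg_add (w.reg_add (w.reg_add (w.reg_add
        (w.reg_add (w.reg_mul (hra 1) (w.reg_mul r3 r4)) (w.reg_mul (hra 2) (w.reg_mul r3 r5)))
        (w.reg_mul (hra 3) r3)) (w.reg_mul (hra 4) r4)) (w.reg_mul (hra 5) r5))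
        (w.reg_mul (hra 6) w.reg_one)) (w.reg_mul (hra 7) r7)) (w.reg_mul (hra 8) r8))
        (w.reg_mul (hra 9) r9)
    · rw [w.red_add w.reg_one (w.reg_mul hcr (w.reg_add (hra 0) (w.reg_add
        (w.reg_mul (hra 1) r8) (w.reg_mul (hra 2) r9)))), w.red_mul hcr (w.reg_add (hra 0)
        (w.reg_add (w.reg_mul (hra 1) r8) (w.reg_mul (hra 2) r9))), hcz, zero_mul, add_zero,
        w.red_one]
      exact one_ne_zero
    · have h2 := hlin
      rw [ha] at h2
      simp only [Fin.sum_univ_succ, Fin.sum_univ_zero, Fin.succ_zero_eq_one, Fin.succ_one_eq_two,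
        add_zero] at h2
      have f3 : (Fin.succ 2 : Fin 10) = 3 := rfl
      have f4 : (Fin.succ (Fin.succ 2) : Fin 10) = 4 := rfl
      have f5 : (Fin.succ (Fin.succ (Fin.succ 2)) : Fin 10) = 5 := rfl
      have f6 : (Fin.succ (Fin.succ (Fin.succ (Fin.succ 2))) : Fin 10) = 6 := rfl
      have f7 : (Fin.succ (Fin.succ (Fin.succ (Fin.succ (Fin.succ 2)))) : Fin 10) = 7 := rfl
      have f8 : (Fin.succ (Fin.succ (Fin.succ (Fin.succ (Fin.succ (Fin.succ 2))))) : Fin 10) = 8 :=
        rfl
      have f9 : (Fin.succ (Fin.succ (Fin.succ (Fin.succ (Fin.succ (Fin.succ (Fin.succ 2)))))) :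
        Fin 10) = 9 := rfl
      rw [f3, f4, f5, f6, f7, f8, f9, hz6] at h2
      rw [e1, e2] at h2
      linear_combination h2
  have r1' : w.Reg (z 1) := by
    rw [e1]
    exact w.reg_add (w.reg_mul r0 r8) (w.reg_mul r3 r4)
  have r2' : w.Reg (z 2) := by
    rw [e2]
    exact w.reg_add (w.reg_mul r0 r9) (w.reg_mul r3 r5)
  have hzr : ∀ i, w.Reg (z i) := by
    intro i
    fin_cases i
    · exact r0
    · exact r1'
    · exact r2'
    · exact r3
    · exact r4
    · exact r5
    · exact r6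
    · exact r7
    · exact r8
    · exact r9
  have hz0z : w.red (z 0) = 0 := by
    obtain ⟨q1, -⟩ := LwL.red_aeval w z H hzr
    have q2 := w.red_add r0 (w.reg_mul hcr q1)
    rw [hlin, w.red_zero, w.red_mul hcr q1, hcz, zero_mul, add_zero] at q2
    exact q2.symm
  -- the independent reductions
  set yb : w.RF := w.red (z 3) with hyb
  set xb : Fin 4 → w.RF := fun q => w.red (x4 g q) with hxb
  set tb : Fin s → w.RF := fun i => w.red (t i) with htb
  set Rb : Fin m → w.RF := fun l => w.red (R l) with hRb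
  have hub : (fun v => w.red (uV i1 t (g 3 / g 6) (x4 g) R v)) = uV i1 tb yb xb Rb := by
    funext v
    rcases v with i | j | l
    · unfold uV
      simp only [Sum.elim_inl]
      by_cases hi : i = i1
      · rw [if_pos hi, if_pos hi, hyb, hzg]
      · rw [if_neg hi, if_neg hi]
    · rfl
    · rfl
  have hUb : (fun j => w.red (UG i1 t g R j)) = uV i1 tb yb xb Rb ∘ eqv s 4 m := by
    rw [← hub]
    rfl
  rw [hUb, algebraicIndependent_equiv] at hind
  have hran : Set.range (fun j => w.red (UG i1 t g R j)) = Set.range (uV i1 tb yb xb Rb) := by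
    rw [hUb]
    exact (eqv s 4 m).surjective.range_comp _
  have hoddb : Odd (finrank (IntermediateField.adjoin Ω (Set.range (uV i1 tb yb xb Rb)))
      w.RF) := by
    rw [← hran]
    exact hwodd
  have hAb := nz_aux hind
  -- the parameter `t i1` is regular
  have ht : ∀ i, w.Reg (t i) := by
    intro i
    by_cases hii : i = i1
    swap
    · exact ht' i hii
    rw [hii]
    have hAB : ∀ F : Finset (Fin s) → MvPolynomial (Fin 10) Ω,
        w.Reg (fvA T i1 t F z) ∧ w.Reg (fvB T i1 t F z) ∧ w.red (fvA T i1 t F z) =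
          fvA T i1 tb F fun i => w.red (z i) := by
      intro F
      have q1 := rsum w (T.filter fun τ => i1 ∈ τ)
        (f := fun τ => (∏ i ∈ τ.erase i1, t i) * MvPolynomial.aeval z (F τ))
        (g := fun τ => (∏ i ∈ τ.erase i1, tb i) *
          MvPolynomial.aeval (fun i => w.red (z i)) (F τ)) fun τ _ => ?_
      · have q2 := rsum w (T.filter fun τ => i1 ∉ τ)
          (f := fun τ => (∏ i ∈ τ, t i) * MvPolynomial.aeval z (F τ))
          (g := fun τ => (∏ i ∈ τ, tb i) *
            MvPolynomial.aeval (fun i => w.red (z i)) (F τ)) fun τ hτ => ?_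
        · refine ⟨?_, ?_, ?_⟩
          · unfold fvA
            convert q1.1
          · unfold fvB
            convert q2.1
          · unfold fvA
            convert q1.2
        · obtain ⟨q3, q4⟩ := rprod w τ (f := t) (g := tb) fun i hi =>
            ⟨ht' i fun h => (Finset.mem_filter.1 hτ).2 (h ▸ hi), rfl⟩
          obtain ⟨q5, q6⟩ := LwL.red_aeval w z (F τ) hzr
          exact ⟨w.reg_mul q3 q5, by rw [w.red_mul q3 q5, q4, q6]⟩
      · obtain ⟨q3, q4⟩ := rprod w (τ.erase i1) (f := t) (g := tb) fun i hi =>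
          ⟨ht' i (Finset.ne_of_mem_erase hi), rfl⟩
        obtain ⟨q5, q6⟩ := LwL.red_aeval w z (F τ) hzr
        exact ⟨w.reg_mul q3 q5, by rw [w.red_mul q3 q5, q4, q6]⟩
    obtain ⟨a1, a2, a3⟩ := hAB (Ph Ω i1 i2)
    obtain ⟨b1, b2, b3⟩ := hAB G
    refine (reg_quot w (x := t i1)
      (u := fvA T i1 t (Ph Ω i1 i2) z + algebraMap K E c * fvA T i1 t G z)
      (v := -(fvB T i1 t (Ph Ω i1 i2) z + algebraMap K E c * fvB T i1 t G z)) ?_ ?_ ?_ ?_).1
    · exact w.reg_add a1 (w.reg_mul hcr b1)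
    · exact w.reg_neg (w.reg_add a2 (w.reg_mul hcr b2))
    · rw [w.red_add a1 (w.reg_mul hcr b1), w.red_mul hcr b1, hcz, zero_mul, add_zero, a3]
      have q0 : ∀ t' : Fin s → w.RF, fvA T i1 t' (Ph Ω i1 i2) (fun i => w.red (z i)) =
          w.red (z 8) ^ 2 + w.red (z 2) * w.red (z 5) := by
        intro t'
        unfold fvA
        rw [Finset.sum_eq_single {i1}]
        · rw [Finset.erase_singleton, Finset.prod_empty, one_mul]
          unfold Ph
          rw [if_neg (Finset.singleton_ne_empty i1), if_pos rfl, if_neg (by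
            intro h
            exact h12 (Finset.singleton_injective h))]
          simp only [map_add, map_mul, map_pow, MvPolynomial.aeval_X, zero_add, add_zero]
        · intro τ hτ hτ1
          have hm := (Finset.mem_filter.1 hτ).2
          have q1 : Ph Ω i1 i2 τ = 0 := by
            unfold Ph
            rw [if_neg (by
              rintro rfl
              exact absurd hm (Finset.notMem_empty _)), if_neg hτ1, if_neg (by
              rintro rfl
              exact h12 (Finset.mem_singleton.1 hm)), add_zero, add_zero]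
          rw [q1, map_zero, mul_zero]
        · intro h
          exact absurd (Finset.mem_filter.2 ⟨hT1, Finset.mem_singleton_self i1⟩) h
      rw [q0]
      have q2 : w.red (z 2) = yb * w.red (z 5) := by
        rw [e2, w.red_add (w.reg_mul r0 r9) (w.reg_mul r3 r5), w.red_mul r0 r9,
          w.red_mul r3 r5, hz0z, zero_mul, zero_add]
      have q3 : w.red (z 8) = xb 0 := by
        rw [hzg]
        rfl
      have q4 : w.red (z 5) = xb 3 := by
        rw [hzg]
        rfl
      rw [q2, q3, q4]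
      intro h
      apply hAb
      linear_combination h
    · have h2 := hquad
      rw [fv_split T i1, fv_split T i1] at h2
      linear_combination h2
  have hSPz := red_sol w h12 hT0 hT1 hT2 ht hcr hcz hzr ⟨⟨p1, by rw [hz6]; exact p2,
    by rw [hz6]; exact p3, p4, by rw [hz6]; exact p5⟩, hlin, hquad⟩
  have hrel : rel (tb i1) (tb i2) yb xb = 0 := by
    have h2 := rel_of_SP hSPz (by rw [hz6]; exact w.red_one)
    have h3 : ![w.red (z 8), w.red (z 9), w.red (z 4), w.red (z 5)] = xb := by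
      funext q
      rw [hzg, hzg, hzg, hzg]
      fin_cases q <;> rfl
    rw [← h3]
    exact h2
  obtain ⟨-, htbi, hbig⟩ := hA Ω w.RF (Fin m) s i1 i2 tb yb xb Rb h12 hind hrel hoddb
  obtain ⟨e, he⟩ := IsAlgClosed.exists_pow_nat_eq (-1 : Ω) (n := 2) (by norm_num)
  set ε : w.RF := algebraMap Ω w.RF e with hε
  have hε2 : ε ^ 2 = -1 := by
    rw [hε, ← map_pow, he, map_neg, map_one]
  have hAni : Ani tb := by
    intro u hu
    exact (hbig u 0 (by rw [hu, pf_zero, mul_zero, add_zero])).1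
  have hyV : ¬ Vl tb yb := by
    rintro ⟨v, hv⟩
    obtain ⟨o, ho⟩ : Vl tb 1 := vl_one
    have h2 := (hbig (fun S => ε * v S) o (by
      rw [pf_smul, ← hv, ← ho, hε2]
      ring)).2
    rw [h2, pf_zero] at ho
    exact one_ne_zero ho
  have hϖE : algebraMap K E ϖ ≠ 0 := by rwa [Ne, map_eq_zero]
  obtain ⟨ϖw, hϖ0, hϖ1⟩ := w.surj
  -- the generic point
  have hstart : ∀ μ, Nrm w g μ → ¬ Trz w ϖw t g μ := by
    intro μ hμ
    have hn : Nrm w z 0 := by
      refine ⟨fun i => ?_, 6, ?_, ?_⟩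
      · rcases hzr i with h | h
        · exact Or.inl h
        · exact Or.inr h
      · rw [hz6]
        exact one_ne_zero
      · rw [hz6]
        exact w.ord_one
    have h2 := nrm_smul w hn hg0
    rw [← hgz] at h2
    rw [nrm_unique w hμ h2]
    have h3 := trz_smul (t := t) w hϖ0 hϖ1 hn hg0
    rw [← hgz] at h3
    rw [h3]
    rintro ⟨-, -, h4⟩
    apply hyV
    beta_reduce at h4
    rw [neg_zero, zpow_zero, mul_one, mul_one, hz6, w.red_one, mul_one] at h4
    exact h4
  -- the chain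
  have hchain : g ≠ 0 ∧ l ≠ 0 ∧ ∀ μ, Nrm w l μ → ¬ Trz w ϖw t l μ := by
    clear hl
    induction hch with
    | refl =>
      have : g ≠ 0 := fun h => hg0 (congrFun h 6)
      exact ⟨this, this, hstart⟩
    | tail _ h ih =>
      rename_i b l' _
      obtain ⟨hb0, hl0, d, Cc, hd, hC, ⟨a1, ha1, e1⟩, b1, hb1, e2⟩ := h
      refine ⟨ih.1, hl0, fun μ hμ hTr => ?_⟩
      obtain ⟨ν, hν⟩ := exists_nrm w hb0
      apply ih.2.2 ν hν
      have n1 : Nrm w (fun i => (Cc i).coeff 0) (ν + w.ord a1) := by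
        rw [funext e1]
        exact nrm_smul w hν ha1
      have n2 : Nrm w (fun i => (Cc i).coeff d) (μ + w.ord b1) := by
        rw [funext e2]
        exact nrm_smul w hμ hb1
      have z1 : (fun i => (Cc i).coeff 0) ≠ 0 := by
        obtain ⟨-, i, hi, -⟩ := n1
        exact fun h => hi (congrFun h i)
      have z2 : (fun i => (Cc i).coeff d) ≠ 0 := by
        obtain ⟨-, i, hi, -⟩ := n2
        exact fun h => hi (congrFun h i)
      have key := hN Ω E (Fin s) w i1 i2 T t ϖw h12 hT0 hT1 hT2 hϖ0 hϖ1 ht hAni ε hε2 H G hH hG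
        (algebraMap K E c) hcr hcz Cc hC d hd z1 z2 _ _ n1 n2
      rw [funext e1, funext e2, trz_smul w hϖ0 hϖ1 hν ha1, trz_smul w hϖ0 hϖ1 hμ hb1] at key
      exact key.2 hTr
  obtain ⟨-, hl0, hend⟩ := hchain
  obtain ⟨μ, hμ⟩ := exists_nrm w hl0
  apply hend μ hμ
  obtain ⟨hμ1, k0, hk0, hk1⟩ := hμ
  have hlr : ∀ i, w.Reg (l i / l k0) := by
    intro i
    by_cases hli : l i = 0
    · rw [hli, zero_div]
      exact w.reg_zero
    · right
      have := (hμ1 i).resolve_left hli
      rw [w.ord_div hli hk0]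
      omega
  have hn : Nrm w (fun i => l i / l k0) 0 := by
    refine ⟨fun i => ?_, k0, ?_, ?_⟩
    · rcases hlr i with h | h
      · exact Or.inl h
      · exact Or.inr h
    · beta_reduce
      rw [div_self hk0]
      exact one_ne_zero
    · beta_reduce
      rw [div_self hk0]
      exact w.ord_one
  have hll : (fun i => l k0 * (l i / l k0)) = l := by
    funext i
    rw [mul_div_cancel₀ _ hk0]
  have h3 := trz_smul (t := t) w hϖ0 hϖ1 hn hk0
  rw [hll, hk1, zero_add] at h3
  rw [h3]
  have halg : ∀ i, IsAlgebraic (IntermediateField.adjoin Ω (Set.range tb))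
      (w.red (l i / l k0)) := by
    intro i
    refine Pool.Agent.H900.LF.alg_of_dep htbi fun hcon => hl i k0 ?_
    refine (r2 (s + 1) (Fin.cons (l i / l k0) t) ?_).2 ?_
    · intro j
      refine Fin.cases ?_ (fun j => ?_) j
      · exact hlr i
      · exact ht _
    · have h2 : (fun j => w.red ((Fin.cons (l i / l k0) t : Fin (s + 1) → E) j)) =
          Fin.cons (w.red (l i / l k0)) tb := by
        funext j
        refine Fin.cases ?_ (fun j => ?_) j
        · rfl
        · rfl
      rw [h2]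
      exact hcon
  have hval : ∀ p q : Fin 10, Vl tb (w.red (l p / l k0 * ϖw ^ (-(0 : ℤ))) *
      w.red (l q / l k0 * ϖw ^ (-(0 : ℤ)))) := by
    intro p q
    rw [neg_zero, zpow_zero, mul_one, mul_one]
    exact vl_alg htbi hAni hε2 ((halg _).mul (halg _))
  exact ⟨hval _ _, hval _ _, hval _ _⟩

end core

end

end Pool.Agent.H901.GM
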