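import Pool.Agent.H901.GM.Sys

/-! # The generic point: counting of parameters -/

set_option autoImplicit false
set_option linter.unusedSectionVars false
set_option linter.unusedVariables false

namespace Pool.Agent.H901.GM.GENAux

open MvPolynomial FF Module Pool.Agent.H900.PN Pool.Agent.H901.GM

noncomputable section

/-! ## The table of the Plücker relations -/

/-- two pairs of labels share exactly one label -/
def adj (i j : Fin 10) : Bool :=
  decide (i ≠ j) &&
    (decide ((![1, 1, 1, 1, 2, 2, 2, 3, 3, 4] : Fin 10 → ℕ) i = (![1, 1, 1, 1, 2, 2, 2, 3, 3, 4] : Fin 10 → ℕ) j) ||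
    decide ((![1, 1, 1, 1, 2, 2, 2, 3, 3, 4] : Fin 10 → ℕ) i = (![2, 3, 4, 5, 3, 4, 5, 4, 5, 5] : Fin 10 → ℕ) j) ||
    decide ((![2, 3, 4, 5, 3, 4, 5, 4, 5, 5] : Fin 10 → ℕ) i = (![1, 1, 1, 1, 2, 2, 2, 3, 3, 4] : Fin 10 → ℕ) j) ||
    decide ((![2, 3, 4, 5, 3, 4, 5, 4, 5, 5] : Fin 10 → ℕ) i = (![2, 3, 4, 5, 3, 4, 5, 4, 5, 5] : Fin 10 → ℕ) j))

set_option synthInstance.maxSize 10000 in
set_option maxRecDepth 100000 in
theorem adj_cases : ∀ i j : Fin 10, i ≠ j → adj i j = false →
    (i = 0 ∧ (j = 7 ∨ j = 8 ∨ j = 9)) ∨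
    (i = 1 ∧ (j = 5 ∨ j = 6 ∨ j = 9)) ∨
    (i = 2 ∧ (j = 4 ∨ j = 6 ∨ j = 8)) ∨
    (i = 3 ∧ (j = 4 ∨ j = 5 ∨ j = 7)) ∨
    (i = 4 ∧ (j = 2 ∨ j = 3 ∨ j = 9)) ∨
    (i = 5 ∧ (j = 1 ∨ j = 3 ∨ j = 8)) ∨
    (i = 6 ∧ (j = 1 ∨ j = 2 ∨ j = 7)) ∨
    (i = 7 ∧ (j = 0 ∨ j = 3 ∨ j = 6)) ∨
    (i = 8 ∧ (j = 0 ∨ j = 2 ∨ j = 5)) ∨
    (i = 9 ∧ (j = 0 ∨ j = 1 ∨ j = 4)) := by
  decide

theorem table {M : Type} [Field M] {g : Fin 10 → M} (hP : Plu g) (i j : Fin 10) (hij : i ≠ j)
    (hadj : adj i j = false) : ∃ a b c d : Fin 10, adj i a = true ∧ adj i b = true ∧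
      adj i c = true ∧ adj i d = true ∧
      (g i * g j = g a * g b + g c * g d ∨ g i * g j = g a * g b - g c * g d) := by
  obtain ⟨h1, h2, h3, h4, h5⟩ := hP
  rcases adj_cases i j hij hadj with
    ⟨rfl, rfl | rfl | rfl⟩ |
    ⟨rfl, rfl | rfl | rfl⟩ |
    ⟨rfl, rfl | rfl | rfl⟩ |
    ⟨rfl, rfl | rfl | rfl⟩ |
    ⟨rfl, rfl | rfl | rfl⟩ |
    ⟨rfl, rfl | rfl | rfl⟩ |
    ⟨rfl, rfl | rfl | rfl⟩ |
    ⟨rfl, rfl | rfl | rfl⟩ |
    ⟨rfl, rfl | rfl | rfl⟩ |
    ⟨rfl, rfl | rfl | rfl⟩

  · exact ⟨1, 5, 2, 4, by decide, by decide, by decide, by decide,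
      Or.inr (by linear_combination h1)⟩
  · exact ⟨1, 6, 3, 4, by decide, by decide, by decide, by decide,
      Or.inr (by linear_combination h2)⟩
  · exact ⟨2, 6, 3, 5, by decide, by decide, by decide, by decide,
      Or.inr (by linear_combination h3)⟩
  · exact ⟨0, 7, 2, 4, by decide, by decide, by decide, by decide,
      Or.inl (by linear_combination -h1)⟩
  · exact ⟨0, 8, 3, 4, by decide, by decide, by decide, by decide,
      Or.inl (by linear_combination -h2)⟩
  · exact ⟨2, 8, 3, 7, by decide, by decide, by decide, by decide,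
      Or.inr (by linear_combination h4)⟩
  · exact ⟨1, 5, 0, 7, by decide, by decide, by decide, by decide,
      Or.inr (by linear_combination h1)⟩
  · exact ⟨0, 9, 3, 5, by decide, by decide, by decide, by decide,
      Or.inl (by linear_combination -h3)⟩
  · exact ⟨1, 9, 3, 7, by decide, by decide, by decide, by decide,
      Or.inl (by linear_combination -h4)⟩
  · exact ⟨1, 6, 0, 8, by decide, by decide, by decide, by decide,
      Or.inr (by linear_combination h2)⟩
  · exact ⟨2, 6, 0, 9, by decide, by decide, by decide, by decide,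
      Or.inr (by linear_combination h3)⟩
  · exact ⟨2, 8, 1, 9, by decide, by decide, by decide, by decide,
      Or.inr (by linear_combination h4)⟩
  · exact ⟨1, 5, 0, 7, by decide, by decide, by decide, by decide,
      Or.inr (by linear_combination h1)⟩
  · exact ⟨1, 6, 0, 8, by decide, by decide, by decide, by decide,
      Or.inr (by linear_combination h2)⟩
  · exact ⟨5, 8, 6, 7, by decide, by decide, by decide, by decide,
      Or.inr (by linear_combination h5)⟩
  · exact ⟨0, 7, 2, 4, by decide, by decide, by decide, by decide,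
      Or.inl (by linear_combination -h1)⟩
  · exact ⟨2, 6, 0, 9, by decide, by decide, by decide, by decide,
      Or.inr (by linear_combination h3)⟩
  · exact ⟨4, 9, 6, 7, by decide, by decide, by decide, by decide,
      Or.inl (by linear_combination -h5)⟩
  · exact ⟨0, 8, 3, 4, by decide, by decide, by decide, by decide,
      Or.inl (by linear_combination -h2)⟩
  · exact ⟨0, 9, 3, 5, by decide, by decide, by decide, by decide,
      Or.inl (by linear_combination -h3)⟩
  · exact ⟨5, 8, 4, 9, by decide, by decide, by decide, by decide,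
      Or.inr (by linear_combination h5)⟩
  · exact ⟨1, 5, 2, 4, by decide, by decide, by decide, by decide,
      Or.inr (by linear_combination h1)⟩
  · exact ⟨2, 8, 1, 9, by decide, by decide, by decide, by decide,
      Or.inr (by linear_combination h4)⟩
  · exact ⟨5, 8, 4, 9, by decide, by decide, by decide, by decide,
      Or.inr (by linear_combination h5)⟩
  · exact ⟨1, 6, 3, 4, by decide, by decide, by decide, by decide,
      Or.inr (by linear_combination h2)⟩
  · exact ⟨1, 9, 3, 7, by decide, by decide, by decide, by decide,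
      Or.inl (by linear_combination -h4)⟩
  · exact ⟨4, 9, 6, 7, by decide, by decide, by decide, by decide,
      Or.inl (by linear_combination -h5)⟩
  · exact ⟨2, 6, 3, 5, by decide, by decide, by decide, by decide,
      Or.inr (by linear_combination h3)⟩
  · exact ⟨2, 8, 3, 7, by decide, by decide, by decide, by decide,
      Or.inr (by linear_combination h4)⟩
  · exact ⟨5, 8, 6, 7, by decide, by decide, by decide, by decide,
      Or.inr (by linear_combination h5)⟩

section alg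

variable {k C M : Type} [Field k] [Field C] [Field M] [Algebra k C] [Algebra C M] [Algebra k M]
  [IsScalarTower k C M]

theorem alg_img' (A : IntermediateField k C) {z : C} (hz : IsAlgebraic A z) :
    IsAlgebraic (A.map (IsScalarTower.toAlgHom k C M)) (algebraMap C M z) := by
  obtain ⟨p, hp0, hp⟩ := hz
  let φ : A →+* A.map (IsScalarTower.toAlgHom k C M) :=
    ((IsScalarTower.toAlgHom k C M).toRingHom.comp (algebraMap A C)).codRestrict _
      fun x => ⟨x, x.2, rfl⟩
  refine ⟨p.map φ, ?_, ?_⟩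
  · intro h
    exact hp0 (Polynomial.map_injective φ φ.injective (by rw [h, Polynomial.map_zero]))
  · have h2 : (algebraMap (A.map (IsScalarTower.toAlgHom k C M)) M).comp φ =
        (algebraMap C M).comp (algebraMap A C) := by
      ext x
      rfl
    rw [Polynomial.aeval_def, Polynomial.eval₂_map, h2, ← Polynomial.hom_eval₂,
      ← Polynomial.aeval_def, hp, map_zero]

/-- images of algebraic elements -/
theorem alg_img {J : Type} (v : J → C) {z : C}
    (hz : IsAlgebraic (IntermediateField.adjoin k (Set.range v)) z)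
    (Φ : IntermediateField k M) (hvΦ : ∀ j, algebraMap C M (v j) ∈ Φ) :
    IsAlgebraic Φ (algebraMap C M z) := by
  have hle : (IntermediateField.adjoin k (Set.range v)).map (IsScalarTower.toAlgHom k C M) ≤
      Φ := by
    rw [IntermediateField.adjoin_map, IntermediateField.adjoin_le_iff]
    rintro _ ⟨_, ⟨j, rfl⟩, rfl⟩
    exact hvΦ j
  exact Pool.Agent.X328.FD.alg_mono hle (alg_img' _ hz)

/-- everything is algebraic over `Φ` -/
theorem step_alg {J : Type} (v : J → C)
    (hv : ∀ z : C, IsAlgebraic (IntermediateField.adjoin k (Set.range v)) z)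
    (Φ : IntermediateField k M) (hvΦ : ∀ j, algebraMap C M (v j) ∈ Φ) (S : Set M)
    (hS : S ⊆ Φ) (halg : ∀ z : M, IsAlgebraic (IntermediateField.adjoin C S) z) :
    ∀ z : M, IsAlgebraic Φ z := by
  set A : IntermediateField k M := (algebraicClosure Φ M).restrictScalars k with hA
  have hmem : ∀ z, z ∈ A ↔ IsAlgebraic Φ z := by
    intro z
    rw [hA, IntermediateField.mem_restrictScalars, mem_algebraicClosure_iff]
  have hΦA : Φ ≤ A := by
    intro z hz
    rw [hmem]
    exact isAlgebraic_algebraMap (⟨z, hz⟩ : Φ)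
  have hle : (IntermediateField.adjoin C S).restrictScalars k ≤ A := by
    intro z hz
    rw [IntermediateField.mem_restrictScalars] at hz
    induction hz using IntermediateField.adjoin_induction with
    | mem y hy => exact hΦA (hS hy)
    | algebraMap y =>
      rw [hmem]
      exact alg_img v (hv y) Φ hvΦ
    | add y z _ _ hy hz => exact add_mem hy hz
    | inv y _ hy => exact inv_mem hy
    | mul y z _ _ hy hz => exact mul_mem hy hz
  intro z
  have h1 : IsAlgebraic ((IntermediateField.adjoin C S).restrictScalars k) z := halg z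
  have h2 := Pool.Agent.X328.FD.alg_mono hle h1
  exact Pool.Agent.X328.FD.alg_trans hΦA (fun z hz => (hmem z).1 hz) h2

/-- the ratios of the coordinates -/
theorem rat_mem {Φ : IntermediateField k M} {g : Fin 10 → M} (hP : Plu g) {i : Fin 10}
    (hi : g i ≠ 0) (h : ∀ j, adj i j = true → g j / g i ∈ Φ) : ∀ j, g j / g i ∈ Φ := by
  intro j
  by_cases hij : i = j
  · rw [← hij, div_self hi]
    exact one_mem _
  by_cases hadj : adj i j = true
  · exact h j hadj
  obtain ⟨a, b, c, d, ha, hb, hc, hd, hr⟩ := table hP i j hij (by simpa using hadj)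
  rcases hr with hr | hr
  · have h1 : g j / g i = (g a / g i) * (g b / g i) + (g c / g i) * (g d / g i) := by
      field_simp
      linear_combination hr
    rw [h1]
    exact add_mem (mul_mem (h a ha) (h b hb)) (mul_mem (h c hc) (h d hd))
  · have h1 : g j / g i = (g a / g i) * (g b / g i) - (g c / g i) * (g d / g i) := by
      field_simp
      linear_combination hr
    rw [h1]
    exact sub_mem (mul_mem (h a ha) (h b hb)) (mul_mem (h c hc) (h d hd))

theorem aeval_mem {r : ℕ} {Φ : IntermediateField k M} (P : MvPolynomial (Fin r) C)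
    {p : Fin r → M} (hP : ∀ β, algebraMap C M (coeff β P) ∈ Φ) (hp : ∀ j, p j ∈ Φ) :
    aeval p P ∈ Φ := by
  rw [aeval_def, eval₂_eq]
  exact sum_mem fun β _ => mul_mem (hP β) (prod_mem fun j _ => pow_mem (hp j) _)

theorem iso_mem {r : ℕ} {Φ : IntermediateField k M} (P : MvPolynomial (Fin r) C)
    (β0 : Fin r →₀ ℕ) {p : Fin r → M}
    (hP : ∀ β, β ≠ β0 → algebraMap C M (coeff β P) ∈ Φ) (hp : ∀ j, p j ∈ Φ)
    (h1 : aeval p (monomial β0 (1 : C)) = 1) :
    aeval p P - algebraMap C M (coeff β0 P) ∈ Φ := by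
  have h2 : aeval p P - algebraMap C M (coeff β0 P) =
      aeval p (P - MvPolynomial.C (coeff β0 P) * monomial β0 1) := by
    rw [map_sub, map_mul, h1, mul_one, aeval_C]
  rw [h2]
  refine aeval_mem _ (fun β => ?_) hp
  rw [coeff_sub, coeff_C_mul, coeff_monomial]
  by_cases hβ : β0 = β
  · rw [if_pos hβ, mul_one, hβ, sub_self, map_zero]
    exact zero_mem _
  · rw [if_neg hβ, mul_zero, sub_zero]
    exact hP β fun h => hβ h.symm

theorem aeval_mono_one {r : ℕ} {p : Fin r → M} {i : Fin r} (hi : p i = 1) :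
    aeval p (monomial (Finsupp.single i 2) (1 : C)) = 1 := by
  have h1 : monomial (Finsupp.single i 2) (1 : C) = X i ^ 2 := (X_pow_eq_monomial).symm
  rw [h1, map_pow, aeval_X, hi, one_pow]

end alg

section ne

variable {k M : Type} [Field k] [Field M] [Algebra k M]

theorem ne_quad {ι : Type} {x : ι → M} (hx : AlgebraicIndependent k x) {a b c d : ι}
    (hca : c ≠ a) (hcb : c ≠ b) (e : k) :
    x a * x b + algebraMap k M e * (x c * x d) ≠ 0 := by
  classical
  intro h0
  have h1 : aeval x (X a * X b + MvPolynomial.C e * (X c * X d) : MvPolynomial ι k) = 0 := by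
    rw [map_add, map_mul, map_mul, map_mul, aeval_X, aeval_X, aeval_X, aeval_X, aeval_C]
    exact h0
  have h2 := (algebraicIndependent_iff.1 hx) _ h1
  have h3 := congrArg (eval (fun l => if l = a ∨ l = b then (1 : k) else 0)) h2
  rw [map_add, map_mul, map_mul, map_mul, eval_X, eval_X, eval_X, eval_X, eval_C, map_zero,
    if_pos (Or.inl rfl), if_pos (Or.inr rfl), if_neg (by rintro (h | h); exacts [hca h, hcb h])]
    at h3
  norm_num at h3

theorem ne_lin {ι : Type} {x : ι → M} (hx : AlgebraicIndependent k x) {a b c d e : ι}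
    (hba : b ≠ a) (hda : d ≠ a) :
    x a + x b * x c + x d * x e ≠ 0 := by
  classical
  intro h0
  have h1 : aeval x (X a + X b * X c + X d * X e : MvPolynomial ι k) = 0 := by
    rw [map_add, map_add, map_mul, map_mul, aeval_X, aeval_X, aeval_X, aeval_X, aeval_X]
    exact h0
  have h2 := (algebraicIndependent_iff.1 hx) _ h1
  have h3 := congrArg (eval (fun l => if l = a then (1 : k) else 0)) h2
  rw [map_add, map_add, map_mul, map_mul, eval_X, eval_X, eval_X, eval_X, eval_X, map_zero,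
    if_pos rfl, if_neg hba, if_neg hda] at h3
  norm_num at h3

end ne

/-! ## The family of parameters -/

/-- the monomials of degree two -/
abbrev Bt : Type := {β : Fin 10 →₀ ℕ // β.degree = 2}

instance finBt : Finite Bt :=
  ((Finsupp.finite_of_degree_le (σ := Fin 10) 2).subset
    (fun β (hβ : β.degree = 2) => hβ.le)).to_subtype

/-- the square of a variable -/
def b0 (i : Fin 10) : Bt := ⟨Finsupp.single i 2, by rw [Finsupp.degree_single]⟩

/-- the index type -/
abbrev Ix {s : ℕ} (T : Finset (Finset (Fin s))) (hT : ∅ ∈ T) (m : ℕ) (i : Fin 10) : Type :=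
  {j : Fin 10 // adj i j = true} ⊕ ({a : Fin 10 // a ≠ i} ⊕
    ({p : T × Bt // p ≠ (⟨∅, hT⟩, b0 i)} ⊕ (Fin s ⊕ Fin m)))

section fam

variable {k M : Type} [Field k] [Field M] [Algebra k ℂ] [Algebra ℂ M] [Algebra k M]
  [IsScalarTower k ℂ M] {s m : ℕ} {T : Finset (Finset (Fin s))} (hT : ∅ ∈ T)

/-- the family -/
def fam (h : Fin 10 → ℂ) (F : Finset (Fin s) → MvPolynomial (Fin 10) ℂ) (t : Fin s → M)
    (g : Fin 10 → M) (R : Fin m → M) (i : Fin 10) : Ix T hT m i → M :=
  Sum.elim (fun j => g j.1 / g i) (Sum.elim (fun a => algebraMap ℂ M (h a.1))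
    (Sum.elim (fun p => algebraMap ℂ M (coeff p.1.2.1 (F p.1.1.1))) (Sum.elim t R)))

theorem card_le {ι' : Type} (hcard : ((s + (4 + m) : ℕ) : Cardinal) ≤ Cardinal.mk ι')
    (i : Fin 10) : Cardinal.mk (Ix T hT m i) ≤
      Cardinal.mk (ι' ⊕ (Fin 10 ⊕ (T × Bt))) := by
  classical
  have : Fintype Bt := Fintype.ofFinite _
  have h6 : Fintype.card {j : Fin 10 // adj i j = true} = 6 := by
    revert i
    decide
  have h9 : Fintype.card {a : Fin 10 // a ≠ i} = 9 := by
    revert i
    decide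
  have hN : Fintype.card {p : T × Bt // p ≠ (⟨∅, hT⟩, b0 i)} + 1 = Fintype.card (T × Bt) := by
    have h1 := Fintype.card_subtype_compl (fun p : T × Bt => p = (⟨∅, hT⟩, b0 i))
    rw [Fintype.card_subtype_eq] at h1
    have h2 : 0 < Fintype.card (T × Bt) := Fintype.card_pos_iff.2 ⟨(⟨∅, hT⟩, b0 i)⟩
    have h3 : Fintype.card {p : T × Bt // p ≠ (⟨∅, hT⟩, b0 i)} =
      Fintype.card {p : T × Bt // ¬ p = (⟨∅, hT⟩, b0 i)} := rfl
    omega
  have h1 : Cardinal.mk (Ix T hT m i) =
      ((6 + (9 + (Fintype.card {p : T × Bt // p ≠ (⟨∅, hT⟩, b0 i)} + (s + m))) : ℕ) :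
        Cardinal) := by
    rw [Cardinal.mk_fintype]
    congr 1
    rw [Fintype.card_sum, Fintype.card_sum, Fintype.card_sum, Fintype.card_sum, h6, h9,
      Fintype.card_fin, Fintype.card_fin]
  have h2 : Cardinal.mk (ι' ⊕ (Fin 10 ⊕ (T × Bt))) =
      Cardinal.mk ι' + ((10 + Fintype.card (T × Bt) : ℕ) : Cardinal) := by
    rw [Cardinal.mk_sum, Cardinal.lift_id, Cardinal.lift_id,
      Cardinal.mk_fintype (Fin 10 ⊕ (T × Bt)), Fintype.card_sum, Fintype.card_fin]
  rw [h1, h2]
  refine le_trans ?_ (add_le_add_left hcard _)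
  rw [← Nat.cast_add]
  exact Nat.cast_le.2 (by omega)

variable {h : Fin 10 → ℂ} {F : Finset (Fin s) → MvPolynomial (Fin 10) ℂ}
  (hF : ∀ τ ∈ T, (F τ).IsHomogeneous 2) {t : Fin s → M} {g : Fin 10 → M} {R : Fin m → M}
  (hP : Plu g) (hlin : ∑ i, algebraMap ℂ M (h i) * g i = 0) (hq : fv T t F g = 0)

/-- the linear equation in a chart -/
theorem lin_chart {i : Fin 10} (hi : g i ≠ 0) (hlin : ∑ i, algebraMap ℂ M (h i) * g i = 0) :
    ∑ a, algebraMap ℂ M (h a) * (g a / g i) = 0 := by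
  have h1 : ∑ a, algebraMap ℂ M (h a) * (g a / g i) =
      (∑ a, algebraMap ℂ M (h a) * g a) / g i := by
    rw [Finset.sum_div]
    exact Finset.sum_congr rfl fun a _ => by rw [mul_div_assoc]
  rw [h1, hlin, zero_div]

include hF in
/-- the quadratic equation in a chart -/
theorem quad_chart {i : Fin 10} (hi : g i ≠ 0) (hq : fv T t F g = 0) :
    fv T t F (fun a => g a / g i) = 0 := by
  have h1 : fv T t F (fun a => g a / g i) = (g i)⁻¹ ^ 2 * fv T t F g := by
    unfold fv
    rw [Finset.mul_sum]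
    refine Finset.sum_congr rfl fun τ hτ => ?_
    have h2 : (fun a => g a / g i) = fun a => (g i)⁻¹ * g a := by
      funext a
      rw [div_eq_inv_mul]
    rw [h2, hom_smul (hF τ hτ)]
    ring
  rw [h1, hq, mul_zero]

/-- coefficients of homogeneous polynomials -/
theorem coeff_mem' {P : MvPolynomial (Fin 10) ℂ} (hP2 : P.IsHomogeneous 2)
    {Φ : IntermediateField k M} (β : Fin 10 →₀ ℕ)
    (hβ : ∀ h : β.degree = 2, algebraMap ℂ M (coeff β P) ∈ Φ) :
    algebraMap ℂ M (coeff β P) ∈ Φ := by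
  by_cases h1 : β.degree = 2
  · exact hβ h1
  · rw [hP2.coeff_eq_zero h1, map_zero]
    exact zero_mem _

include hF hP hlin hq in
/-- all constants are in the field generated by the family -/
theorem const_mem {i : Fin 10} (hi : g i ≠ 0) {Φ : IntermediateField k M}
    (hΦ : ∀ l, fam hT h F t g R i l ∈ Φ) :
    (∀ j, g j / g i ∈ Φ) ∧ ∀ l, algebraMap ℂ M (cf T h F l) ∈ Φ := by
  classical
  have hr : ∀ j, g j / g i ∈ Φ := rat_mem hP hi fun j hj => hΦ (Sum.inl ⟨j, hj⟩)
  refine ⟨hr, ?_⟩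
  have hha : ∀ a, a ≠ i → algebraMap ℂ M (h a) ∈ Φ := fun a ha =>
    hΦ (Sum.inr (Sum.inl ⟨a, ha⟩))
  have hpp : ∀ p : T × Bt, p ≠ (⟨∅, hT⟩, b0 i) →
      algebraMap ℂ M (coeff p.2.1 (F p.1.1)) ∈ Φ := fun p hp =>
    hΦ (Sum.inr (Sum.inr (Sum.inl ⟨p, hp⟩)))
  have ht : ∀ l, t l ∈ Φ := fun l => hΦ (Sum.inr (Sum.inr (Sum.inr (Sum.inl l))))
  rintro (a | p)
  · by_cases ha : a = i
    · have h1 := lin_chart hi hlin
      rw [← Finset.add_sum_erase _ _ (Finset.mem_univ i), div_self hi, mul_one] at h1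
      have h2 : algebraMap ℂ M (h i) =
          -∑ a ∈ Finset.univ.erase i, algebraMap ℂ M (h a) * (g a / g i) := by
        linear_combination h1
      show algebraMap ℂ M (h a) ∈ Φ
      rw [ha, h2]
      exact neg_mem (sum_mem fun a ha => mul_mem (hha a (Finset.ne_of_mem_erase ha)) (hr a))
    · exact hha a ha
  · by_cases hp : p = (⟨∅, hT⟩, b0 i)
    · have h1 := quad_chart hF hi hq
      unfold fv at h1
      rw [← Finset.add_sum_erase _ _ hT, Finset.prod_empty, one_mul] at h1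
      have h2 : aeval (fun a => g a / g i) (F ∅) -
          algebraMap ℂ M (coeff (Finsupp.single i 2) (F ∅)) ∈ Φ := by
        refine iso_mem _ _ (fun β hβ => ?_) hr (aeval_mono_one (div_self hi))
        refine coeff_mem' (hF ∅ hT) β fun hd => ?_
        exact hpp (⟨∅, hT⟩, ⟨β, hd⟩) fun h => hβ (congrArg (fun q : T × Bt => q.2.1) h)
      have h3 : aeval (fun a => g a / g i) (F ∅) ∈ Φ := by
        have h4 : aeval (fun a => g a / g i) (F ∅) = -∑ τ ∈ T.erase ∅,
            (∏ i ∈ τ, t i) * aeval (fun a => g a / g i) (F τ) := by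
          linear_combination h1
        rw [h4]
        refine neg_mem (sum_mem fun τ hτ => mul_mem (prod_mem fun l _ => ht l) ?_)
        refine aeval_mem _ (fun β => ?_) hr
        have hτT : τ ∈ T := Finset.mem_of_mem_erase hτ
        refine coeff_mem' (hF τ hτT) β fun hd => ?_
        exact hpp (⟨τ, hτT⟩, ⟨β, hd⟩) fun h =>
          Finset.ne_of_mem_erase hτ (congrArg (fun q : T × Bt => q.1.1) h)
      have h5 := sub_mem h3 h2
      rw [sub_sub_cancel] at h5
      rw [hp]
      exact h5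
    · exact hpp p hp

include hF hP hlin hq in
/-- the family is algebraically independent -/
theorem fam_indep (hvi : AlgebraicIndependent k (cf T h F))
    (hva : ∀ z : ℂ, IsAlgebraic (IntermediateField.adjoin k (Set.range (cf T h F))) z)
    {ι' : Type} {y : ι' → M} (hy : AlgebraicIndependent ℂ y)
    (hcard : ((s + (4 + m) : ℕ) : Cardinal) ≤ Cardinal.mk ι')
    (halg : ∀ z : M, IsAlgebraic (IntermediateField.adjoin ℂ
      (Set.range t ∪ (rt g ∪ Set.range R))) z) {i : Fin 10} (hi : g i ≠ 0) :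
    AlgebraicIndependent k (fam hT h F t g R i) := by
  have hy' : AlgebraicIndependent k (Sum.elim y (algebraMap ℂ M ∘ cf T h F)) :=
    hvi.sumElim_comp hy
  refine Pool.Agent.X328.FD.indep_count (fun z => ?_) hy' (card_le hT hcard i)
  set Φ := IntermediateField.adjoin k (Set.range (fam hT h F t g R i)) with hΦd
  have hΦ : ∀ l, fam hT h F t g R i l ∈ Φ := fun l =>
    IntermediateField.subset_adjoin _ _ ⟨l, rfl⟩
  obtain ⟨h1, h2⟩ := const_mem hT hF hP hlin hq hi hΦ
  refine step_alg (cf T h F) hva Φ h2 _ ?_ halg z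
  rintro x (⟨l, rfl⟩ | ⟨a, b, rfl⟩ | ⟨l, rfl⟩)
  · exact hΦ (Sum.inr (Sum.inr (Sum.inr (Sum.inl l))))
  · have h3 : g a / g b = (g a / g i) / (g b / g i) := by
      rw [div_div_div_cancel_right₀ hi]
    show g a / g b ∈ Φ
    rw [h3]
    exact div_mem (h1 a) (h1 b)
  · exact hΦ (Sum.inr (Sum.inr (Sum.inr (Sum.inr l))))

end fam

section fin

variable {k M : Type} [Field k] [Field M] [Algebra k ℂ] [Algebra ℂ M] [Algebra k M]
  [IsScalarTower k ℂ M] {s m : ℕ} {T : Finset (Finset (Fin s))} (hT : ∅ ∈ T)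
  {h : Fin 10 → ℂ} {F : Finset (Fin s) → MvPolynomial (Fin 10) ℂ}
  {t : Fin s → M} {g : Fin 10 → M} {R : Fin m → M}

/-- STEP 2 -/
theorem g6_ne (hP : Plu g) (hg : g ≠ 0)
    (hind : ∀ i, g i ≠ 0 → AlgebraicIndependent k (fam hT h F t g R i)) : g 6 ≠ 0 := by
  intro h6
  obtain ⟨i, hi⟩ := Function.ne_iff.1 hg
  have hi : g i ≠ 0 := hi
  have hx := hind i hi
  have h6i : (6 : Fin 10) ≠ i := fun h => hi (h ▸ h6)
  by_cases hadj : adj i 6 = true
  · have h1 : fam hT h F t g R i (Sum.inl ⟨6, hadj⟩) ≠ 0 := hx.ne_zero _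
    apply h1
    show g 6 / g i = 0
    rw [h6, zero_div]
  have hcase : ∀ i : Fin 10, (6 : Fin 10) ≠ i → ¬ adj i 6 = true → i = 1 ∨ i = 2 ∨ i = 7 := by
    decide
  obtain ⟨h1, h2, h3, h4, h5⟩ := hP
  have hdist : ∀ {a b : {j : Fin 10 // adj i j = true}}, a.1 ≠ b.1 →
      (Sum.inl a : Ix T hT m i) ≠ Sum.inl b := fun hab h =>
    hab (congrArg Subtype.val (Sum.inl_injective h))
  rcases hcase i h6i hadj with rfl | rfl | rfl
  · have h7 := ne_quad hx (a := Sum.inl ⟨0, by decide⟩) (b := Sum.inl ⟨8, by decide⟩)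
      (c := Sum.inl ⟨3, by decide⟩) (d := Sum.inl ⟨4, by decide⟩)
      (hdist (by decide)) (hdist (by decide)) 1
    apply h7
    show (g 0 / g 1) * (g 8 / g 1) + algebraMap k M 1 * ((g 3 / g 1) * (g 4 / g 1)) = 0
    rw [map_one, one_mul]
    field_simp
    linear_combination h2 + g 1 * h6
  · have h7 := ne_quad hx (a := Sum.inl ⟨0, by decide⟩) (b := Sum.inl ⟨9, by decide⟩)
      (c := Sum.inl ⟨3, by decide⟩) (d := Sum.inl ⟨5, by decide⟩)
      (hdist (by decide)) (hdist (by decide)) 1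
    apply h7
    show (g 0 / g 2) * (g 9 / g 2) + algebraMap k M 1 * ((g 3 / g 2) * (g 5 / g 2)) = 0
    rw [map_one, one_mul]
    field_simp
    linear_combination h3 + g 2 * h6
  · have h7 := ne_quad hx (a := Sum.inl ⟨4, by decide⟩) (b := Sum.inl ⟨9, by decide⟩)
      (c := Sum.inl ⟨5, by decide⟩) (d := Sum.inl ⟨8, by decide⟩)
      (hdist (by decide)) (hdist (by decide)) (-1)
    apply h7
    show (g 4 / g 7) * (g 9 / g 7) + algebraMap k M (-1) * ((g 5 / g 7) * (g 8 / g 7)) = 0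
    rw [map_neg, map_one, neg_one_mul]
    field_simp
    linear_combination h5 - g 7 * h6

/-- the factor of `t i1` -/
def Aq (T : Finset (Finset (Fin s))) (F : Finset (Fin s) → MvPolynomial (Fin 10) ℂ)
    (t : Fin s → M) (i1 : Fin s) (p : Fin 10 → M) : M :=
  ∑ τ ∈ T.filter (fun τ => i1 ∈ τ), (∏ i ∈ τ.erase i1, t i) * aeval p (F τ)

/-- the rest -/
def Bq (T : Finset (Finset (Fin s))) (F : Finset (Fin s) → MvPolynomial (Fin 10) ℂ)
    (t : Fin s → M) (i1 : Fin s) (p : Fin 10 → M) : M :=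
  ∑ τ ∈ T.filter (fun τ => ¬ i1 ∈ τ), (∏ i ∈ τ, t i) * aeval p (F τ)

theorem fv_split (i1 : Fin s) (p : Fin 10 → M) :
    fv T t F p = Bq T F t i1 p + t i1 * Aq T F t i1 p := by
  unfold fv Bq Aq
  rw [Finset.mul_sum, add_comm, ← Finset.sum_filter_add_sum_filter_not T (fun τ => i1 ∈ τ)]
  congr 1
  refine Finset.sum_congr rfl fun τ hτ => ?_
  rw [← Finset.mul_prod_erase τ t (Finset.mem_filter.1 hτ).2, mul_assoc]

theorem sum_mem_fam {K : Type} [Field K] [Algebra K M] (Φ : IntermediateField K M) {J : Type}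
    (S : Finset J) (f : J → M) (hf : ∀ j ∈ S, f j ∈ Φ) : ∑ j ∈ S, f j ∈ Φ :=
  sum_mem hf

/-- the factor of `t i1` does not vanish -/
theorem Aq_ne (hF : ∀ τ ∈ T, (F τ).IsHomogeneous 2) (hP : Plu g) {i1 : Fin s}
    (hT1 : {i1} ∈ T) {i : Fin 10} (hi : g i ≠ 0)
    (hind : AlgebraicIndependent k (fam hT h F t g R i)) :
    Aq T F t i1 (fun a => g a / g i) ≠ 0 := by
  classical
  intro hA
  have hne : (⟨⟨{i1}, hT1⟩, b0 i⟩ : T × Bt) ≠ (⟨∅, hT⟩, b0 i) := by
    intro h1
    have h2 : ({i1} : Finset (Fin s)) = ∅ := congrArg (fun q : T × Bt => q.1.1) h1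
    exact Finset.singleton_ne_empty i1 h2
  set v0 : Ix T hT m i := Sum.inr (Sum.inr (Sum.inl ⟨_, hne⟩)) with hv0
  have hbot : AlgebraicIndependent (⊥ : IntermediateField k M) (fam hT h F t g R i) := by
    have h1 : (⊥ : IntermediateField k M) = IntermediateField.adjoin k
      (Set.range (Fin.elim0 : Fin 0 → M)) := by
      rw [Set.range_eq_empty, IntermediateField.adjoin_empty]
    rw [h1]
    apply Pool.Agent.X328.FD.indep_over
    have h2 : (Sum.elim (fam hT h F t g R i) (Fin.elim0 : Fin 0 → M)) =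
        fam hT h F t g R i ∘ (Equiv.sumEmpty _ (Fin 0)) := by
      funext v
      rcases v with v | v
      · rfl
      · exact Fin.elim0 v
    rw [h2, algebraicIndependent_equiv]
    exact hind
  have h3 := Pool.Agent.X328.FD.trans_field hbot (s := {v0}ᶜ) (i := v0) (by simp)
  rw [bot_sup_eq] at h3
  apply h3
  set Φ : IntermediateField k M := IntermediateField.adjoin k (fam hT h F t g R i '' {v0}ᶜ)
    with hΦd
  have hmem : ∀ v, v ≠ v0 → fam hT h F t g R i v ∈ Φ := fun v hv =>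
    IntermediateField.subset_adjoin _ _ ⟨v, hv, rfl⟩
  have hr : ∀ j, g j / g i ∈ Φ := rat_mem hP hi fun j hj =>
    hmem (Sum.inl ⟨j, hj⟩) (by rw [hv0]; exact Sum.inl_ne_inr)
  have ht : ∀ l, t l ∈ Φ := fun l => hmem (Sum.inr (Sum.inr (Sum.inr (Sum.inl l)))) (by
    rw [hv0]
    intro h4
    exact Sum.inr_ne_inl (Sum.inr_injective (Sum.inr_injective h4)))
  have hpp : ∀ p : T × Bt, p ≠ (⟨∅, hT⟩, b0 i) → p ≠ (⟨{i1}, hT1⟩, b0 i) →
      algebraMap ℂ M (coeff p.2.1 (F p.1.1)) ∈ Φ := fun p hp hp1 =>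
    hmem (Sum.inr (Sum.inr (Sum.inl ⟨p, hp⟩))) (by
      rw [hv0]
      intro h4
      exact hp1 (congrArg Subtype.val (Sum.inl_injective (Sum.inr_injective
        (Sum.inr_injective h4)))))
  have h5 : aeval (fun a => g a / g i) (F {i1}) -
      algebraMap ℂ M (coeff (Finsupp.single i 2) (F {i1})) ∈ Φ := by
    refine iso_mem _ _ (fun β hβ => ?_) hr (aeval_mono_one (div_self hi))
    refine coeff_mem' (hF _ hT1) β fun hd => ?_
    refine hpp (⟨{i1}, hT1⟩, ⟨β, hd⟩) (fun h => ?_) fun h => hβ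
      (congrArg (fun q : T × Bt => q.2.1) h)
    have h2 : ({i1} : Finset (Fin s)) = ∅ := congrArg (fun q : T × Bt => q.1.1) h
    exact Finset.singleton_ne_empty i1 h2
  have h6 : aeval (fun a => g a / g i) (F {i1}) ∈ Φ := by
    unfold Aq at hA
    rw [← Finset.add_sum_erase _ _ (Finset.mem_filter.2 ⟨hT1, Finset.mem_singleton_self i1⟩),
      Finset.erase_singleton, Finset.prod_empty, one_mul] at hA
    have h4 : aeval (fun a => g a / g i) (F {i1}) =
        -∑ τ ∈ (T.filter (fun τ => i1 ∈ τ)).erase {i1},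
          (∏ i ∈ τ.erase i1, t i) * aeval (fun a => g a / g i) (F τ) := by
      linear_combination hA
    rw [h4]
    refine neg_mem (sum_mem fun τ hτ => mul_mem (prod_mem fun l _ => ht l) ?_)
    obtain ⟨hτ1, hτ2⟩ := Finset.mem_erase.1 hτ
    obtain ⟨hτT, hτi⟩ := Finset.mem_filter.1 hτ2
    refine aeval_mem _ (fun β => ?_) hr
    refine coeff_mem' (hF τ hτT) β fun hd => ?_
    refine hpp (⟨τ, hτT⟩, ⟨β, hd⟩) (fun h => ?_) fun h =>
      hτ1 (congrArg (fun q : T × Bt => q.1.1) h)
    have h2 : τ = ∅ := congrArg (fun q : T × Bt => q.1.1) h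
    rw [h2] at hτi
    exact Finset.notMem_empty _ hτi
  have h7 := sub_mem h6 h5
  rw [sub_sub_cancel] at h7
  exact isAlgebraic_algebraMap (⟨_, h7⟩ : Φ)

end fin

end

end Pool.Agent.H901.GM.GENAux

namespace Pool.Agent.H901.GM

open MvPolynomial FF Module Pool.Agent.H900.PN Pool.Agent.H901.GM.GENAux

noncomputable section

theorem sum10 {M : Type} [AddCommMonoid M] (f : Fin 10 → M) :
    ∑ i, f i = f 0 + f 1 + f 2 + f 3 + f 4 + f 5 + f 6 + f 7 + f 8 + f 9 := by
  rw [Fin.sum_univ_castSucc, Fin.sum_univ_castSucc, Fin.sum_univ_eight]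
  rfl

/-- **The generic point.** -/
theorem gen (hB : S_BAT) : S_GEN := by
  classical
  intro s m T i1 hT hT1 h F hF hcf M _ _ t g R hg hP hlin hq ι' y hy hcard halg
  obtain ⟨k0, hvi, hva'⟩ := hB _ (cf T h F) hcf
  have hva : ∀ z : ℂ, IsAlgebraic (IntermediateField.adjoin k0 (Set.range (cf T h F))) z :=
    fun z => hva'.isAlgebraic z
  have hind : ∀ i, g i ≠ 0 → AlgebraicIndependent k0 (fam hT h F t g R i) := fun i hi =>
    fam_indep (k := k0) hT hF hP hlin hq hvi hva hy hcard halg hi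
  have h6 : g 6 ≠ 0 := g6_ne hT hP hg hind
  have hx := hind 6 h6
  set L := IntermediateField.adjoin ℂ (Set.range (uV i1 t (g 3 / g 6) (x4 g) R)) with hL
  have hVm : ∀ v, uV i1 t (g 3 / g 6) (x4 g) R v ∈ L := fun v =>
    IntermediateField.subset_adjoin _ _ ⟨v, rfl⟩
  have hC : ∀ z : ℂ, algebraMap ℂ M z ∈ L := fun z => L.algebraMap_mem z
  have hti : ∀ i, i ≠ i1 → t i ∈ L := fun i hi => by
    have h1 := hVm (Sum.inl i)
    unfold uV at h1
    rw [Sum.elim_inl, if_neg hi] at h1
    exact h1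
  have h3 : g 3 / g 6 ∈ L := by
    have h1 := hVm (Sum.inl i1)
    unfold uV at h1
    rw [Sum.elim_inl, if_pos rfl] at h1
    exact h1
  have h8 : g 8 / g 6 ∈ L := hVm (Sum.inr (Sum.inl 0))
  have h9 : g 9 / g 6 ∈ L := hVm (Sum.inr (Sum.inl 1))
  have h4 : g 4 / g 6 ∈ L := hVm (Sum.inr (Sum.inl 2))
  have h5 : g 5 / g 6 ∈ L := hVm (Sum.inr (Sum.inl 3))
  have hR : ∀ l, R l ∈ L := fun l => hVm (Sum.inr (Sum.inr l))
  -- the ratios
  have hP' := hP
  obtain ⟨q1, q2, q3, q4, q5⟩ := hP'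
  have e1 : g 1 / g 6 = (g 0 / g 6) * (g 8 / g 6) + (g 3 / g 6) * (g 4 / g 6) := by
    field_simp
    linear_combination -q2
  have e2 : g 2 / g 6 = (g 0 / g 6) * (g 9 / g 6) + (g 3 / g 6) * (g 5 / g 6) := by
    field_simp
    linear_combination -q3
  have e7 : g 7 / g 6 = (g 5 / g 6) * (g 8 / g 6) - (g 4 / g 6) * (g 9 / g 6) := by
    field_simp
    linear_combination q5
  have hD : algebraMap ℂ M (h 0) + algebraMap ℂ M (h 1) * (g 8 / g 6) +
      algebraMap ℂ M (h 2) * (g 9 / g 6) ≠ 0 := by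
    have hdist : ∀ {a b : {a : Fin 10 // a ≠ 6}}, a.1 ≠ b.1 →
        (Sum.inr (Sum.inl a) : Ix T hT m 6) ≠ Sum.inr (Sum.inl b) := fun hab h =>
      hab (congrArg Subtype.val (Sum.inl_injective (Sum.inr_injective h)))
    exact ne_lin hx (a := Sum.inr (Sum.inl ⟨0, by decide⟩))
      (b := Sum.inr (Sum.inl ⟨1, by decide⟩)) (c := Sum.inl ⟨8, by decide⟩)
      (d := Sum.inr (Sum.inl ⟨2, by decide⟩)) (e := Sum.inl ⟨9, by decide⟩)
      (hdist (by decide)) (hdist (by decide))
  have h7 : g 7 / g 6 ∈ L := by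
    rw [e7]
    exact sub_mem (mul_mem h5 h8) (mul_mem h4 h9)
  have h0 : g 0 / g 6 ∈ L := by
    have l1 := lin_chart h6 hlin
    have l2 : g 0 / g 6 = -(algebraMap ℂ M (h 1) * ((g 3 / g 6) * (g 4 / g 6)) +
        algebraMap ℂ M (h 2) * ((g 3 / g 6) * (g 5 / g 6)) +
        algebraMap ℂ M (h 3) * (g 3 / g 6) + algebraMap ℂ M (h 4) * (g 4 / g 6) +
        algebraMap ℂ M (h 5) * (g 5 / g 6) + algebraMap ℂ M (h 6) +
        algebraMap ℂ M (h 7) * (g 7 / g 6) + algebraMap ℂ M (h 8) * (g 8 / g 6) +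
        algebraMap ℂ M (h 9) * (g 9 / g 6)) /
        (algebraMap ℂ M (h 0) + algebraMap ℂ M (h 1) * (g 8 / g 6) +
        algebraMap ℂ M (h 2) * (g 9 / g 6)) := by
      rw [eq_div_iff hD]
      have l3 : algebraMap ℂ M (h 0) * (g 0 / g 6) + algebraMap ℂ M (h 1) * (g 1 / g 6) +
          algebraMap ℂ M (h 2) * (g 2 / g 6) + algebraMap ℂ M (h 3) * (g 3 / g 6) +
          algebraMap ℂ M (h 4) * (g 4 / g 6) + algebraMap ℂ M (h 5) * (g 5 / g 6) +
          algebraMap ℂ M (h 6) * (g 6 / g 6) + algebraMap ℂ M (h 7) * (g 7 / g 6) +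
          algebraMap ℂ M (h 8) * (g 8 / g 6) + algebraMap ℂ M (h 9) * (g 9 / g 6) = 0 := by
        rw [← l1, sum10]
      rw [div_self h6, e1, e2] at l3
      linear_combination l3
    rw [l2]
    refine div_mem (neg_mem ?_) (add_mem (add_mem (hC _) (mul_mem (hC _) h8))
      (mul_mem (hC _) h9))
    exact add_mem (add_mem (add_mem (add_mem (add_mem (add_mem (add_mem (add_mem
      (mul_mem (hC _) (mul_mem h3 h4)) (mul_mem (hC _) (mul_mem h3 h5)))
      (mul_mem (hC _) h3)) (mul_mem (hC _) h4)) (mul_mem (hC _) h5)) (hC _))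
      (mul_mem (hC _) h7)) (mul_mem (hC _) h8)) (mul_mem (hC _) h9)
  have hadj6 : ∀ j : Fin 10, adj 6 j = true → j = 0 ∨ j = 3 ∨ j = 4 ∨ j = 5 ∨ j = 8 ∨ j = 9 := by
    decide
  have hr : ∀ j, g j / g 6 ∈ L := by
    refine rat_mem (k := ℂ) hP h6 fun j hj => ?_
    rcases hadj6 j hj with rfl | rfl | rfl | rfl | rfl | rfl
    exacts [h0, h3, h4, h5, h8, h9]
  -- the parameter `t i1`
  have hA := Aq_ne hT hF hP hT1 h6 hx
  have hFm : ∀ τ, aeval (fun a => g a / g 6) (F τ) ∈ L := fun τ =>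
    aeval_mem (k := ℂ) _ (fun β => hC _) hr
  have hAm : Aq T F t i1 (fun a => g a / g 6) ∈ L := by
    unfold Aq
    refine sum_mem fun τ hτ => mul_mem (prod_mem fun l hl => hti l ?_) (hFm τ)
    exact Finset.ne_of_mem_erase hl
  have hBm : Bq T F t i1 (fun a => g a / g 6) ∈ L := by
    unfold Bq
    refine sum_mem fun τ hτ => mul_mem (prod_mem fun l hl => hti l ?_) (hFm τ)
    rintro rfl
    exact (Finset.mem_filter.1 hτ).2 hl
  have hti1 : t i1 ∈ L := by
    have l1 := quad_chart hF h6 hq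
    rw [fv_split i1] at l1
    have l2 : t i1 = -Bq T F t i1 (fun a => g a / g 6) / Aq T F t i1 (fun a => g a / g 6) := by
      rw [eq_div_iff hA]
      linear_combination l1
    rw [l2]
    exact div_mem (neg_mem hBm) hAm
  have heq : IntermediateField.adjoin ℂ (Set.range t ∪ (rt g ∪ Set.range R)) = L := by
    apply le_antisymm
    · rw [IntermediateField.adjoin_le_iff]
      rintro x (⟨l, rfl⟩ | ⟨a, b, rfl⟩ | ⟨l, rfl⟩)
      · by_cases hl : l = i1
        · rw [hl]
          exact hti1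
        · exact hti l hl
      · have l1 : g a / g b = (g a / g 6) / (g b / g 6) := by
          rw [div_div_div_cancel_right₀ h6]
        show g a / g b ∈ L
        rw [l1]
        exact div_mem (hr a) (hr b)
      · exact hR l
    · rw [hL, IntermediateField.adjoin_le_iff]
      set L' := IntermediateField.adjoin ℂ (Set.range t ∪ (rt g ∪ Set.range R)) with hL'
      have m1 : ∀ i, t i ∈ L' := fun i =>
        IntermediateField.subset_adjoin _ _ (Or.inl ⟨i, rfl⟩)
      have m2 : ∀ a b, g a / g b ∈ L' := fun a b =>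
        IntermediateField.subset_adjoin _ _ (Or.inr (Or.inl ⟨a, b, rfl⟩))
      have m3 : ∀ i, R i ∈ L' := fun i =>
        IntermediateField.subset_adjoin _ _ (Or.inr (Or.inr ⟨i, rfl⟩))
      rintro _ ⟨i | (j | l), rfl⟩
      · show (if i = i1 then g 3 / g 6 else t i) ∈ L'
        split_ifs
        · exact m2 _ _
        · exact m1 _
      · show x4 g j ∈ L'
        fin_cases j
        · exact m2 _ _
        · exact m2 _ _
        · exact m2 _ _
        · exact m2 _ _
      · exact m3 _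
  refine ⟨h6, ?_, heq⟩
  refine Pool.Agent.X328.FD.indep_count (fun z => ?_) hy ?_
  · rw [← hL, ← heq]
    exact halg z
  · refine le_trans (le_of_eq ?_) hcard
    rw [Cardinal.mk_fintype, Fintype.card_sum, Fintype.card_sum, Fintype.card_fin,
      Fintype.card_fin, Fintype.card_fin]

end

end Pool.Agent.H901.GM
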