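import Pool.Agent.H901.GM.Fin0
import Pool.Agent.H901.GM.GEN
import Pool.Agent.H901.GM.BAS

/-! # Gushel–Mukai fourfolds: final statements -/

set_option autoImplicit false

namespace Pool.Agent.H901.GM

open MvPolynomial FF Module Pool.Agent.H900.LF

noncomputable section

section fin

variable {s : ℕ} {i1 i2 : Fin s} (h12 : i1 ≠ i2) {T : Finset (Finset (Fin s))} (hT0 : ∅ ∈ T)
    (hT1 : {i1} ∈ T) (hT2 : {i2} ∈ T) {h : Fin 10 → ℂ}
    {F : Finset (Fin s) → MvPolynomial (Fin 10) ℂ} (hF : ∀ τ ∈ T, (F τ).IsHomogeneous 2)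
    (hind : AlgebraicIndependent ℚ (cf T h F))

include h12 hT0 hT1 hT2 hF hind

theorem finB (M : Type) [Field M] [Algebra (Kt s) M] (m : ℕ) (g : Fin 10 → M) (R : Fin m → M)
    (htr : Algebra.trdeg (Kt s) M = ((4 + m : ℕ) : Cardinal))
    (hgo : g ≠ 0 ∧ (∀ f ∈ eqs (lin s h) (mem T F), aeval g f = 0) ∧
      Odd (finrank (IntermediateField.adjoin (Kt s) (rt g ∪ Set.range R)) M))
    (l : Fin 10 → M) (hl : ∀ i, IsAlgebraic (Kt s) (l i)) :
    ¬ Relation.ReflTransGen (Lkp fun Cc => ∀ f ∈ eqs (lin s h) (mem T F), aeval Cc f = 0)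
      g l :=
  finB0 bas (gen bat) h12 hT0 hT1 hT2 hF hind M m g R htr hgo.1 hgo.2.1 hgo.2.2 l hl

theorem finA (L : Type) [Field L] [Algebra (Kt s) L] [Algebra.IsAlgebraic (Kt s) L] (m : ℕ)
    (g : Fin 10 → FractionRing (MvPolynomial (Fin (4 + m)) L))
    (R : Fin m → FractionRing (MvPolynomial (Fin (4 + m)) L)) :
    ¬ (g ≠ 0 ∧ (∀ f ∈ eqs (lin s h) (mem T F), aeval g f = 0) ∧
      Odd (finrank (IntermediateField.adjoin (Kt s) (rt g ∪ Set.range R))
      (FractionRing (MvPolynomial (Fin (4 + m)) L)))) := fun hgo =>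
  finA0 bas (gen bat) h12 hT0 hT1 hT2 hF hind L m g R hgo.1 hgo.2.1 hgo.2.2

end fin

end

end Pool.Agent.H901.GM
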