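import Pool.Agent.H901.GM.Sys
import Pool.Agent.H900.LF.Pr

/-! # Lifting chains of rational curves; rational points from parametrizations -/

set_option autoImplicit false
set_option linter.unusedSectionVars false
set_option linter.unusedVariables false

namespace Pool.Agent.H901.GM

open MvPolynomial FF Module Pool.Agent.H900.PN

noncomputable section

namespace LFTAux

theorem chain_lift {M : Type} [Field M] {r : ℕ} {P : (Fin r → Polynomial M) → Prop}
    {l a : Fin r → M} (h : Relation.ReflTransGen (Lkp P) a l) :
    ∃ T : Finset M, ∀ (E : Type) [Field E] (P' : (Fin r → Polynomial E) → Prop) (ε : E →+* M),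
      (∀ z ∈ T, ∃ z', ε z' = z) →
      (∀ y : Fin r → Polynomial E, P (fun i => (y i).map ε) → P' y) →
      ∀ a' l' : Fin r → E, (∀ i, ε (a' i) = a i) → (∀ i, ε (l' i) = l i) →
      Relation.ReflTransGen (Lkp P') a' l' := by
  classical
  induction h using Relation.ReflTransGen.head_induction_on with
  | refl =>
    refine ⟨∅, fun E _ P' ε _ _ a' l' ha hl => ?_⟩
    have h1 : a' = l' := by
      funext i
      apply ε.injective
      rw [ha, hl]
    rw [h1]
  | head h1 hbl ih =>
    rename_i a b
    obtain ⟨T, hT⟩ := ih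
    obtain ⟨ha0, hb0, D, C, hD, hC, ⟨s1, hs1, e1⟩, s2, hs2, e2⟩ := h1
    refine ⟨T ∪ (Finset.univ.image b ∪ ({s1, s2} ∪ Finset.univ.biUnion fun i =>
      (C i).support.image fun j => (C i).coeff j)),
      fun E _ P' ε hT' hF a' l' ha hl => ?_⟩
    have hTT : ∀ z ∈ T, ∃ z', ε z' = z := fun z hz =>
      hT' z (Finset.mem_union_left _ hz)
    have hbb : ∀ i, ∃ z', ε z' = b i := fun i =>
      hT' _ (Finset.mem_union_right _ (Finset.mem_union_left _
        (Finset.mem_image_of_mem _ (Finset.mem_univ i))))
    choose b' hb' using hbb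
    obtain ⟨s1', hs1'⟩ := hT' s1 (Finset.mem_union_right _ (Finset.mem_union_right _
      (Finset.mem_union_left _ (by simp))))
    obtain ⟨s2', hs2'⟩ := hT' s2 (Finset.mem_union_right _ (Finset.mem_union_right _
      (Finset.mem_union_left _ (by simp))))
    have hCC : ∀ i j, ∃ z', ε z' = (C i).coeff j := by
      intro i j
      by_cases h : (C i).coeff j = 0
      · exact ⟨0, by rw [map_zero, h]⟩
      · exact hT' _ (Finset.mem_union_right _ (Finset.mem_union_right _
          (Finset.mem_union_right _ (Finset.mem_biUnion.2 ⟨i, Finset.mem_univ _,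
            Finset.mem_image.2 ⟨j, Polynomial.mem_support_iff.2 h, rfl⟩⟩))))
    choose C' hC' using fun i => Pool.Agent.H900.LF.lift_poly ε (C i) (hCC i)
    have hcoeff : ∀ i j, ε ((C' i).coeff j) = (C i).coeff j := by
      intro i j
      rw [← hC', Polynomial.coeff_map]
    refine Relation.ReflTransGen.head ?_ (hT E P' ε hTT hF b' l' hb' hl)
    refine ⟨?_, ?_, D, C', ?_, ?_, ⟨s1', ?_, ?_⟩, s2', ?_, ?_⟩
    · rintro rfl
      apply ha0
      funext i
      rw [← ha, Pi.zero_apply, map_zero, Pi.zero_apply]
    · rintro rfl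
      apply hb0
      funext i
      rw [← hb', Pi.zero_apply, map_zero, Pi.zero_apply]
    · intro i
      have h2 := hD i
      rw [← hC', Polynomial.natDegree_map] at h2
      exact h2
    · apply hF
      have h3 : (fun i => (C' i).map ε) = C := funext hC'
      rw [h3]
      exact hC
    · rintro rfl
      exact hs1 (by rw [← hs1', map_zero])
    · intro i
      apply ε.injective
      rw [hcoeff, e1, map_mul, hs1', ha]
    · rintro rfl
      exact hs2 (by rw [← hs2', map_zero])
    · intro i
      apply ε.injective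
      rw [hcoeff, e2, map_mul, hs2', hb']

end LFTAux

/-- a chain of rational curves is defined over all fields which contain finitely many
elements -/
theorem lft : S_LFT := fun _ _ _ _ _ _ h => LFTAux.chain_lift h

/-- a rational point of a projective variety over a purely transcendental extension is
joined to a rational point -/
theorem prm : S_PRM := by
  classical
  intro k _ _ r N S hS U _ _ _ _ _ g hg0 hg
  obtain ⟨b, hb⟩ := IsLocalization.exist_integer_multiples_of_finite
    (nonZeroDivisors (MvPolynomial (Fin N) k)) g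
  choose G hG using hb
  have hb0 : (b : MvPolynomial (Fin N) k) ≠ 0 := nonZeroDivisors.coe_ne_zero b
  set β : U := algebraMap (MvPolynomial (Fin N) k) U b with hβ
  have hβ0 : β ≠ 0 := by
    rw [hβ, Ne, IsFractionRing.to_map_eq_zero_iff]
    exact hb0
  have hG' : ∀ i, algebraMap (MvPolynomial (Fin N) k) U (G i) = β * g i := by
    intro i
    rw [hG, Algebra.smul_def]
  obtain ⟨i1, hi1⟩ := Function.ne_iff.1 hg0
  rw [Pi.zero_apply] at hi1
  have hGi : G i1 ≠ 0 := by
    intro h
    have h1 := hG' i1
    rw [h, map_zero] at h1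
    exact mul_ne_zero hβ0 hi1 h1.symm
  obtain ⟨w0, hw0⟩ : ∃ w0 : Fin N → k, eval w0 (G i1) ≠ 0 := by
    by_contra hcon
    push Not at hcon
    exact hGi (MvPolynomial.funext fun w => by rw [hcon, map_zero])
  have hGf : ∀ f ∈ S, aeval G f = 0 := by
    intro f hfS
    obtain ⟨d, hf⟩ := hS f hfS
    apply IsFractionRing.injective (MvPolynomial (Fin N) k) U
    have h1 := comp_aeval_apply G (IsScalarTower.toAlgHom k (MvPolynomial (Fin N) k) U) f
    have h2 : (fun i => (IsScalarTower.toAlgHom k (MvPolynomial (Fin N) k) U) (G i)) =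
        fun i => β * g i := funext hG'
    rw [h2, Pool.Agent.H900.LF.hom_smul hf, hg f hfS, mul_zero] at h1
    rw [map_zero]
    exact h1
  have hUinf : Infinite U := Infinite.of_injective _ (algebraMap k U).injective
  set Gm : Fin r → MvPolynomial (Fin N) U := fun i => map (algebraMap k U) (G i) with hGm
  set D : ℕ := Finset.univ.sup fun i => (Gm i).totalDegree with hD
  have hDi : ∀ i, (Gm i).totalDegree ≤ D := fun i =>
    Finset.le_sup (f := fun i => (Gm i).totalDegree) (Finset.mem_univ i)
  set v : Fin N → U := fun l => algebraMap (MvPolynomial (Fin N) k) U (X l) with hv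
  set t : Fin N → U := fun l => algebraMap k U (w0 l) with ht
  have hform : ∀ f ∈ S, aeval Gm (map (algebraMap k U) f) = 0 := by
    intro f hfS
    have h1 : aeval Gm (map (algebraMap k U) f) = map (algebraMap k U) (aeval G f) := by
      rw [aeval_map_algebraMap]
      have h2 := comp_aeval_apply G (mapAlgHom (Algebra.ofId k U) :
        MvPolynomial (Fin N) k →ₐ[k] MvPolynomial (Fin N) U) f
      exact h2.symm
    rw [h1, hGf f hfS, map_zero]
  have hevv : ∀ i, eval v (Gm i) = β * g i := by
    intro i
    rw [← hG', hGm, eval_map, ← aeval_def]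
    have h1 := comp_aeval_apply (X : Fin N → MvPolynomial (Fin N) k)
      (IsScalarTower.toAlgHom k (MvPolynomial (Fin N) k) U) (G i)
    rw [aeval_X_left_apply] at h1
    exact h1.symm
  have hevt : ∀ i, eval t (Gm i) = algebraMap k U (eval w0 (G i)) := by
    intro i
    rw [hGm, eval_map]
    have h1 := eval₂_comp_left (algebraMap k U) (RingHom.id k) w0 (G i)
    rw [RingHom.comp_id] at h1
    exact h1.symm
  refine ⟨fun i => eval w0 (G i), fun h => hw0 (congrFun h i1), hg0, fun h => ?_, D,
    fun i => Pool.Agent.X328.FD.curve D v t (Gm i),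
    fun i => (Pool.Agent.X328.FD.curve_top v t (hDi i)).1, ?_, ⟨β, hβ0, fun i => ?_⟩,
    1, one_ne_zero, fun i => ?_⟩
  · have h1 := congrFun h i1
    rw [Pi.zero_apply, map_eq_zero] at h1
    exact hw0 h1
  · intro f hfS
    obtain ⟨d, hf⟩ := hS f hfS
    have h1 := Pool.Agent.X328.FD.curve_form v t hDi (hf.map (algebraMap k U)) (hform f hfS)
    rw [aeval_map_algebraMap] at h1
    exact h1
  · rw [Pool.Agent.X328.FD.curve_zero, hevv]
  · rw [(Pool.Agent.X328.FD.curve_top v t (hDi i)).2, hevt, one_mul]

end

end Pool.Agent.H901.GM
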