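import Pool.Agent.H901.GM.Mn
import Pool.Agent.H901.GM.LFT
import Pool.Agent.H901.GM.ANR
import Pool.Agent.H901.GM.NWT
import Pool.Agent.H901.GM.CRV

/-! # Gushel–Mukai fourfolds: final statements -/

set_option autoImplicit false

namespace Pool.Agent.H901.GM

open MvPolynomial FF Module Pool.Agent.H900.LF

noncomputable section

section fin

variable (hB : S_BAS) (hGn : S_GEN) {s : ℕ}
    {i1 i2 : Fin s} (h12 : i1 ≠ i2) {T : Finset (Finset (Fin s))} (hT0 : ∅ ∈ T) (hT1 : {i1} ∈ T)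
    (hT2 : {i2} ∈ T) {h : Fin 10 → ℂ}
    {F : Finset (Fin s) → MvPolynomial (Fin 10) ℂ} (hF : ∀ τ ∈ T, (F τ).IsHomogeneous 2)
    (hind : AlgebraicIndependent ℚ (cf T h F))

include hB hGn h12 hT0 hT1 hT2 hF hind

theorem finB0 (M : Type) [Field M] [Algebra (Kt s) M] (m : ℕ) (g : Fin 10 → M) (R : Fin m → M)
    (htr : Algebra.trdeg (Kt s) M = ((4 + m : ℕ) : Cardinal)) (hg0 : g ≠ 0)
    (hg : ∀ f ∈ eqs (lin s h) (mem T F), aeval g f = 0)
    (hodd : Odd (finrank (IntermediateField.adjoin (Kt s) (rt g ∪ Set.range R)) M))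
    (l : Fin 10 → M) (hl : ∀ i, IsAlgebraic (Kt s) (l i)) :
    ¬ Relation.ReflTransGen (Lkp fun Cc => ∀ f ∈ eqs (lin s h) (mem T F), aeval Cc f = 0)
      g l := by
  obtain ⟨ι, y, hy⟩ := exists_isTranscendenceBasis' (Kt s) M
  exact main (nwt crv) anr hB lft hGn h12 hT0 hT1 hT2 hF hind g R hg0 hg hy.1
    (by rw [hy.cardinalMk_eq_trdeg, htr]) hodd l hl

theorem finA0 (L : Type) [Field L] [Algebra (Kt s) L] [Algebra.IsAlgebraic (Kt s) L] (m : ℕ)
    (g : Fin 10 → FractionRing (MvPolynomial (Fin (4 + m)) L))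
    (R : Fin m → FractionRing (MvPolynomial (Fin (4 + m)) L)) (hg0 : g ≠ 0)
    (hg : ∀ f ∈ eqs (lin s h) (mem T F), aeval g f = 0) :
    ¬ Odd (finrank (IntermediateField.adjoin (Kt s) (rt g ∪ Set.range R))
      (FractionRing (MvPolynomial (Fin (4 + m)) L))) := by
  intro hodd
  have hinf : Infinite L := Infinite.of_injective _ (algebraMap (Kt s) L).injective
  have hhom : ∀ f ∈ (map (algebraMap (Kt s) L)) '' (eqs (lin s h) (mem T F)),
      ∃ d, f.IsHomogeneous d := by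
    rintro _ ⟨f, hf, rfl⟩
    obtain ⟨d, hd⟩ := eqs_hom (lin_hom s h) (mem_hom hF) f hf
    exact ⟨d, hd.map _⟩
  obtain ⟨l, -, hl⟩ := prm L 10 (4 + m) _ hhom _ g hg0 (by
    rintro _ ⟨f, hf, rfl⟩
    rw [aeval_map_algebraMap, hg f hf])
  have hy := (vars_indep L (4 + m)).restrictScalars (R := Kt s) (algebraMap (Kt s) L).injective
  refine main (nwt crv) anr hB lft hGn h12 hT0 hT1 hT2 hF hind g R hg0 hg hy
    (by rw [Cardinal.mk_fin]) hodd (fun i => algebraMap L _ (l i))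
    (fun i => (Algebra.IsAlgebraic.isAlgebraic (l i)).algebraMap)
    (Relation.ReflTransGen.single ?_)
  obtain ⟨h1, h2, Dd, Cc, h3, h4, h5, h6⟩ := hl
  refine ⟨h1, h2, Dd, Cc, h3, fun f hf => ?_, h5, h6⟩
  have h7 := h4 _ ⟨f, hf, rfl⟩
  rw [aeval_map_algebraMap] at h7
  exact h7

end fin

end

end Pool.Agent.H901.GM
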