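import Pool.Agent.H901.GM.Tc
import Pool.Agent.H900.PN.Mn

/-! # Gushel–Mukai fourfolds: the main theorem for independent coefficients -/

set_option autoImplicit false
set_option linter.unusedSectionVars false
set_option linter.unusedVariables false

namespace Pool.Agent.H901.GM

open MvPolynomial FF Module Pool.Agent.Helper93K9.PAR Pool.Agent.H900.PN Pool.Agent.H900.LF

noncomputable section

/-- the equations of the intersection of the Grassmannian with `H = F = 0` -/
def eqs {k : Type} [CommRing k] (H F : MvPolynomial (Fin 10) k) :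
    Set (MvPolynomial (Fin 10) k) :=
  {X 0 * X 7 - X 1 * X 5 + X 2 * X 4, X 0 * X 8 - X 1 * X 6 + X 3 * X 4,
    X 0 * X 9 - X 2 * X 6 + X 3 * X 5, X 1 * X 9 - X 2 * X 8 + X 3 * X 7,
    X 4 * X 9 - X 5 * X 8 + X 6 * X 7, H, F}

theorem eqs_iff {k A : Type} [CommRing k] [CommRing A] [Algebra k A]
    (H F : MvPolynomial (Fin 10) k) (z : Fin 10 → A) :
    (∀ f ∈ eqs H F, aeval z f = 0) ↔ Plu z ∧ aeval z H = 0 ∧ aeval z F = 0 := by
  unfold eqs Plu
  simp only [Set.mem_insert_iff, Set.mem_singleton_iff, forall_eq_or_imp, forall_eq, map_add,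
    map_sub, map_mul, aeval_X]
  tauto

theorem eqs_hom {k : Type} [CommRing k] {H F : MvPolynomial (Fin 10) k} {a b : ℕ}
    (hH : H.IsHomogeneous a) (hF : F.IsHomogeneous b) :
    ∀ f ∈ eqs H F, ∃ d, f.IsHomogeneous d := by
  have h11 : ∀ i j : Fin 10, (X i * X j : MvPolynomial (Fin 10) k).IsHomogeneous 2 :=
    fun i j => (isHomogeneous_X k i).mul (isHomogeneous_X k j)
  intro f hf
  unfold eqs at hf
  simp only [Set.mem_insert_iff, Set.mem_singleton_iff] at hf
  rcases hf with rfl | rfl | rfl | rfl | rfl | rfl | rfl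
  · exact ⟨2, ((h11 _ _).sub (h11 _ _)).add (h11 _ _)⟩
  · exact ⟨2, ((h11 _ _).sub (h11 _ _)).add (h11 _ _)⟩
  · exact ⟨2, ((h11 _ _).sub (h11 _ _)).add (h11 _ _)⟩
  · exact ⟨2, ((h11 _ _).sub (h11 _ _)).add (h11 _ _)⟩
  · exact ⟨2, ((h11 _ _).sub (h11 _ _)).add (h11 _ _)⟩
  · exact ⟨a, hH⟩
  · exact ⟨b, hF⟩

/-- the linear form over a field of functions -/
def lin (s : ℕ) (h : Fin 10 → ℂ) : MvPolynomial (Fin 10) (Kt s) :=
  ∑ i, C (algebraMap ℂ (Kt s) (h i)) * X i

theorem lin_hom (s : ℕ) (h : Fin 10 → ℂ) : (lin s h).IsHomogeneous 1 := by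
  refine IsHomogeneous.sum _ _ _ fun i _ => ?_
  have := (isHomogeneous_C (Fin 10) (algebraMap ℂ (Kt s) (h i))).mul (isHomogeneous_X (Kt s) i)
  rwa [zero_add] at this

/-- the quadratic form of the generic member -/
def mem {s : ℕ} (T : Finset (Finset (Fin s)))
    (F : Finset (Fin s) → MvPolynomial (Fin 10) ℂ) : MvPolynomial (Fin 10) (Kt s) :=
  ∑ τ ∈ T, C (∏ i ∈ τ, Pool.Agent.X328.FD.tf s i) * map (algebraMap ℂ (Kt s)) (F τ)

theorem mem_hom {s : ℕ} {T : Finset (Finset (Fin s))}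
    {F : Finset (Fin s) → MvPolynomial (Fin 10) ℂ} (hF : ∀ τ ∈ T, (F τ).IsHomogeneous 2) :
    (mem T F).IsHomogeneous 2 := by
  unfold mem
  refine IsHomogeneous.sum _ _ _ fun τ hτ => ?_
  have h := (isHomogeneous_C (Fin 10) (∏ i ∈ τ, Pool.Agent.X328.FD.tf s i)).mul
    ((hF τ hτ).map (algebraMap ℂ (Kt s)))
  rwa [zero_add] at h

theorem sys_iff {s : ℕ} (T : Finset (Finset (Fin s))) (h : Fin 10 → ℂ)
    (F : Finset (Fin s) → MvPolynomial (Fin 10) ℂ) {A : Type} [CommRing A] [Algebra (Kt s) A]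
    [Algebra ℂ A] [IsScalarTower ℂ (Kt s) A] (z : Fin 10 → A) :
    (∀ f ∈ eqs (lin s h) (mem T F), aeval z f = 0) ↔
      SolC T h (fun i => algebraMap (Kt s) A (Pool.Agent.X328.FD.tf s i)) F z := by
  rw [eqs_iff]
  have e1 : aeval z (lin s h) = ∑ i, algebraMap ℂ A (h i) * z i := by
    unfold lin
    rw [map_sum]
    refine Finset.sum_congr rfl fun i _ => ?_
    rw [map_mul, aeval_C, aeval_X, ← IsScalarTower.algebraMap_apply]
  have e2 : aeval z (mem T F) =
      fv T (fun i => algebraMap (Kt s) A (Pool.Agent.X328.FD.tf s i)) F z := by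
    unfold mem fv
    rw [map_sum]
    refine Finset.sum_congr rfl fun τ _ => ?_
    rw [map_mul, aeval_C, map_prod, aeval_map_algebraMap]
  unfold SolC
  rw [e1, e2]

section main

variable (hN : S_NWT) (hA : S_ANR) (hB : S_BAS) (hL : S_LFT) (hGn : S_GEN) {s m : ℕ}
    {i1 i2 : Fin s} (h12 : i1 ≠ i2) {T : Finset (Finset (Fin s))} (hT0 : ∅ ∈ T) (hT1 : {i1} ∈ T)
    (hT2 : {i2} ∈ T) {h : Fin 10 → ℂ}
    {F : Finset (Fin s) → MvPolynomial (Fin 10) ℂ} (hF : ∀ τ ∈ T, (F τ).IsHomogeneous 2)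
    (hind : AlgebraicIndependent ℚ (cf T h F))

include hN hA hB hL hGn h12 hT0 hT1 hT2 hF hind

/-- **The main theorem for independent coefficients.** -/
theorem main {M : Type} [Field M] [Algebra (Kt s) M] (g : Fin 10 → M) (R : Fin m → M)
    (hg0 : g ≠ 0) (hg : ∀ f ∈ eqs (lin s h) (mem T F), aeval g f = 0) {ι' : Type} {y : ι' → M}
    (hy : AlgebraicIndependent (Kt s) y) (hc : ((4 + m : ℕ) : Cardinal) ≤ Cardinal.mk ι')
    (hodd : Odd (finrank (IntermediateField.adjoin (Kt s) (rt g ∪ Set.range R)) M))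
    (l : Fin 10 → M) (hl : ∀ i, IsAlgebraic (Kt s) (l i)) :
    ¬ Relation.ReflTransGen (Lkp fun Cc => ∀ f ∈ eqs (lin s h) (mem T F), aeval Cc f = 0)
      g l := by
  classical
  intro hch
  let _ : Algebra ℂ M := ((algebraMap (Kt s) M).comp (algebraMap ℂ (Kt s))).toAlgebra
  have _ : IsScalarTower ℂ (Kt s) M := IsScalarTower.of_algebraMap_eq fun _ => rfl
  set t : Fin s → M := fun i => algebraMap (Kt s) M (Pool.Agent.X328.FD.tf s i) with ht
  set S : Set M := rt g ∪ Set.range R with hS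
  have htop : (IsScalarTower.toAlgHom ℂ (Kt s) M).fieldRange =
      IntermediateField.adjoin ℂ (Set.range t) := by
    have h1 : IntermediateField.adjoin ℂ (Set.range (Pool.Agent.X328.FD.tf s)) = ⊤ :=
      Pool.Agent.X328.FD.tf_top
    rw [AlgHom.fieldRange_eq_map, ← h1, IntermediateField.adjoin_map, ← Set.range_comp]
    rfl
  have hres : (IntermediateField.adjoin (Kt s) S).restrictScalars ℂ =
      IntermediateField.adjoin ℂ (Set.range t ∪ S) := by
    rw [Pool.Agent.X328.FD.res_type, htop, sup_comm, ← IntermediateField.adjoin_union,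
      Set.union_comm]
  have hgC := (sys_iff T h F g).1 hg
  have hfd : FiniteDimensional (IntermediateField.adjoin (Kt s) S) M :=
    FiniteDimensional.of_finrank_pos hodd.pos
  have halg : ∀ z : M, IsAlgebraic (IntermediateField.adjoin ℂ (Set.range t ∪ S)) z := by
    intro z
    rw [← hres]
    have h1 : IsAlgebraic (IntermediateField.adjoin (Kt s) S) z :=
      Algebra.IsAlgebraic.isAlgebraic z
    exact h1
  obtain ⟨g6, hi, hadj⟩ := hGn s m T i1 hT0 hT1 h F hF hind M t g R hg0 hgC.1 hgC.2.1 hgC.2.2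
    (ι' ⊕ Fin s) (Sum.elim y (algebraMap (Kt s) M ∘ Pool.Agent.X328.FD.tf s))
    (AlgebraicIndependent.sumElim_comp (Pool.Agent.X328.FD.tf_indep (m := s)) hy) (by
      rw [Cardinal.mk_sum, Cardinal.mk_fin, Cardinal.lift_id, Cardinal.lift_natCast]
      have h1 : ((s + (4 + m) : ℕ) : Cardinal) = ((4 + m : ℕ) : Cardinal) + (s : Cardinal) := by
        push_cast
        ring
      rw [h1]
      gcongr) halg
  have hranU : Set.range (UG i1 t g R) = Set.range (uV i1 t (g 3 / g 6) (x4 g) R) := by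
    unfold UG
    exact (eqv s 4 m).surjective.range_comp _
  have hodd' : Odd (finrank (Kc ℂ (UG i1 t g R)) M) := by
    have h1 : Kc ℂ (UG i1 t g R) = (IntermediateField.adjoin (Kt s) S).restrictScalars ℂ := by
      rw [hres, hadj, ← hranU]
    rw [h1]
    exact hodd
  have hiU : AlgebraicIndependent ℂ (UG i1 t g R) := by
    unfold UG
    rw [algebraicIndependent_equiv]
    exact hi
  have halg' : ∀ z : M, IsAlgebraic (Kt s) z → IsAlgebraic
      (IntermediateField.adjoin ℂ (Set.range t)) z := by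
    intro z hz
    rw [← htop]
    let f : Kt s →+* (IsScalarTower.toAlgHom ℂ (Kt s) M).fieldRange :=
      (algebraMap (Kt s) M).codRestrict (IsScalarTower.toAlgHom ℂ (Kt s) M).fieldRange
        fun a => ⟨a, rfl⟩
    obtain ⟨P, hP, hPz⟩ := hz
    refine ⟨P.map f, ?_, ?_⟩
    · rwa [Ne, Polynomial.map_eq_zero]
    · rw [Polynomial.aeval_def, Polynomial.eval₂_map]
      exact hPz
  refine over_C hN hA hB hL h12 hT0 hT1 hT2 hF hind t g R hgC g6 hiU hodd' l
    (fun i j => dep_of_alg (halg' _ ?_)) ?_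
  · rw [div_eq_mul_inv]
    exact (hl i).mul (hl j).inv
  · refine Relation.ReflTransGen.mono (fun a b' h => ?_) _ _ hch
    obtain ⟨ha, hb', d, Cc, hd, hC, e1, e2⟩ := h
    refine ⟨ha, hb', d, Cc, hd, ?_, e1, e2⟩
    have _ : IsScalarTower ℂ (Kt s) (Polynomial M) := IsScalarTower.of_algebraMap_eq fun _ => rfl
    exact (sys_iff T _ F Cc).1 hC

end main

end

end Pool.Agent.H901.GM
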