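import Pool.Agent.H900.LF.Pr

/-! # Retracts of affine spaces join the generic point to a rational point: several equations -/

set_option autoImplicit false
set_option linter.unusedSectionVars false

namespace Pool.Agent.H901.GM

open MvPolynomial Module

noncomputable section

theorem retract_curve {k M : Type} [Field k] [Infinite k] [Field M] [Algebra k M] {r N : ℕ}
    (G : Fin r → MvPolynomial (Fin N) k) (v : Fin N → M) (hv : (fun i => aeval v (G i)) ≠ 0) :
    ∃ p : Fin r → k, p ≠ 0 ∧ ∃ (D : ℕ) (C : Fin r → Polynomial M), (∀ i, (C i).natDegree ≤ D) ∧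
      (∀ (f : MvPolynomial (Fin r) k) (d : ℕ), f.IsHomogeneous d → aeval G f = 0 →
        aeval C f = 0) ∧
      (∃ a : M, a ≠ 0 ∧ ∀ i, (C i).coeff 0 = a * aeval v (G i)) ∧
      ∃ b : M, b ≠ 0 ∧ ∀ i, (C i).coeff D = b * algebraMap k M (p i) := by
  classical
  obtain ⟨i1, hi1⟩ := Function.ne_iff.1 hv
  rw [Pi.zero_apply] at hi1
  have hGi : G i1 ≠ 0 := by
    intro h
    apply hi1
    beta_reduce
    rw [h, map_zero]
  obtain ⟨w0, hw0⟩ : ∃ w0 : Fin N → k, eval w0 (G i1) ≠ 0 := by
    by_contra hcon
    push Not at hcon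
    exact hGi (MvPolynomial.funext fun w => by rw [hcon, map_zero])
  have hMinf : Infinite M := Infinite.of_injective _ (algebraMap k M).injective
  set Gm : Fin r → MvPolynomial (Fin N) M := fun i => map (algebraMap k M) (G i) with hGm
  set D : ℕ := Finset.univ.sup fun i => (Gm i).totalDegree with hD
  have hDi : ∀ i, (Gm i).totalDegree ≤ D := fun i =>
    Finset.le_sup (f := fun i => (Gm i).totalDegree) (Finset.mem_univ i)
  set t : Fin N → M := fun l => algebraMap k M (w0 l) with ht
  have hevv : ∀ i, eval v (Gm i) = aeval v (G i) := by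
    intro i
    rw [hGm, eval_map, ← aeval_def]
  have hevt : ∀ i, eval t (Gm i) = algebraMap k M (eval w0 (G i)) := by
    intro i
    rw [hGm, eval_map]
    have h1 := eval₂_comp_left (algebraMap k M) (RingHom.id k) w0 (G i)
    rw [RingHom.comp_id] at h1
    exact h1.symm
  refine ⟨fun i => eval w0 (G i), fun h => hw0 (congrFun h i1), D,
    fun i => Pool.Agent.X328.FD.curve D v t (Gm i),
    fun i => (Pool.Agent.X328.FD.curve_top v t (hDi i)).1, fun f d hf hGf => ?_,
    ⟨1, one_ne_zero, fun i => ?_⟩, 1, one_ne_zero, fun i => ?_⟩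
  · have hform : aeval Gm (map (algebraMap k M) f) = 0 := by
      have h1 : aeval Gm (map (algebraMap k M) f) = map (algebraMap k M) (aeval G f) := by
        rw [aeval_map_algebraMap]
        have h2 := comp_aeval_apply G (mapAlgHom (Algebra.ofId k M) :
          MvPolynomial (Fin N) k →ₐ[k] MvPolynomial (Fin N) M) f
        exact h2.symm
      rw [h1, hGf, map_zero]
    have h1 := Pool.Agent.X328.FD.curve_form v t hDi (hf.map (algebraMap k M)) hform
    rw [aeval_map_algebraMap] at h1
    exact h1
  · rw [Pool.Agent.X328.FD.curve_zero, hevv, one_mul]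
  · rw [(Pool.Agent.X328.FD.curve_top v t (hDi i)).2, hevt, one_mul]

end

end Pool.Agent.H901.GM
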