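import Pool.Agent.H900.PN.Co

/-! # Gushel–Mukai fourfolds: definitions -/

set_option autoImplicit false
set_option linter.unusedSectionVars false
set_option linter.unusedVariables false

namespace Pool.Agent.H901.GM

open MvPolynomial FF Module Pool.Agent.H900.PN

noncomputable section

/-- the Plücker relations; the coordinates are
`z12, z13, z14, z15, z23, z24, z25, z34, z35, z45` -/
def Plu {A : Type} [CommRing A] (z : Fin 10 → A) : Prop :=
  z 0 * z 7 - z 1 * z 5 + z 2 * z 4 = 0 ∧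
  z 0 * z 8 - z 1 * z 6 + z 3 * z 4 = 0 ∧
  z 0 * z 9 - z 2 * z 6 + z 3 * z 5 = 0 ∧
  z 1 * z 9 - z 2 * z 8 + z 3 * z 7 = 0 ∧
  z 4 * z 9 - z 5 * z 8 + z 6 * z 7 = 0

/-- the special quadratic form -/
def spq {A : Type} [CommRing A] (t1 t2 : A) (z : Fin 10 → A) : A :=
  ((z 9 + z 2 + z 5) ^ 2 + z 1 * z 4 + z 1 * z 5) + t1 * (z 8 ^ 2 + z 2 * z 5) +
    t2 * (z 7 ^ 2 + z 3 * z 6)

/-- the special Gushel–Mukai fourfold -/
def SP {A : Type} [CommRing A] (t1 t2 : A) (z : Fin 10 → A) : Prop :=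
  Plu z ∧ z 0 = 0 ∧ spq t1 t2 z = 0

/-- the class of the point is trivial -/
def Cl {ι A : Type} [Fintype ι] [CommRing A] (t : ι → A) (z : Fin 10 → A) : Prop :=
  Vl t (z 1 * z 4) ∧ Vl t (z 2 * z 5) ∧ Vl t (z 3 * z 6)

/-- the forms of the special family -/
def Ph {ι : Type} (k : Type) [CommRing k] (i1 i2 : ι) (τ : Finset ι) :
    MvPolynomial (Fin 10) k :=
  open Classical in
  (if τ = ∅ then (X 9 + X 2 + X 5) ^ 2 + X 1 * X 4 + X 1 * X 5 else 0) +
    (if τ = {i1} then X 8 ^ 2 + X 2 * X 5 else 0) +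
    (if τ = {i2} then X 7 ^ 2 + X 3 * X 6 else 0)

/-- the equations of the family over the discretely valued field -/
def Sol {ι k A : Type} [CommRing k] [CommRing A] [Algebra k A] (i1 i2 : ι)
    (T : Finset (Finset ι)) (t : ι → A) (H : MvPolynomial (Fin 10) k)
    (G : Finset ι → MvPolynomial (Fin 10) k) (c : A) (z : Fin 10 → A) : Prop :=
  Plu z ∧ z 0 + c * aeval z H = 0 ∧ fv T t (Ph k i1 i2) z + c * fv T t G z = 0

/-- the class of the reduction of a point is trivial -/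
def Trz {Ω E ι : Type} [Field Ω] [Field E] [Algebra Ω E] [Fintype ι] (w : Place Ω E) (ϖ : E)
    (t : ι → E) (p : Fin 10 → E) (m : ℤ) : Prop :=
  Cl (fun i => w.red (t i)) (fun i => w.red (p i * ϖ ^ (-m)))

/-- the points `u` and `u'` are joined by a rational curve with the property `P` -/
def Lkp {E : Type} [Field E] {r : ℕ} (P : (Fin r → Polynomial E) → Prop)
    (u u' : Fin r → E) : Prop :=
  u ≠ 0 ∧ u' ≠ 0 ∧ ∃ (d : ℕ) (C : Fin r → Polynomial E), (∀ i, (C i).natDegree ≤ d) ∧ P C ∧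
    (∃ a : E, a ≠ 0 ∧ ∀ i, (C i).coeff 0 = a * u i) ∧
    ∃ b : E, b ≠ 0 ∧ ∀ i, (C i).coeff d = b * u' i

/-- the parameters: the slot `i1` is used for `y` -/
def uV {κ μ : Type} {s : ℕ} (i1 : Fin s) (t : Fin s → κ) (y : κ) (x : Fin 4 → κ) (R : μ → κ) :
    Fin s ⊕ (Fin 4 ⊕ μ) → κ :=
  Sum.elim (fun i => if i = i1 then y else t i) (Sum.elim x R)

/-- the coordinates `x3, x4, y3, y4` of a point in the chart `z25 = 1` -/
def x4 {κ : Type} [Field κ] (g : Fin 10 → κ) : Fin 4 → κ :=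
  ![g 8 / g 6, g 9 / g 6, g 4 / g 6, g 5 / g 6]

/-- the relation between the coordinates of a point of the special fourfold in the
chart `z25 = 1`, here `x = ![x3, x4, y3, y4]` -/
def rel {A : Type} [CommRing A] (t1 t2 y : A) (x : Fin 4 → A) : A :=
  ((x 1 + (1 + y) * x 3) ^ 2 + y * (x 2 ^ 2 + x 2 * x 3)) + t1 * (x 0 ^ 2 + y * x 3 ^ 2) +
    t2 * ((x 0 * x 3 - x 1 * x 2) ^ 2 + y)

/-- the coefficients of `(h, F)` -/
def cf {s : ℕ} (T : Finset (Finset (Fin s))) (h : Fin 10 → ℂ)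
    (F : Finset (Fin s) → MvPolynomial (Fin 10) ℂ) :
    Fin 10 ⊕ (T × {β : Fin 10 →₀ ℕ // β.degree = 2}) → ℂ :=
  Sum.elim h fun p => coeff p.2.1 (F p.1)

/-- the ratios of the coordinates -/
def rt {M : Type} [Field M] {r : ℕ} (g : Fin r → M) : Set M := {z | ∃ i j, z = g i / g j}

/-! ## The statements -/

/-- the class is constant along rational curves on the special fourfold -/
def S_CRV : Prop :=
  ∀ (κ ι : Type) [Field κ] [Fintype ι] (t : ι → κ) (i1 i2 : ι), i1 ≠ i2 → Ani t →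
    ∀ e : κ, e ^ 2 = -1 → ∀ z : Fin 10 → Polynomial κ,
    SP (Polynomial.C (t i1)) (Polynomial.C (t i2)) z →
    ∀ a b : ℕ, (∀ i l, l < a → (z i).coeff l = 0) → (fun i => (z i).coeff a) ≠ 0 →
      (∀ i l, b < l → (z i).coeff l = 0) → (fun i => (z i).coeff b) ≠ 0 →
      (Cl t (fun i => (z i).coeff a) ↔ Cl t (fun i => (z i).coeff b))

/-- the class of the reduction is constant along rational curves over a discretely
valued field -/
def S_NWT : Prop :=
  ∀ (Ω E ι : Type) [Field Ω] [Field E] [Algebra Ω E] [Fintype ι] (w : Place Ω E) (i1 i2 : ι)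
    (T : Finset (Finset ι)) (t : ι → E) (ϖ : E), i1 ≠ i2 → ∅ ∈ T → {i1} ∈ T → {i2} ∈ T →
    ϖ ≠ 0 → w.ord ϖ = 1 → (∀ i, w.Reg (t i)) → Ani (fun i => w.red (t i)) →
    ∀ ε : w.RF, ε ^ 2 = -1 →
    ∀ (H : MvPolynomial (Fin 10) Ω) (G : Finset ι → MvPolynomial (Fin 10) Ω),
    H.IsHomogeneous 1 → (∀ τ ∈ T, (G τ).IsHomogeneous 2) →
    ∀ c : E, w.Reg c → w.red c = 0 → ∀ Cc : Fin 10 → Polynomial E,
    Sol i1 i2 T (fun i => Polynomial.C (t i)) H G (Polynomial.C c) Cc →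
    ∀ d : ℕ, (∀ i, (Cc i).natDegree ≤ d) → (fun i => (Cc i).coeff 0) ≠ 0 →
      (fun i => (Cc i).coeff d) ≠ 0 →
      ∀ m0 md : ℤ, Nrm w (fun i => (Cc i).coeff 0) m0 → Nrm w (fun i => (Cc i).coeff d) md →
        (Trz w ϖ t (fun i => (Cc i).coeff 0) m0 ↔ Trz w ϖ t (fun i => (Cc i).coeff d) md)

/-- the Pfister form with the additional slot `y` is anisotropic -/
def S_ANR : Prop :=
  ∀ (Ω κ μ : Type) [Field Ω] [CharZero Ω] [Field κ] [Algebra Ω κ] [Finite μ] (s : ℕ)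
    (i1 i2 : Fin s) (t : Fin s → κ) (y : κ) (x : Fin 4 → κ) (R : μ → κ), i1 ≠ i2 →
    AlgebraicIndependent Ω (uV i1 t y x R) → rel (t i1) (t i2) y x = 0 →
    Odd (finrank (IntermediateField.adjoin Ω (Set.range (uV i1 t y x R))) κ) →
    x 0 ^ 2 + y * x 3 ^ 2 ≠ 0 ∧ AlgebraicIndependent Ω t ∧
    ∀ u v : Finset (Fin s) → κ, pf t u + y * pf t v = 0 → u = 0 ∧ v = 0

/-- the generic point: the function field is generated by independent elements -/
def S_GEN : Prop :=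
  ∀ (s m : ℕ) (T : Finset (Finset (Fin s))) (i1 : Fin s), ∅ ∈ T → {i1} ∈ T →
    ∀ (h : Fin 10 → ℂ) (F : Finset (Fin s) → MvPolynomial (Fin 10) ℂ),
    (∀ τ ∈ T, (F τ).IsHomogeneous 2) → AlgebraicIndependent ℚ (cf T h F) →
    ∀ (M : Type) [Field M] [Algebra ℂ M] (t : Fin s → M) (g : Fin 10 → M) (R : Fin m → M),
    g ≠ 0 → Plu g → ∑ i, algebraMap ℂ M (h i) * g i = 0 → fv T t F g = 0 →
    ∀ (ι' : Type) (y : ι' → M), AlgebraicIndependent ℂ y →
    ((s + (4 + m) : ℕ) : Cardinal) ≤ Cardinal.mk ι' →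
    (∀ z : M, IsAlgebraic (IntermediateField.adjoin ℂ
      (Set.range t ∪ (rt g ∪ Set.range R))) z) →
    g 6 ≠ 0 ∧ AlgebraicIndependent ℂ (uV i1 t (g 3 / g 6) (x4 g) R) ∧
    IntermediateField.adjoin ℂ (Set.range t ∪ (rt g ∪ Set.range R)) =
      IntermediateField.adjoin ℂ (Set.range (uV i1 t (g 3 / g 6) (x4 g) R))

/-- independent complex numbers, in a neighbourhood of rational numbers -/
def S_BAS : Prop :=
  ∀ (J : Type) [Finite J] (j0 : J) (v : J → ℂ) (v0 : J → ℚ), AlgebraicIndependent ℚ v →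
    ∃ (Ω : IntermediateField ℚ ℂ) (c : ℂ) (w : J → Ω), IsAlgClosed Ω ∧ Transcendental Ω c ∧
      Algebra.IsAlgebraic (IntermediateField.adjoin Ω {c}) ℂ ∧
      ∀ j, v j = algebraMap ℚ ℂ (v0 j) + c * algebraMap Ω ℂ (w j)

/-- independent complex numbers as variables -/
def S_BAT : Prop :=
  ∀ (J : Type) [Finite J] (v : J → ℂ), AlgebraicIndependent ℚ v →
    ∃ k0 : IntermediateField ℚ ℂ, AlgebraicIndependent k0 v ∧
      Algebra.IsAlgebraic (IntermediateField.adjoin k0 (Set.range v)) ℂ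

/-- a chain of rational curves is defined over all fields which contain finitely many
elements -/
def S_LFT : Prop :=
  ∀ (M : Type) [Field M] (r : ℕ) (P : (Fin r → Polynomial M) → Prop) (l a : Fin r → M),
    Relation.ReflTransGen (Lkp P) a l →
    ∃ T : Finset M, ∀ (E : Type) [Field E] (P' : (Fin r → Polynomial E) → Prop) (ε : E →+* M),
      (∀ z ∈ T, ∃ z', ε z' = z) →
      (∀ y : Fin r → Polynomial E, P (fun i => (y i).map ε) → P' y) →
      ∀ a' l' : Fin r → E, (∀ i, ε (a' i) = a i) → (∀ i, ε (l' i) = l i) →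
      Relation.ReflTransGen (Lkp P') a' l'

/-- a rational point of a projective variety over a purely transcendental extension is
joined to a rational point -/
def S_PRM : Prop :=
  ∀ (k : Type) [Field k] [Infinite k] (r N : ℕ) (S : Set (MvPolynomial (Fin r) k)),
    (∀ f ∈ S, ∃ d, f.IsHomogeneous d) → ∀ (U : Type) [Field U]
    [Algebra (MvPolynomial (Fin N) k) U] [Algebra k U]
    [IsScalarTower k (MvPolynomial (Fin N) k) U] [IsFractionRing (MvPolynomial (Fin N) k) U]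
    (g : Fin r → U), g ≠ 0 → (∀ f ∈ S, aeval g f = 0) →
    ∃ p : Fin r → k, p ≠ 0 ∧
      Lkp (fun C => ∀ f ∈ S, aeval C f = 0) g (fun i => algebraMap k U (p i))

end

end Pool.Agent.H901.GM
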