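import Pool.Agent.H901.GM.Co
import Pool.Agent.H900.PN.Tc

/-! # Gushel–Mukai fourfolds: transfer to the complex numbers -/

set_option autoImplicit false
set_option linter.unusedSectionVars false
set_option linter.unusedVariables false

namespace Pool.Agent.H901.GM

open MvPolynomial FF Module Pool.Agent.Helper93K9.PAR Pool.Agent.H900.PN Pool.Agent.H900

noncomputable section

/-- the system over the complex numbers -/
def SolC {s : ℕ} {A : Type} [CommRing A] [Algebra ℂ A] (T : Finset (Finset (Fin s)))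
    (h : Fin 10 → ℂ) (t : Fin s → A) (F : Finset (Fin s) → MvPolynomial (Fin 10) ℂ)
    (z : Fin 10 → A) : Prop :=
  Plu z ∧ ∑ i, algebraMap ℂ A (h i) * z i = 0 ∧ fv T t F z = 0

/-- the decomposition of the family -/
theorem fam_dec (hB : S_BAS) {s : ℕ} (i1 i2 : Fin s) {T : Finset (Finset (Fin s))}
    {h : Fin 10 → ℂ} {F : Finset (Fin s) → MvPolynomial (Fin 10) ℂ}
    (hF : ∀ τ ∈ T, (F τ).IsHomogeneous 2) (hind : AlgebraicIndependent ℚ (cf T h F)) :
    ∃ (Ω : IntermediateField ℚ ℂ) (c : ℂ) (H : MvPolynomial (Fin 10) Ω)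
      (G : Finset (Fin s) → MvPolynomial (Fin 10) Ω),
      IsAlgClosed Ω ∧ Transcendental Ω c ∧
      Algebra.IsAlgebraic (IntermediateField.adjoin Ω {c}) ℂ ∧
      H.IsHomogeneous 1 ∧ (∀ τ ∈ T, (G τ).IsHomogeneous 2) ∧
      ∀ (A : Type) [CommRing A] [Algebra ℂ A] (t : Fin s → A) (z : Fin 10 → A),
        SolC T h t F z ↔ Sol i1 i2 T t H G (algebraMap ℂ A c) z := by
  classical
  have hfin : Finite {β : Fin 10 →₀ ℕ // β.degree = 2} :=
    (Finsupp.finite_of_degree_eq (σ := Fin 10) 2).to_subtype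
  have hft : Fintype {β : Fin 10 →₀ ℕ // β.degree = 2} := Fintype.ofFinite _
  obtain ⟨Ω, c, w, hΩ, hc, halg, hw⟩ := hB (Fin 10 ⊕ (T × {β : Fin 10 →₀ ℕ // β.degree = 2}))
    (Sum.inl 0) (cf T h F) (Sum.elim (Pi.single 0 1) fun p => coeff p.2.1 (Ph ℚ i1 i2 p.1.1)) hind
  let H : MvPolynomial (Fin 10) Ω := ∑ i, C (w (Sum.inl i)) * X i
  let G : Finset (Fin s) → MvPolynomial (Fin 10) Ω := fun τ =>
    if hτ : τ ∈ T then ∑ β : {β : Fin 10 →₀ ℕ // β.degree = 2},
      monomial β.1 (w (Sum.inr (⟨τ, hτ⟩, β))) else 0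
  have hG1 : ∀ τ (hτ : τ ∈ T), G τ = ∑ β : {β : Fin 10 →₀ ℕ // β.degree = 2},
      monomial β.1 (w (Sum.inr (⟨τ, hτ⟩, β))) := fun τ hτ => dif_pos hτ
  have hGh : ∀ τ ∈ T, (G τ).IsHomogeneous 2 := by
    intro τ hτ
    rw [hG1 τ hτ]
    exact IsHomogeneous.sum _ _ _ fun β _ => isHomogeneous_monomial _ β.2
  have hGc : ∀ τ (hτ : τ ∈ T) (β : {β : Fin 10 →₀ ℕ // β.degree = 2}),
      coeff β.1 (G τ) = w (Sum.inr (⟨τ, hτ⟩, β)) := by
    intro τ hτ β
    rw [hG1 τ hτ, coeff_sum, Finset.sum_eq_single β]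
    · rw [coeff_monomial, if_pos rfl]
    · intro β' _ hne
      rw [coeff_monomial, if_neg fun h => hne (Subtype.ext h)]
    · intro h
      exact absurd (Finset.mem_univ _) h
  have hFG : ∀ τ ∈ T, F τ = map (algebraMap Ω ℂ) (Ph Ω i1 i2 τ) +
      C c * map (algebraMap Ω ℂ) (G τ) := by
    intro τ hτ
    have e0 : map (algebraMap Ω ℂ) (Ph Ω i1 i2 τ) = map (algebraMap ℚ ℂ) (Ph ℚ i1 i2 τ) := by
      rw [Ph_map, Ph_map]
    ext β
    rw [e0, coeff_add, coeff_C_mul, coeff_map, coeff_map]
    by_cases hβ : β.degree = 2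
    · have e1 := hw (Sum.inr (⟨τ, hτ⟩, ⟨β, hβ⟩))
      have e2 := hGc τ hτ ⟨β, hβ⟩
      rw [← e2] at e1
      exact e1
    · rw [(hF τ hτ).coeff_eq_zero hβ, (hGh τ hτ).coeff_eq_zero hβ,
        (Ph_hom (k := ℚ) i1 i2 τ).coeff_eq_zero hβ, map_zero, map_zero, mul_zero, add_zero]
  refine ⟨Ω, c, H, G, hΩ, hc, halg, ?_, hGh, fun A _ _ t z => ?_⟩
  · refine IsHomogeneous.sum _ _ _ fun i _ => ?_
    have := (isHomogeneous_C (Fin 10) (w (Sum.inl i))).mul (isHomogeneous_X Ω i)
    rwa [zero_add] at this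
  · have e1 : ∑ i, algebraMap ℂ A (h i) * z i = z 0 + algebraMap ℂ A c * aeval z H := by
      have e2 : ∀ i, algebraMap ℂ A (h i) * z i = (if i = 0 then z i else 0) +
          algebraMap ℂ A c * (algebraMap Ω A (w (Sum.inl i)) * z i) := by
        intro i
        have e3 := hw (Sum.inl i)
        have e4 : h i = algebraMap ℚ ℂ ((Pi.single 0 1 : Fin 10 → ℚ) i) +
          c * algebraMap Ω ℂ (w (Sum.inl i)) := e3
        rw [e4, map_add, map_mul]
        have e5 : algebraMap ℂ A (algebraMap Ω ℂ (w (Sum.inl i))) =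
          algebraMap Ω A (w (Sum.inl i)) := (IsScalarTower.algebraMap_apply Ω ℂ A _).symm
        rw [e5]
        by_cases hi : i = 0
        · rw [if_pos hi, hi, Pi.single_eq_same, map_one, map_one]
          ring
        · rw [if_neg hi, Pi.single_eq_of_ne hi, map_zero, map_zero]
          ring
      rw [Finset.sum_congr rfl fun i _ => e2 i, Finset.sum_add_distrib, Finset.sum_ite_eq',
        if_pos (Finset.mem_univ _), ← Finset.mul_sum]
      simp only [H, map_sum, map_mul, aeval_C, aeval_X]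
    have e2 : fv T t F z = fv T t (Ph Ω i1 i2) z + algebraMap ℂ A c * fv T t G z := by
      unfold fv
      rw [Finset.mul_sum, ← Finset.sum_add_distrib]
      refine Finset.sum_congr rfl fun τ hτ => ?_
      rw [hFG τ hτ, map_add, map_mul, aeval_C, aeval_map_algebraMap, aeval_map_algebraMap]
      ring
    unfold SolC Sol
    rw [e1, e2]

theorem sol_map {ι k A B : Type} [CommRing k] [CommRing A] [Algebra k A] [CommRing B]
    [Algebra k B] (f : A →ₐ[k] B) {i1 i2 : ι} {T : Finset (Finset ι)} {t : ι → A}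
    {H : MvPolynomial (Fin 10) k} {G : Finset ι → MvPolynomial (Fin 10) k} {c : A}
    {z : Fin 10 → A} (h : Sol i1 i2 T t H G c z) :
    Sol i1 i2 T (fun i => f (t i)) H G (f c) fun i => f (z i) := by
  obtain ⟨h1, h2, h3⟩ := h
  refine ⟨plu_map (f : A →+* B) h1, ?_, ?_⟩
  · have := congrArg f h2
    rwa [map_add, map_mul, map_zero, comp_aeval_apply] at this
  · have := congrArg f h3
    rwa [map_add, map_mul, map_zero, fv_map, fv_map] at this

theorem sol_of_inj {ι k A B : Type} [CommRing k] [CommRing A] [Algebra k A] [CommRing B]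
    [Algebra k B] (f : A →ₐ[k] B) (hf : Function.Injective f) {i1 i2 : ι}
    {T : Finset (Finset ι)} {t : ι → A}
    {H : MvPolynomial (Fin 10) k} {G : Finset ι → MvPolynomial (Fin 10) k} {c : A}
    {z : Fin 10 → A} (h : Sol i1 i2 T (fun i => f (t i)) H G (f c) fun i => f (z i)) :
    Sol i1 i2 T t H G c z := by
  obtain ⟨h1, h2, h3⟩ := h
  refine ⟨plu_of_inj (f : A →+* B) hf h1, ?_, ?_⟩
  · apply hf
    rw [map_add, map_mul, map_zero, comp_aeval_apply]
    exact h2
  · apply hf
    rw [map_add, map_mul, map_zero, fv_map, fv_map]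
    exact h3

/-- **The theorem over the complex numbers**, for independent parameters. -/
theorem over_C (hN : S_NWT) (hA : S_ANR) (hB : S_BAS) (hL : S_LFT) {s m : ℕ} {i1 i2 : Fin s}
    (h12 : i1 ≠ i2) {T : Finset (Finset (Fin s))} (hT0 : ∅ ∈ T) (hT1 : {i1} ∈ T)
    (hT2 : {i2} ∈ T) {h : Fin 10 → ℂ}
    {F : Finset (Fin s) → MvPolynomial (Fin 10) ℂ} (hF : ∀ τ ∈ T, (F τ).IsHomogeneous 2)
    (hind : AlgebraicIndependent ℚ (cf T h F))
    {M : Type} [Field M] [Algebra ℂ M] (t : Fin s → M) (g : Fin 10 → M) (R : Fin m → M)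
    (hg : SolC T h t F g) (hg0 : g 6 ≠ 0) (hi : AlgebraicIndependent ℂ (UG i1 t g R))
    (hodd : Odd (finrank (Kc ℂ (UG i1 t g R)) M)) (l : Fin 10 → M)
    (hl1 : ∀ i j, ¬ AlgebraicIndependent ℂ (Fin.cons (l i / l j) t : Fin (s + 1) → M)) :
    ¬ Relation.ReflTransGen (Lkp (SolC T h (fun i => Polynomial.C (t i)) F)) g l := by
  classical
  intro hch
  obtain ⟨Tt, hTt⟩ := hL M 10 _ l g hch
  obtain ⟨Ω, c, H, G, hΩ, hc, halg, hH, hG, hFG⟩ := fam_dec hB i1 i2 hF hind
  have hchar : CharZero Ω := inferInstance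
  have hfin : FiniteDimensional (Kc ℂ (UG i1 t g R)) M :=
    FiniteDimensional.of_finrank_pos hodd.pos
  obtain ⟨K, E, _, _, _, _, _, _, ι, ε, c', u', hFF, hc', hιε, hu', hTm, hTc, hdu⟩ :=
    LF.desc2 Ω ℂ M c hc halg _ (UG i1 t g R)
      (Finset.univ.image l ∪ (Tt ∪ (Finset.univ.image g ∪ (Finset.univ.image t ∪
        Finset.univ.image R)))) ∅ hfin
  have hEinj : Function.Injective ε := (ε : E →+* M).injective
  have hιinj : Function.Injective ι := (ι : K →+* ℂ).injective
  choose l' hεl using fun i => hTm (l i) (Finset.mem_union_left _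
    (Finset.mem_image_of_mem _ (Finset.mem_univ i)))
  choose g' hεg using fun i => hTm (g i) (Finset.mem_union_right _ (Finset.mem_union_right _
    (Finset.mem_union_left _ (Finset.mem_image_of_mem _ (Finset.mem_univ i)))))
  choose t' hεt using fun i => hTm (t i) (Finset.mem_union_right _ (Finset.mem_union_right _
    (Finset.mem_union_right _ (Finset.mem_union_left _
      (Finset.mem_image_of_mem _ (Finset.mem_univ i))))))
  choose R' hεR using fun i => hTm (R i) (Finset.mem_union_right _ (Finset.mem_union_right _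
    (Finset.mem_union_right _ (Finset.mem_union_right _
      (Finset.mem_image_of_mem _ (Finset.mem_univ i))))))
  have hUU : ∀ i, ε (UG i1 t' g' R' i) = UG i1 t g R i := by
    intro i
    unfold UG
    rw [Function.comp_apply, Function.comp_apply]
    unfold uV
    rcases eqv s 4 m i with a | a | a
    · simp only [Sum.elim_inl]
      by_cases ha : a = i1
      · rw [if_pos ha, if_pos ha, map_div₀, hεg, hεg]
      · rw [if_neg ha, if_neg ha, hεt]
    · simp only [Sum.elim_inr, Sum.elim_inl]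
      unfold x4
      fin_cases a
      · show ε (g' 8 / g' 6) = g 8 / g 6
        rw [map_div₀, hεg, hεg]
      · show ε (g' 9 / g' 6) = g 9 / g 6
        rw [map_div₀, hεg, hεg]
      · show ε (g' 4 / g' 6) = g 4 / g 6
        rw [map_div₀, hεg, hεg]
      · show ε (g' 5 / g' 6) = g 5 / g 6
        rw [map_div₀, hεg, hεg]
    · exact hεR a
  have huy : u' = UG i1 t' g' R' := by
    funext i
    apply hEinj
    rw [hu', hUU]
  have hεc : ε (algebraMap K E c') = algebraMap ℂ M c := by
    rw [hιε, hc']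
  have hctr : Transcendental Ω c' := by
    intro h
    apply hc
    rw [← hc']
    exact h.algHom ι
  refine core hN hA h12 hT0 hT1 hT2 hH hG hctr t' g' R' ?_ ?_ ?_ ?_ l' (fun i j hij => ?_) ?_
  · apply sol_of_inj ε hEinj
    rw [funext hεt, hεc, funext hεg]
    exact (hFG M t g).1 hg
  · intro h0
    apply hg0
    rw [← hεg, h0, map_zero]
  · apply ind_down hιε
    rw [funext hUU]
    exact hi
  · rw [← huy, hdu]
    exact hodd
  · apply hl1 i j
    have h1 := ind_up hιε (alg_of hc' halg) hij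
    have h2 : (fun a => ε ((Fin.cons (l' i / l' j) t' : Fin (s + 1) → E) a)) =
        Fin.cons (l i / l j) t := by
      funext a
      refine Fin.cases ?_ (fun a => ?_) a
      · show ε (l' i / l' j) = l i / l j
        rw [map_div₀, hεl, hεl]
      · exact hεt _
    rw [h2] at h1
    exact h1
  · refine hTt E _ (ε : E →+* M)
      (fun z hz => hTm z (Finset.mem_union_right _ (Finset.mem_union_left _ hz)))
      (fun y hy => ?_) _ _ hεg hεl
    have h1 := (hFG (Polynomial M) _ _).1 hy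
    have hinj : Function.Injective (Polynomial.mapAlgHom ε) :=
      Polynomial.map_injective (ε : E →+* M) hEinj
    apply sol_of_inj (Polynomial.mapAlgHom ε) hinj
    have h3 : (fun i => (Polynomial.mapAlgHom ε) (Polynomial.C (t' i))) =
        fun i => Polynomial.C (t i) := by
      funext i
      rw [← hεt]
      exact Polynomial.map_C _
    have h4 : (Polynomial.mapAlgHom ε) (Polynomial.C (algebraMap K E c')) =
        algebraMap ℂ (Polynomial M) c := by
      rw [IsScalarTower.algebraMap_apply ℂ M (Polynomial M), Polynomial.algebraMap_apply, ← hεc]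
      exact Polynomial.map_C _
    rw [h3, h4]
    exact h1

end

end Pool.Agent.H901.GM
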